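import Pool.Agent.W5h43.SG.Gam2

set_option autoImplicit false

/-!
# Two-point estimates for the lifted branch
-/

namespace Pool.Agent.W5h43.SG

open Complex Set Topology Filter

lemma Ga_lip' {x y : ℂ} (hx : x ∈ E') (hy : y ∈ E') : ‖Ga x - Ga y‖ ≤ 6 / 7 * ‖x - y‖ :=
  convex_E'.norm_image_sub_le_of_norm_hasDerivWithin_le
    (fun _ hz => (hasDerivAt_Ga hz).hasDerivWithinAt) (fun _ hz => dGa_norm hz) hy hx

/-- the function with `Γ'² = Ψ (Γ, z)` -/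
noncomputable def Psi (a b : ℂ) : ℂ := a * (8 + a ^ 3) / ((8 + b ^ 3) * (2 + b ^ 3))

lemma dGa_Psi {z : ℂ} (h : z ∈ E') : dGa z ^ 2 = Psi (Ga z) z := by
  have h1 := dGa_sq h
  have h2 : G (chi z) * (2 + Ga z ^ 3) = 3 * Ga z := by
    rw [← chi_Ga h.1]
    unfold chi
    rw [div_mul_cancel₀ _ (den_ne (Ga_mem h.1).1)]
  unfold Psi
  rw [eq_div_iff (mul_ne_zero (den8_ne h.1.1) (den_ne h.1.1))]
  linear_combination h1 / 3 + (8 + Ga z ^ 3) / 3 * h2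

lemma Psi_lip {a a' b b' : ℂ} (ha : ‖a‖ ≤ 1) (ha' : ‖a'‖ ≤ 1) (hb : ‖b‖ ≤ 1) (hb' : ‖b'‖ ≤ 1) :
    ‖Psi a b - Psi a' b'‖ ≤ 2 * ‖a - a'‖ + 9 * ‖b - b'‖ := by
  have h1 := mul_ne_zero (den8_ne hb) (den_ne hb)
  have h2 := mul_ne_zero (den8_ne hb') (den_ne hb')
  set D := (8 + b ^ 3) * (2 + b ^ 3) with hD
  set D' := (8 + b' ^ 3) * (2 + b' ^ 3) with hD'
  have n1 : 7 ≤ ‖D‖ := by
    rw [hD, norm_mul]; nlinarith [den8_norm hb, den_norm hb]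
  have n2 : 7 ≤ ‖D'‖ := by
    rw [hD', norm_mul]; nlinarith [den8_norm hb', den_norm hb']
  have c1 : ∀ {c : ℂ}, ‖c‖ ≤ 1 → ‖c ^ 3‖ ≤ 1 := fun {c} hc => by
    rw [norm_pow]; exact pow_le_one₀ (norm_nonneg _) hc
  have e : Psi a b - Psi a' b' = (a - a') * (8 + a ^ 3 + a ^ 2 * a' + a * a' ^ 2 + a' ^ 3) / D +
      a' * (8 + a' ^ 3) * ((b' - b) * (b' ^ 2 + b' * b + b ^ 2) * (10 + b ^ 3 + b' ^ 3)) /
        (D * D') := by
    unfold Psi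
    rw [← hD, ← hD']
    field_simp
    rw [hD, hD']
    ring
  rw [e]
  refine (norm_add_le _ _).trans (add_le_add ?_ ?_)
  · rw [norm_div, norm_mul, div_le_iff₀ (by linarith)]
    have h3 : ‖8 + a ^ 3 + a ^ 2 * a' + a * a' ^ 2 + a' ^ 3‖ ≤ 12 := by
      have t1 : ‖a ^ 2 * a'‖ ≤ 1 := by
        rw [norm_mul, norm_pow]; nlinarith [norm_nonneg a, norm_nonneg a']
      have t2 : ‖a * a' ^ 2‖ ≤ 1 := by
        rw [norm_mul, norm_pow]; nlinarith [norm_nonneg a, norm_nonneg a', sq_nonneg ‖a'‖]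
      have t3 : ‖(8 : ℂ)‖ = 8 := by simp
      calc _ ≤ ‖8 + a ^ 3 + a ^ 2 * a' + a * a' ^ 2‖ + ‖a' ^ 3‖ := norm_add_le _ _
        _ ≤ ‖8 + a ^ 3 + a ^ 2 * a'‖ + ‖a * a' ^ 2‖ + ‖a' ^ 3‖ := by gcongr; exact norm_add_le _ _
        _ ≤ ‖8 + a ^ 3‖ + ‖a ^ 2 * a'‖ + ‖a * a' ^ 2‖ + ‖a' ^ 3‖ := by gcongr; exact norm_add_le _ _
        _ ≤ 12 := by linarith [den8_le ha, c1 ha']
    nlinarith [norm_nonneg (a - a'), mul_le_mul_of_nonneg_left h3 (norm_nonneg (a - a')),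
      mul_le_mul_of_nonneg_left n1 (norm_nonneg (a - a'))]
  · rw [norm_div, norm_mul, norm_mul, norm_mul, norm_mul, norm_mul, norm_sub_rev b' b,
      div_le_iff₀ (by positivity)]
    have h3 : ‖a'‖ * ‖8 + a' ^ 3‖ ≤ 9 := by nlinarith [den8_le ha', norm_nonneg a']
    have h4 : ‖b' ^ 2 + b' * b + b ^ 2‖ ≤ 3 := by
      refine (norm_add₃_le).trans ?_
      rw [norm_pow, norm_pow, norm_mul]
      nlinarith [norm_nonneg b, norm_nonneg b']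
    have h5 : ‖10 + b ^ 3 + b' ^ 3‖ ≤ 12 := by
      refine (norm_add₃_le).trans ?_
      have t3 : ‖(10 : ℂ)‖ = 10 := by simp
      linarith [c1 hb, c1 hb']
    have h6 : 49 ≤ ‖D‖ * ‖D'‖ := by nlinarith
    calc ‖a'‖ * ‖8 + a' ^ 3‖ * (‖b - b'‖ * ‖b' ^ 2 + b' * b + b ^ 2‖ * ‖10 + b ^ 3 + b' ^ 3‖)
        ≤ 9 * (‖b - b'‖ * 3 * 12) := by gcongr
      _ ≤ 9 * ‖b - b'‖ * 49 := by nlinarith [norm_nonneg (b - b')]
      _ ≤ 9 * ‖b - b'‖ * (‖D‖ * ‖D'‖) := by gcongr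

lemma dGa_lip {x y : ℂ} (hx : x ∈ E') (hy : y ∈ E') : ‖dGa x - dGa y‖ ≤ 150 * ‖x - y‖ := by
  have h1 := Psi_lip (Ga_mem hx.1).1 (Ga_mem hy.1).1 hx.1.1 hy.1.1
  rw [← dGa_Psi hx, ← dGa_Psi hy] at h1
  have h2 := Ga_lip' hx hy
  have h3 : 2 / 25 ≤ ‖dGa x + dGa y‖ := by
    refine le_trans ?_ (re_le_norm _)
    rw [add_re]
    linarith [dGa_re hx, dGa_re hy]
  have h4 : ‖dGa x ^ 2 - dGa y ^ 2‖ = ‖dGa x - dGa y‖ * ‖dGa x + dGa y‖ := by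
    rw [← norm_mul]; congr 1; ring
  rw [h4] at h1
  have h5 : ‖dGa x - dGa y‖ * (2 / 25) ≤ ‖dGa x - dGa y‖ * ‖dGa x + dGa y‖ :=
    mul_le_mul_of_nonneg_left h3 (norm_nonneg _)
  nlinarith [norm_nonneg (x - y)]

/-- first order expansion with a quadratic error -/
lemma Ga_taylor {x y z₀ : ℂ} {R : ℝ} (hx : x ∈ E') (hy : y ∈ E') (hz : z₀ ∈ E')
    (hxR : ‖x - z₀‖ ≤ R) (hyR : ‖y - z₀‖ ≤ R) :
    ‖Ga x - Ga y - dGa z₀ * (x - y)‖ ≤ 150 * R * ‖x - y‖ := by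
  have hconv : Convex ℝ (E' ∩ Metric.closedBall z₀ R) := convex_E'.inter (convex_closedBall _ _)
  have h := hconv.norm_image_sub_le_of_norm_hasDerivWithin_le
    (f := fun z => Ga z - dGa z₀ * z) (f' := fun z => dGa z - dGa z₀) (C := 150 * R)
    (fun z hz1 => by
      have := ((hasDerivAt_Ga hz1.1).fun_sub ((hasDerivAt_id' z).const_mul (dGa z₀)))
      simpa using this.hasDerivWithinAt)
    (fun z hz1 => (dGa_lip hz1.1 hz).trans (by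
      have : ‖z - z₀‖ ≤ R := by simpa [dist_eq_norm] using hz1.2
      linarith))
    ⟨hy, by simpa [dist_eq_norm] using hyR⟩ ⟨hx, by simpa [dist_eq_norm] using hxR⟩
  refine le_trans (le_of_eq ?_) h
  congr 1
  ring

lemma Ga_expand' {x y : ℂ} (hx : x ∈ E') (hy : y ∈ E') : ‖x - y‖ ≤ 25 * ‖Ga x - Ga y‖ := by
  rcases eq_or_ne x y with rfl | hxy
  · simp
  have hpos : 0 < ‖x - y‖ := norm_pos_iff.2 (sub_ne_zero.2 hxy)
  let γ : ℝ → ℂ := fun t => y + t * (x - y)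
  have hγ : ∀ t ∈ Icc (0:ℝ) 1, γ t ∈ E' := by
    intro t ht
    have := convex_E' hy hx (by linarith [ht.2] : 0 ≤ 1 - t) ht.1 (by ring)
    have e : γ t = (1 - t) • y + t • x := by
      simp only [γ, real_smul]; push_cast; ring
    rw [e]; exact this
  let h : ℝ → ℝ := fun t => ((Ga (γ t)) * (starRingEnd ℂ) (x - y)).re
  have hder : ∀ t ∈ Icc (0:ℝ) 1, HasDerivAt h
      ((dGa (γ t) * (x - y)) * (starRingEnd ℂ) (x - y)).re t := by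
    intro t ht
    have h1 : HasDerivAt γ (x - y) t := by
      have := ((ofRealCLM.hasDerivAt (x := t)).mul_const (x - y)).const_add y
      simpa [γ] using this
    have h2 : HasDerivAt (fun t => Ga (γ t)) (dGa (γ t) * (x - y)) t :=
      HasDerivAt.comp (h₂ := Ga) (h := γ) t (hasDerivAt_Ga (hγ t ht)) h1
    have h3 := h2.mul_const ((starRingEnd ℂ) (x - y))
    exact (reCLM.hasFDerivAt.comp_hasDerivAt t h3)
  have hval : ∀ t ∈ Icc (0:ℝ) 1, 1 / 25 * ‖x - y‖ ^ 2 ≤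
      ((dGa (γ t) * (x - y)) * (starRingEnd ℂ) (x - y)).re := by
    intro t ht
    have e : (dGa (γ t) * (x - y)) * (starRingEnd ℂ) (x - y) =
        ((‖x - y‖ ^ 2 : ℝ) : ℂ) * dGa (γ t) := by
      rw [mul_assoc, mul_conj, normSq_eq_norm_sq, mul_comm]
    rw [e, re_ofReal_mul]
    nlinarith [dGa_re (hγ t ht), sq_nonneg ‖x - y‖]
  have hmv := (convex_Icc (0:ℝ) 1).mul_sub_le_image_sub_of_le_deriv
    (f := h) (fun t ht => (hder t ht).continuousAt.continuousWithinAt)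
    (fun t ht => (hder t (interior_subset ht)).differentiableAt.differentiableWithinAt)
    (C := 1 / 25 * ‖x - y‖ ^ 2)
    (fun t ht => by rw [(hder t (interior_subset ht)).deriv]; exact hval t (interior_subset ht))
    0 (by simp) 1 (by simp) zero_le_one
  have e0 : γ 0 = y := by simp [γ]
  have e1 : γ 1 = x := by simp [γ]
  have h1 : h 1 - h 0 = ((Ga x - Ga y) * (starRingEnd ℂ) (x - y)).re := by
    simp only [h, e0, e1]
    rw [sub_mul, sub_re]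
  rw [h1, sub_zero, mul_one] at hmv
  have h2 : ((Ga x - Ga y) * (starRingEnd ℂ) (x - y)).re ≤ ‖Ga x - Ga y‖ * ‖x - y‖ := by
    refine (re_le_norm _).trans ?_
    rw [norm_mul, RCLike.norm_conj]
  have h3 : ‖x - y‖ * (1 / 25 * ‖x - y‖) ≤ ‖x - y‖ * ‖Ga x - Ga y‖ := by nlinarith
  have := le_of_mul_le_mul_left h3 hpos
  linarith

/-- comparison of difference quotients -/
lemma Ga_ratio' {x y x' y' : ℂ} {ε : ℝ} (hx : x ∈ E') (hy : y ∈ E') (hx' : x' ∈ E')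
    (hy' : y' ∈ E') (h1 : ‖x - x'‖ ≤ ε) (h2 : ‖y - x'‖ ≤ ε) (h3 : ‖y' - x'‖ ≤ ε) :
    ‖Ga x - Ga y‖ * ‖x' - y'‖ ≤ (1 + 7500 * ε) * (‖Ga x' - Ga y'‖ * ‖x - y‖) := by
  have hε : 0 ≤ ε := (norm_nonneg _).trans h1
  have t1 := Ga_taylor hx hy hx' h1 h2
  have t2 := Ga_taylor hx' hy' hx' (by simpa using hε) h3
  have t3 := Ga_expand' hx' hy'
  set d := dGa x'
  have e1 : ‖Ga x - Ga y‖ ≤ ‖d‖ * ‖x - y‖ + 150 * ε * ‖x - y‖ := by
    have : Ga x - Ga y = d * (x - y) + (Ga x - Ga y - d * (x - y)) := by ring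
    rw [this]
    refine (norm_add_le _ _).trans ?_
    rw [norm_mul]
    linarith
  have e2 : ‖d‖ * ‖x' - y'‖ ≤ ‖Ga x' - Ga y'‖ + 150 * ε * ‖x' - y'‖ := by
    rw [← norm_mul]
    have : d * (x' - y') = (Ga x' - Ga y') - (Ga x' - Ga y' - d * (x' - y')) := by ring
    rw [this]
    refine (norm_sub_le _ _).trans ?_
    linarith
  have n1 := norm_nonneg (x - y)
  have n2 := norm_nonneg (x' - y')
  have n3 := norm_nonneg (Ga x' - Ga y')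
  calc ‖Ga x - Ga y‖ * ‖x' - y'‖ ≤ (‖d‖ * ‖x - y‖ + 150 * ε * ‖x - y‖) * ‖x' - y'‖ := by gcongr
    _ = (‖d‖ * ‖x' - y'‖) * ‖x - y‖ + 150 * ε * (‖x - y‖ * ‖x' - y'‖) := by ring
    _ ≤ (‖Ga x' - Ga y'‖ + 150 * ε * ‖x' - y'‖) * ‖x - y‖ + 150 * ε * (‖x - y‖ * ‖x' - y'‖) := by
        gcongr
    _ = ‖Ga x' - Ga y'‖ * ‖x - y‖ + 300 * ε * ‖x - y‖ * ‖x' - y'‖ := by ring
    _ ≤ ‖Ga x' - Ga y'‖ * ‖x - y‖ + 300 * ε * ‖x - y‖ * (25 * ‖Ga x' - Ga y'‖) := by gcongr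
    _ = (1 + 7500 * ε) * (‖Ga x' - Ga y'‖ * ‖x - y‖) := by ring

/-! ## Extension to the corners -/

/-- approximation from inside -/
noncomputable def app (n : ℕ) (x : ℂ) : ℂ := ((1 - 1 / ((n : ℝ) + 1) : ℝ) : ℂ) * x

lemma app_coef (n : ℕ) : 0 ≤ 1 - 1 / ((n : ℝ) + 1) ∧ 1 - 1 / ((n : ℝ) + 1) < 1 := by
  have h : 0 < 1 / ((n : ℝ) + 1) := by positivity
  have h2 : 1 / ((n : ℝ) + 1) ≤ 1 := by
    rw [div_le_one (by positivity)]; linarith [Nat.cast_nonneg (α := ℝ) n]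
  constructor <;> linarith

lemma app_mem {x : ℂ} (hx : x ∈ E) (n : ℕ) : app n x ∈ E' := by
  obtain ⟨h1, h2⟩ := app_coef n
  rw [mem_E_iff] at hx
  have h3 := phi_star hx.1 hx.2 h1 h2
  have h4 : ‖app n x‖ < 1 := by
    unfold app
    rw [norm_mul, norm_real, Real.norm_of_nonneg h1]
    nlinarith [norm_nonneg x]
  refine ⟨mem_E_iff.2 ⟨h4.le, h3.le⟩, fun h => ?_⟩
  rw [corner_norm h] at h4
  exact lt_irrefl _ h4

lemma app_tendsto (x : ℂ) : Tendsto (fun n => app n x) atTop (𝓝 x) := by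
  unfold app
  have h : Tendsto (fun n : ℕ => 1 - 1 / ((n : ℝ) + 1)) atTop (𝓝 (1 - 0)) :=
    tendsto_const_nhds.sub tendsto_one_div_add_atTop_nhds_zero_nat
  rw [sub_zero] at h
  have := ((continuous_ofReal.tendsto _).comp h).mul_const x
  simpa using this

lemma app_Ga {x : ℂ} (hx : x ∈ E) : Tendsto (fun n => Ga (app n x)) atTop (𝓝 (Ga x)) :=
  ((continuousOn_Ga x hx).tendsto).comp (tendsto_nhdsWithin_iff.2 ⟨app_tendsto x,
    Eventually.of_forall fun n => (app_mem hx n).1⟩)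

lemma app_sub_le (n : ℕ) (x y : ℂ) : ‖app n x - app n y‖ ≤ ‖x - y‖ := by
  obtain ⟨h1, h2⟩ := app_coef n
  unfold app
  rw [← mul_sub, norm_mul, norm_real, Real.norm_of_nonneg h1]
  nlinarith [norm_nonneg (x - y)]

lemma Ga_lip {x y : ℂ} (hx : x ∈ E) (hy : y ∈ E) : ‖Ga x - Ga y‖ ≤ 6 / 7 * ‖x - y‖ :=
  le_of_tendsto_of_tendsto ((app_Ga hx).sub (app_Ga hy)).norm
    (((app_tendsto x).sub (app_tendsto y)).norm.const_mul _)
    (Eventually.of_forall fun n => Ga_lip' (app_mem hx n) (app_mem hy n))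

lemma Ga_expand {x y : ℂ} (hx : x ∈ E) (hy : y ∈ E) : ‖x - y‖ ≤ 25 * ‖Ga x - Ga y‖ :=
  le_of_tendsto_of_tendsto ((app_tendsto x).sub (app_tendsto y)).norm
    (((app_Ga hx).sub (app_Ga hy)).norm.const_mul _)
    (Eventually.of_forall fun n => Ga_expand' (app_mem hx n) (app_mem hy n))

lemma Ga_ratio {x y x' y' : ℂ} {ε : ℝ} (hx : x ∈ E) (hy : y ∈ E) (hx' : x' ∈ E)
    (hy' : y' ∈ E) (h1 : ‖x - x'‖ ≤ ε) (h2 : ‖y - x'‖ ≤ ε) (h3 : ‖y' - x'‖ ≤ ε) :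
    ‖Ga x - Ga y‖ * ‖x' - y'‖ ≤ (1 + 7500 * ε) * (‖Ga x' - Ga y'‖ * ‖x - y‖) :=
  le_of_tendsto_of_tendsto
    (((app_Ga hx).sub (app_Ga hy)).norm.mul ((app_tendsto x').sub (app_tendsto y')).norm)
    ((((app_Ga hx').sub (app_Ga hy')).norm.mul ((app_tendsto x).sub (app_tendsto y)).norm).const_mul
      _)
    (Eventually.of_forall fun n => Ga_ratio' (app_mem hx n) (app_mem hy n) (app_mem hx' n)
      (app_mem hy' n) ((app_sub_le n _ _).trans h1) ((app_sub_le n _ _).trans h2)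
      ((app_sub_le n _ _).trans h3))

end Pool.Agent.W5h43.SG
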