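import Mathlib

set_option autoImplicit false

/-!
# Abstract gaskets
-/

namespace Pool.Agent.W5h43.SG

open Set Topology Filter

/-- compositions along words -/
def Wd {X : Type} (A : Fin 3 → X → X) : List (Fin 3) → X → X
  | [], x => x
  | i :: u, x => A i (Wd A u x)

lemma Wd_append {X : Type} (A : Fin 3 → X → X) (u w : List (Fin 3)) (x : X) :
    Wd A (u ++ w) x = Wd A u (Wd A w x) := by
  induction u with
  | nil => rfl
  | cons i u ih => simp only [List.cons_append, Wd, ih]

/-- a self-similar gasket with bounded distortion -/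
structure Gasket {X : Type} [MetricSpace X] (A : Fin 3 → X → X) (v : Fin 3 → X) (K : Set X)
    (lam mu M c d : ℝ) : Prop where
  compact : IsCompact K
  mem : ∀ i, v i ∈ K
  maps : ∀ i, ∀ x ∈ K, A i x ∈ K
  cover : ∀ x ∈ K, ∃ i, ∃ y ∈ K, A i y = x
  corner : ∀ i, A i (v (i + i)) = v i
  junction : ∀ i j, i ≠ j → A i (v (i + j)) = A j (v (i + j))
  lam0 : 0 < lam
  lam1 : lam < 1
  mu0 : 0 < mu
  M0 : 1 ≤ M
  c0 : 0 < c
  d0 : 0 < d
  sep : ∀ i j, i ≠ j → d ≤ dist (v i) (v j)
  lip : ∀ i, ∀ x ∈ K, ∀ y ∈ K, dist (A i x) (A i y) ≤ lam * dist x y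
  exp : ∀ i, ∀ x ∈ K, ∀ y ∈ K, mu * dist x y ≤ dist (A i x) (A i y)
  dst : ∀ u, ∀ x ∈ K, ∀ y ∈ K, ∀ x' ∈ K, ∀ y' ∈ K,
    dist (Wd A u x) (Wd A u y) * dist x' y' ≤ M * (dist (Wd A u x') (Wd A u y') * dist x y)
  trans : ∀ i j, i ≠ j → ∀ x ∈ K, ∀ y ∈ K,
    c * (dist x (v (i + j)) + dist y (v (i + j))) ≤ dist (A i x) (A j y)

/-! ## Codes -/

/-- shift -/
def sh (m : ℕ) (s : ℕ → Fin 3) : ℕ → Fin 3 := fun k => s (m + k)

/-- prefix -/
def pre : ℕ → (ℕ → Fin 3) → List (Fin 3)
  | 0, _ => []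
  | n + 1, s => s 0 :: pre n (sh 1 s)

lemma sh_sh (m n : ℕ) (s : ℕ → Fin 3) : sh n (sh m s) = sh (m + n) s := by
  funext k; simp only [sh]; congr 1; omega

lemma sh_zero (s : ℕ → Fin 3) : sh 0 s = s := by funext k; simp [sh]

lemma pre_add (m n : ℕ) (s : ℕ → Fin 3) : pre (m + n) s = pre m s ++ pre n (sh m s) := by
  induction m generalizing s with
  | zero => rw [Nat.zero_add, sh_zero]; rfl
  | succ m ih =>
    have : m + 1 + n = (m + n) + 1 := by omega
    rw [this]
    simp only [pre, List.cons_append]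
    rw [ih, sh_sh, Nat.add_comm 1 m]

lemma pre_succ (m : ℕ) (s : ℕ → Fin 3) : pre (m + 1) s = pre m s ++ [s m] := by
  rw [pre_add]; rfl

lemma pre_length (n : ℕ) (s : ℕ → Fin 3) : (pre n s).length = n := by
  induction n generalizing s with
  | zero => rfl
  | succ n ih => simp only [pre, List.length_cons, ih]

lemma pre_congr {n : ℕ} {s t : ℕ → Fin 3} (h : ∀ k < n, s k = t k) : pre n s = pre n t := by
  induction n generalizing s t with
  | zero => rfl
  | succ n ih =>
    simp only [pre]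
    rw [h 0 (by omega), ih (s := sh 1 s) (t := sh 1 t) fun k hk => h (1 + k) (by omega)]

/-- the code of a corner -/
def kap (p : Fin 3) : ℕ → Fin 3
  | 0 => p
  | k + 1 => kap (p + p) k

lemma kap_add (p : Fin 3) (m k : ℕ) : kap p (m + k) = kap (kap p m) k := by
  induction m generalizing p with
  | zero => rw [Nat.zero_add]; rfl
  | succ m ih =>
    have : m + 1 + k = (m + k) + 1 := by omega
    rw [this]
    simp only [kap]
    exact ih _

lemma sh_kap (p : Fin 3) (m : ℕ) : sh m (kap p) = kap (kap p m) := by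
  funext k; exact kap_add p m k

section
variable {X : Type} [MetricSpace X] {A : Fin 3 → X → X} {v : Fin 3 → X} {K : Set X}
  {lam mu M c d : ℝ} (H : Gasket A v K lam mu M c d)
include H

lemma Gasket.wmem (u : List (Fin 3)) {x : X} (hx : x ∈ K) : Wd A u x ∈ K := by
  induction u with
  | nil => exact hx
  | cons i u ih => exact H.maps i _ ih

lemma Gasket.wlip (u : List (Fin 3)) {x y : X} (hx : x ∈ K) (hy : y ∈ K) :
    dist (Wd A u x) (Wd A u y) ≤ lam ^ u.length * dist x y := by
  induction u with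
  | nil => simp [Wd]
  | cons i u ih =>
    simp only [Wd, List.length_cons]
    refine (H.lip i _ (H.wmem u hx) _ (H.wmem u hy)).trans ?_
    rw [pow_succ]
    have := mul_le_mul_of_nonneg_left ih H.lam0.le
    linarith

lemma Gasket.wexp (u : List (Fin 3)) {x y : X} (hx : x ∈ K) (hy : y ∈ K) :
    mu ^ u.length * dist x y ≤ dist (Wd A u x) (Wd A u y) := by
  induction u with
  | nil => simp [Wd]
  | cons i u ih =>
    simp only [Wd, List.length_cons]
    refine le_trans ?_ (H.exp i _ (H.wmem u hx) _ (H.wmem u hy))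
    rw [pow_succ]
    have := mul_le_mul_of_nonneg_left ih H.mu0.le
    linarith

lemma Gasket.v_kap (p : Fin 3) (n : ℕ) : Wd A (pre n (kap p)) (v (kap p n)) = v p := by
  induction n generalizing p with
  | zero => rfl
  | succ n ih =>
    have e : sh 1 (kap p) = kap (p + p) := sh_kap p 1
    simp only [pre, Wd]
    rw [e]
    change A p (Wd A (pre n (kap (p + p))) (v (kap (p + p) n))) = v p
    rw [ih, H.corner]

/-- the scale of a word -/
noncomputable def rr (A : Fin 3 → X → X) (v : Fin 3 → X) (u : List (Fin 3)) : ℝ :=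
  dist (Wd A u (v 0)) (Wd A u (v 1))

omit H in
lemma rr_nil : rr A v [] = dist (v 0) (v 1) := rfl

lemma Gasket.del : 0 < dist (v 0) (v 1) := lt_of_lt_of_le H.d0 (H.sep 0 1 (by decide))

lemma Gasket.rr_le (u : List (Fin 3)) : rr A v u ≤ lam ^ u.length * dist (v 0) (v 1) :=
  H.wlip u (H.mem 0) (H.mem 1)

lemma Gasket.le_rr (u : List (Fin 3)) : mu ^ u.length * dist (v 0) (v 1) ≤ rr A v u :=
  H.wexp u (H.mem 0) (H.mem 1)

lemma Gasket.rr_pos (u : List (Fin 3)) : 0 < rr A v u :=
  lt_of_lt_of_le (mul_pos (pow_pos H.mu0 _) H.del) (H.le_rr u)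

lemma Gasket.da (u : List (Fin 3)) {x y : X} (hx : x ∈ K) (hy : y ∈ K) :
    dist (Wd A u x) (Wd A u y) * dist (v 0) (v 1) ≤ M * (rr A v u * dist x y) :=
  H.dst u x hx y hy _ (H.mem 0) _ (H.mem 1)

lemma Gasket.db (u : List (Fin 3)) {x y : X} (hx : x ∈ K) (hy : y ∈ K) :
    rr A v u * dist x y ≤ M * (dist (Wd A u x) (Wd A u y) * dist (v 0) (v 1)) :=
  H.dst u _ (H.mem 0) _ (H.mem 1) x hx y hy

lemma Gasket.rr_append_le (u w : List (Fin 3)) :
    rr A v (u ++ w) * dist (v 0) (v 1) ≤ M * (rr A v u * rr A v w) := by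
  have := H.da u (H.wmem w (H.mem 0)) (H.wmem w (H.mem 1))
  unfold rr at *
  rw [Wd_append, Wd_append]
  exact this

lemma Gasket.le_rr_append (u w : List (Fin 3)) :
    rr A v u * rr A v w ≤ M * (rr A v (u ++ w) * dist (v 0) (v 1)) := by
  have := H.db u (H.wmem w (H.mem 0)) (H.wmem w (H.mem 1))
  unfold rr at *
  rw [Wd_append, Wd_append]
  exact this

lemma Gasket.rr_append_le' (u w : List (Fin 3)) :
    rr A v (u ++ w) ≤ M * lam ^ w.length * rr A v u := by
  have h1 := H.rr_append_le u w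
  have h2 := H.rr_le w
  have h3 := H.del
  have h4 := (H.rr_pos u).le
  have h5 : 0 ≤ M := by linarith [H.M0]
  have h6 : M * (rr A v u * rr A v w) ≤ M * (rr A v u * (lam ^ w.length * dist (v 0) (v 1))) := by
    gcongr
  have h7 : rr A v (u ++ w) * dist (v 0) (v 1) ≤
      (M * lam ^ w.length * rr A v u) * dist (v 0) (v 1) := by
    refine h1.trans (h6.trans (le_of_eq (by ring)))
  exact le_of_mul_le_mul_right h7 h3

lemma Gasket.le_rr_append' (u w : List (Fin 3)) :
    mu ^ w.length * rr A v u ≤ M * rr A v (u ++ w) := by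
  have h1 := H.le_rr_append u w
  have h2 := H.le_rr w
  have h3 := H.del
  have h4 := (H.rr_pos u).le
  have h6 : rr A v u * (mu ^ w.length * dist (v 0) (v 1)) ≤ rr A v u * rr A v w := by gcongr
  have h7 : (mu ^ w.length * rr A v u) * dist (v 0) (v 1) ≤
      (M * rr A v (u ++ w)) * dist (v 0) (v 1) := by
    refine le_trans (le_of_eq (by ring)) (h6.trans (h1.trans (le_of_eq (by ring))))
  exact le_of_mul_le_mul_right h7 h3

/-! ## The coding map -/

omit H in
/-- `x` is the point with the code `s` -/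
def IsPt (A : Fin 3 → X → X) (K : Set X) (s : ℕ → Fin 3) (x : X) : Prop :=
  ∀ n, ∃ y ∈ K, Wd A (pre n s) y = x

lemma Gasket.bdd : ∃ D : ℝ, 0 < D ∧ ∀ x ∈ K, ∀ y ∈ K, dist x y ≤ D := by
  obtain ⟨D, hD⟩ := (Metric.isBounded_iff.1 H.compact.isBounded)
  exact ⟨max D 1, by positivity, fun x hx y hy => (hD hx hy).trans (le_max_left _ _)⟩

lemma Gasket.isPt_unique {s : ℕ → Fin 3} {x y : X} (hx : IsPt A K s x) (hy : IsPt A K s y) :
    x = y := by
  obtain ⟨D, hD0, hD⟩ := H.bdd
  have h : ∀ n : ℕ, dist x y ≤ lam ^ n * D := by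
    intro n
    obtain ⟨a, ha, rfl⟩ := hx n
    obtain ⟨b, hb, rfl⟩ := hy n
    refine (H.wlip _ ha hb).trans ?_
    rw [pre_length]
    have : 0 ≤ lam ^ n := pow_nonneg H.lam0.le n
    nlinarith [hD a ha b hb]
  have h2 : Tendsto (fun n : ℕ => lam ^ n * D) atTop (𝓝 (0 * D)) :=
    (tendsto_pow_atTop_nhds_zero_of_lt_one H.lam0.le H.lam1).mul_const D
  rw [zero_mul] at h2
  have h3 := ge_of_tendsto' h2 h
  exact dist_le_zero.1 h3

lemma Gasket.exists_isPt (s : ℕ → Fin 3) : ∃ x, IsPt A K s x := by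
  have hc : ∀ u, ContinuousOn (Wd A u) K := by
    intro u
    refine (LipschitzOnWith.of_dist_le_mul (K := ⟨lam ^ u.length, pow_nonneg H.lam0.le _⟩)
      fun x hx y hy => H.wlip u hx hy).continuousOn
  have hn : (⋂ n, Wd A (pre n s) '' K).Nonempty := by
    refine IsCompact.nonempty_iInter_of_sequence_nonempty_isCompact_isClosed _ (fun n => ?_)
      (fun n => ⟨_, mem_image_of_mem _ (H.mem 0)⟩) (H.compact.image_of_continuousOn (hc _))
      (fun n => (H.compact.image_of_continuousOn (hc _)).isClosed)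
    rintro _ ⟨y, hy, rfl⟩
    refine ⟨A (s n) y, H.maps _ _ hy, ?_⟩
    rw [pre_succ, Wd_append]
    rfl
  obtain ⟨x, hx⟩ := hn
  exact ⟨x, fun n => by simpa using mem_iInter.1 hx n⟩

omit H in
open Classical in
/-- the point with the code `s` -/
noncomputable def pt [Nonempty X] (A : Fin 3 → X → X) (K : Set X) (s : ℕ → Fin 3) : X :=
  if h : ∃ x, IsPt A K s x then h.choose else Classical.arbitrary X

lemma Gasket.pt_spec [Nonempty X] (s : ℕ → Fin 3) : IsPt A K s (pt A K s) := by
  have h := H.exists_isPt s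
  unfold pt
  rw [dif_pos h]
  exact h.choose_spec

lemma Gasket.pt_eq [Nonempty X] {s : ℕ → Fin 3} {x : X} (h : IsPt A K s x) : pt A K s = x :=
  H.isPt_unique (H.pt_spec s) h

lemma Gasket.pt_mem [Nonempty X] (s : ℕ → Fin 3) : pt A K s ∈ K := by
  obtain ⟨y, hy, h⟩ := H.pt_spec s 0
  rw [← h]; exact hy

lemma Gasket.pt_shift [Nonempty X] (m : ℕ) (s : ℕ → Fin 3) :
    pt A K s = Wd A (pre m s) (pt A K (sh m s)) := by
  refine H.pt_eq fun n => ?_
  obtain ⟨y, hy, h⟩ := H.pt_spec (sh m s) n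
  have e : Wd A (pre m s) (pt A K (sh m s)) = Wd A (pre (m + n) s) y := by
    rw [pre_add, Wd_append, h]
  have e2 : pre (m + n) s = pre n s ++ pre m (sh n s) := by rw [Nat.add_comm, pre_add]
  refine ⟨Wd A (pre m (sh n s)) y, H.wmem _ hy, ?_⟩
  rw [e, e2, Wd_append]

lemma Gasket.pt_kap [Nonempty X] (p : Fin 3) : pt A K (kap p) = v p :=
  H.pt_eq fun n => ⟨_, H.mem _, H.v_kap p n⟩

lemma Gasket.exists_code [Nonempty X] {x : X} (hx : x ∈ K) : ∃ s, pt A K s = x := by
  choose! f g hg hfg using H.cover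
  let seq : ℕ → X := fun n => g^[n] x
  have hseq : ∀ n, seq n ∈ K := by
    intro n
    induction n with
    | zero => exact hx
    | succ n ih =>
      simp only [seq, Function.iterate_succ_apply'] at *
      exact hg _ ih
  refine ⟨fun n => f (seq n), H.pt_eq fun n => ⟨seq n, hseq n, ?_⟩⟩
  induction n with
  | zero => rfl
  | succ n ih =>
    rw [pre_succ, Wd_append]
    simp only [Wd]
    have : A (f (seq n)) (seq (n + 1)) = seq n := by
      have := hfg _ (hseq n)
      simp only [seq, Function.iterate_succ_apply'] at *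
      exact this
    rw [this, ih]

/-! ## The distance in terms of codes -/

omit H in
/-- the codes `s` and `t` are near up to level `n` -/
def Near (n : ℕ) (s t : ℕ → Fin 3) : Prop :=
  ∀ m < n, s m ≠ t m → (∀ k < m, s k = t k) → ∀ k, m + 1 + k < n →
    s (m + 1 + k) = kap (s m + t m) k ∧ t (m + 1 + k) = kap (s m + t m) k

omit H in
lemma Near.mono {n n' : ℕ} (h : n' ≤ n) {s t : ℕ → Fin 3} (hn : Near n s t) : Near n' s t :=
  fun m hm h1 h2 k hk => hn m (by omega) h1 h2 k (by omega)

lemma Gasket.upper [Nonempty X] {D : ℝ} (hD : ∀ x ∈ K, ∀ y ∈ K, dist x y ≤ D) (hD0 : 0 < D)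
    {n : ℕ} {s t : ℕ → Fin 3} (h : Near n s t) :
    dist (pt A K s) (pt A K t) * dist (v 0) (v 1) ≤ 2 * D * M ^ 5 / mu * rr A v (pre n s) := by
  have hM := H.M0
  have hmu := H.mu0
  have hdel := H.del
  have hmu1 : mu ≤ 1 := by
    have h1 := H.exp 0 _ (H.mem 0) _ (H.mem 1)
    have h2 := H.lip 0 _ (H.mem 0) _ (H.mem 1)
    have h3 := h1.trans h2
    have := le_of_mul_le_mul_right h3 hdel
    linarith [H.lam1]
  by_cases hall : ∀ k < n, s k = t k
  · rw [H.pt_shift n s, H.pt_shift n t, ← pre_congr hall]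
    refine (H.da _ (H.pt_mem _) (H.pt_mem _)).trans ?_
    have h1 := hD _ (H.pt_mem (sh n s)) _ (H.pt_mem (sh n t))
    have h2 := (H.rr_pos (pre n s)).le
    have h3 : M * (rr A v (pre n s) * dist (pt A K (sh n s)) (pt A K (sh n t))) ≤
        M * (rr A v (pre n s) * D) := by gcongr
    refine h3.trans ?_
    rw [div_mul_eq_mul_div, le_div_iff₀ hmu]
    have h4 : M ≤ M ^ 5 := le_self_pow₀ hM (by norm_num)
    have h5 : 0 ≤ rr A v (pre n s) * D := by positivity
    nlinarith [mul_le_mul_of_nonneg_right h4 h5, mul_le_mul_of_nonneg_left hmu1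
      (mul_nonneg (by linarith : 0 ≤ M) h5), mul_nonneg (by positivity : 0 ≤ M ^ 5) h5]
  · -- first difference
    classical
    have hex : ∃ m, m < n ∧ s m ≠ t m := by push Not at hall; exact hall
    set m := Nat.find hex with hm
    obtain ⟨hmn, hne⟩ := Nat.find_spec hex
    have hlt : ∀ k < m, s k = t k := by
      intro k hk
      by_contra hc
      exact Nat.find_min hex hk ⟨by omega, hc⟩
    have hag := h m hmn hne hlt
    set p := s m + t m with hp
    obtain ⟨l, hl⟩ : ∃ l, n = m + 1 + l := ⟨n - (m + 1), by omega⟩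
    have hs' : pre l (sh (m + 1) s) = pre l (kap p) :=
      pre_congr fun k hk => (hag k (by omega)).1
    have ht' : pre l (sh (m + 1) t) = pre l (kap p) :=
      pre_congr fun k hk => (hag k (by omega)).2
    have hps : pre n s = (pre m s ++ [s m]) ++ pre l (kap p) := by
      rw [hl, pre_add, hs', pre_succ]
    have hpt : pre n t = (pre m s ++ [t m]) ++ pre l (kap p) := by
      rw [hl, pre_add, ht', pre_succ, pre_congr hlt]
    have J : Wd A (pre n s) (v (kap p l)) = Wd A (pre n t) (v (kap p l)) := by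
      rw [hps, hpt, Wd_append, Wd_append (A := A) (pre m s ++ [t m]), H.v_kap, Wd_append,
        Wd_append (A := A) (pre m s)]
      simp only [Wd]
      rw [hp, H.junction _ _ hne]
    have d1 : dist (pt A K s) (Wd A (pre n s) (v (kap p l))) * dist (v 0) (v 1) ≤
        M * (rr A v (pre n s) * D) := by
      rw [H.pt_shift n s]
      refine (H.da _ (H.pt_mem _) (H.mem _)).trans ?_
      have h1 := hD _ (H.pt_mem (sh n s)) _ (H.mem (kap p l))
      have h2 := (H.rr_pos (pre n s)).le
      gcongr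
    have d2 : dist (pt A K t) (Wd A (pre n t) (v (kap p l))) * dist (v 0) (v 1) ≤
        M * (rr A v (pre n t) * D) := by
      rw [H.pt_shift n t]
      refine (H.da _ (H.pt_mem _) (H.mem _)).trans ?_
      have h1 := hD _ (H.pt_mem (sh n t)) _ (H.mem (kap p l))
      have h2 := (H.rr_pos (pre n t)).le
      gcongr
    -- comparison of the scales
    have hcmp : rr A v (pre n t) * mu ≤ M ^ 4 * rr A v (pre n s) := by
      have a1 := H.rr_append_le (pre m s ++ [t m]) (pre l (kap p))
      have a2 := H.le_rr_append (pre m s ++ [s m]) (pre l (kap p))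
      rw [← hpt] at a1
      rw [← hps] at a2
      have a3 := H.rr_append_le' (pre m s) [t m]
      have a4 := H.le_rr_append' (pre m s) [s m]
      simp only [List.length_singleton, pow_one] at a3 a4
      have p1 := H.rr_pos (pre m s)
      have p2 := H.rr_pos (pre l (kap p))
      have p3 := H.rr_pos (pre m s ++ [s m])
      have p4 := H.rr_pos (pre m s ++ [t m])
      have p5 := H.rr_pos (pre n s)
      have a5 : rr A v (pre m s ++ [t m]) ≤ M * rr A v (pre m s) := by
        refine a3.trans ?_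
        have : M * lam ≤ M := by nlinarith [H.lam1]
        gcongr
      have a6 : rr A v (pre n t) * mu * dist (v 0) (v 1) ≤
          (M ^ 4 * rr A v (pre n s)) * dist (v 0) (v 1) := by
        calc rr A v (pre n t) * mu * dist (v 0) (v 1)
            = mu * (rr A v (pre n t) * dist (v 0) (v 1)) := by ring
          _ ≤ mu * (M * (rr A v (pre m s ++ [t m]) * rr A v (pre l (kap p)))) := by gcongr
          _ ≤ mu * (M * (M * rr A v (pre m s) * rr A v (pre l (kap p)))) := by gcongr
          _ = M ^ 2 * ((mu * rr A v (pre m s)) * rr A v (pre l (kap p))) := by ring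
          _ ≤ M ^ 2 * ((M * rr A v (pre m s ++ [s m])) * rr A v (pre l (kap p))) := by gcongr
          _ = M ^ 3 * (rr A v (pre m s ++ [s m]) * rr A v (pre l (kap p))) := by ring
          _ ≤ M ^ 3 * (M * (rr A v (pre n s) * dist (v 0) (v 1))) := by gcongr
          _ = (M ^ 4 * rr A v (pre n s)) * dist (v 0) (v 1) := by ring
      exact le_of_mul_le_mul_right a6 hdel
    have htri : dist (pt A K s) (pt A K t) ≤ dist (pt A K s) (Wd A (pre n s) (v (kap p l))) +
        dist (pt A K t) (Wd A (pre n t) (v (kap p l))) := by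
      rw [← J]
      exact dist_triangle_right _ _ _
    have p5 := (H.rr_pos (pre n s)).le
    have hd1 : 0 ≤ dist (v 0) (v 1) := hdel.le
    rw [div_mul_eq_mul_div, le_div_iff₀ hmu]
    have f1 : dist (pt A K s) (pt A K t) * dist (v 0) (v 1) ≤
        M * (rr A v (pre n s) * D) + M * (rr A v (pre n t) * D) := by
      have := mul_le_mul_of_nonneg_right htri hd1
      linarith
    have f2 : M * (rr A v (pre n s) * D) * mu ≤ M ^ 5 * (rr A v (pre n s) * D) := by
      have h4 : M ≤ M ^ 5 := le_self_pow₀ hM (by norm_num)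
      calc M * (rr A v (pre n s) * D) * mu ≤ M * (rr A v (pre n s) * D) * 1 := by gcongr
        _ = M * (rr A v (pre n s) * D) := mul_one _
        _ ≤ M ^ 5 * (rr A v (pre n s) * D) := by gcongr
    have f3 : M * (rr A v (pre n t) * D) * mu ≤ M ^ 5 * (rr A v (pre n s) * D) := by
      calc M * (rr A v (pre n t) * D) * mu = M * D * (rr A v (pre n t) * mu) := by ring
        _ ≤ M * D * (M ^ 4 * rr A v (pre n s)) := by gcongr
        _ = M ^ 5 * (rr A v (pre n s) * D) := by ring
    have f4 := mul_le_mul_of_nonneg_right f1 hmu.le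
    calc _ ≤ (M * (rr A v (pre n s) * D) + M * (rr A v (pre n t) * D)) * mu := f4
      _ ≤ M ^ 5 * (rr A v (pre n s) * D) + M ^ 5 * (rr A v (pre n s) * D) := by linarith
      _ = 2 * D * M ^ 5 * rr A v (pre n s) := by ring

omit H in
lemma fin3_ne : ∀ a q : Fin 3, a ≠ q → q + q ≠ a + q := by decide

/-- a point of a cell at the corner is far from the corner unless it is in the corner cell -/
lemma Gasket.far {a q : Fin 3} (h : a ≠ q) {x : X} (hx : x ∈ K) : c * d ≤ dist (A a x) (v q) := by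
  have h1 := H.trans a q h x hx _ (H.mem (q + q))
  rw [H.corner] at h1
  have h2 : q + q ≠ a + q := fin3_ne a q h
  have h3 := H.sep _ _ h2
  have h4 : c * d ≤ c * (dist x (v (a + q)) + dist (v (q + q)) (v (a + q))) := by
    apply mul_le_mul_of_nonneg_left _ H.c0.le
    linarith [dist_nonneg (x := x) (y := v (a + q))]
  exact h4.trans h1

lemma Gasket.far_corner [Nonempty X] {s : ℕ → Fin 3} {p : Fin 3} {l : ℕ}
    (h1 : ∀ k < l, s k = kap p k) (h2 : s l ≠ kap p l) :
    rr A v (pre l (kap p)) * (c * d) ≤ M * (dist (pt A K s) (v p) * dist (v 0) (v 1)) := by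
  have e1 : pre l s = pre l (kap p) := pre_congr h1
  have e2 : pt A K s = Wd A (pre l (kap p)) (A (s l) (pt A K (sh (l + 1) s))) := by
    rw [H.pt_shift (l + 1) s, pre_succ, Wd_append, e1]; rfl
  have h3 := H.far h2 (H.pt_mem (sh (l + 1) s))
  have h4 := H.db (pre l (kap p)) (H.maps (s l) _ (H.pt_mem (sh (l + 1) s))) (H.mem (kap p l))
  rw [← e2, H.v_kap] at h4
  refine le_trans ?_ h4
  exact mul_le_mul_of_nonneg_left h3 (H.rr_pos _).le

lemma Gasket.lower [Nonempty X] {n : ℕ} {s t : ℕ → Fin 3} (h : ¬ Near n s t) :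
    rr A v (pre n s) * (c ^ 2 * d) ≤
      M ^ 4 * dist (v 0) (v 1) * dist (pt A K s) (pt A K t) := by
  classical
  have hM := H.M0
  have hdel := H.del
  have hc := H.c0
  have hd := H.d0
  unfold Near at h
  push Not at h
  obtain ⟨m, hmn, hne, hlt, hk⟩ := h
  set p := s m + t m with hp
  have hk' : ∃ k, m + 1 + k < n ∧ ¬ (s (m + 1 + k) = kap p k ∧ t (m + 1 + k) = kap p k) := by
    obtain ⟨k, hk1, hk2⟩ := hk
    exact ⟨k, hk1, fun hh => hk2 hh.1 hh.2⟩
  set l := Nat.find hk' with hl
  obtain ⟨hln, hlk⟩ := Nat.find_spec hk'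
  have hmin : ∀ k < l, s (m + 1 + k) = kap p k ∧ t (m + 1 + k) = kap p k := by
    intro k hk
    by_contra hcon
    exact Nat.find_min hk' hk ⟨by omega, hcon⟩
  -- the distance to the junction
  have key : rr A v (pre l (kap p)) * (c * d) ≤
      M * ((dist (pt A K (sh (m + 1) s)) (v p) + dist (pt A K (sh (m + 1) t)) (v p)) *
        dist (v 0) (v 1)) := by
    rcases not_and_or.1 hlk with h1 | h1
    · refine (H.far_corner (s := sh (m + 1) s) (fun k hk => (hmin k hk).1) h1).trans ?_
      have : 0 ≤ dist (pt A K (sh (m + 1) t)) (v p) := dist_nonneg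
      gcongr
      linarith
    · refine (H.far_corner (s := sh (m + 1) t) (fun k hk => (hmin k hk).2) h1).trans ?_
      have : 0 ≤ dist (pt A K (sh (m + 1) s)) (v p) := dist_nonneg
      gcongr
      linarith
  have htr := H.trans _ _ hne _ (H.pt_mem (sh (m + 1) s)) _ (H.pt_mem (sh (m + 1) t))
  rw [← hp] at htr
  have hdb := H.db (pre m s) (H.maps (s m) _ (H.pt_mem (sh (m + 1) s)))
    (H.maps (t m) _ (H.pt_mem (sh (m + 1) t)))
  have es : pt A K s = Wd A (pre m s) (A (s m) (pt A K (sh (m + 1) s))) := by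
    rw [H.pt_shift (m + 1) s, pre_succ, Wd_append]; rfl
  have et : pt A K t = Wd A (pre m s) (A (t m) (pt A K (sh (m + 1) t))) := by
    rw [H.pt_shift (m + 1) t, pre_succ, Wd_append, pre_congr hlt]; rfl
  rw [← es, ← et] at hdb
  -- the scale
  have hsc : rr A v (pre n s) * dist (v 0) (v 1) ≤
      M ^ 2 * (rr A v (pre m s) * rr A v (pre l (kap p))) := by
    obtain ⟨j, hj⟩ : ∃ j, n = (m + 1 + l) + j := ⟨n - (m + 1 + l), by omega⟩
    have a1 := H.rr_append_le' (pre (m + 1 + l) s) (pre j (sh (m + 1 + l) s))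
    rw [← pre_add, ← hj] at a1
    have a2 : pre (m + 1 + l) s = pre m s ++ (s m :: pre l (kap p)) := by
      rw [pre_add, pre_succ, pre_congr (s := sh (m + 1) s) (t := kap p) fun k hk => (hmin k hk).1,
        List.append_assoc]
      rfl
    have a3 := H.rr_append_le (pre m s) (s m :: pre l (kap p))
    rw [← a2] at a3
    have a4 : rr A v (s m :: pre l (kap p)) ≤ rr A v (pre l (kap p)) := by
      unfold rr
      simp only [Wd]
      refine (H.lip _ _ (H.wmem _ (H.mem 0)) _ (H.wmem _ (H.mem 1))).trans ?_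
      have := dist_nonneg (x := Wd A (pre l (kap p)) (v 0)) (y := Wd A (pre l (kap p)) (v 1))
      nlinarith [H.lam1]
    have a5 : M * lam ^ (pre j (sh (m + 1 + l) s)).length ≤ M := by
      have : lam ^ (pre j (sh (m + 1 + l) s)).length ≤ 1 := pow_le_one₀ H.lam0.le H.lam1.le
      nlinarith
    have p1 := (H.rr_pos (pre (m + 1 + l) s)).le
    have p2 := (H.rr_pos (pre m s)).le
    calc rr A v (pre n s) * dist (v 0) (v 1)
        ≤ (M * lam ^ (pre j (sh (m + 1 + l) s)).length * rr A v (pre (m + 1 + l) s)) *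
          dist (v 0) (v 1) := by gcongr
      _ ≤ (M * rr A v (pre (m + 1 + l) s)) * dist (v 0) (v 1) := by gcongr
      _ = M * (rr A v (pre (m + 1 + l) s) * dist (v 0) (v 1)) := by ring
      _ ≤ M * (M * (rr A v (pre m s) * rr A v (s m :: pre l (kap p)))) := by gcongr
      _ ≤ M * (M * (rr A v (pre m s) * rr A v (pre l (kap p)))) := by gcongr
      _ = M ^ 2 * (rr A v (pre m s) * rr A v (pre l (kap p))) := by ring
  have p2 := (H.rr_pos (pre m s)).le
  have hd1 : 0 ≤ dist (v 0) (v 1) := hdel.le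
  have hfin : (rr A v (pre n s) * (c ^ 2 * d)) * dist (v 0) (v 1) ≤
      (M ^ 4 * dist (v 0) (v 1) * dist (pt A K s) (pt A K t)) * dist (v 0) (v 1) := by
    calc (rr A v (pre n s) * (c ^ 2 * d)) * dist (v 0) (v 1)
        = (rr A v (pre n s) * dist (v 0) (v 1)) * (c ^ 2 * d) := by ring
      _ ≤ (M ^ 2 * (rr A v (pre m s) * rr A v (pre l (kap p)))) * (c ^ 2 * d) := by gcongr
      _ = M ^ 2 * rr A v (pre m s) * c * (rr A v (pre l (kap p)) * (c * d)) := by ring
      _ ≤ M ^ 2 * rr A v (pre m s) * c * (M * ((dist (pt A K (sh (m + 1) s)) (v p) +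
            dist (pt A K (sh (m + 1) t)) (v p)) * dist (v 0) (v 1))) := by gcongr
      _ = M ^ 3 * dist (v 0) (v 1) * (rr A v (pre m s) * (c * (dist (pt A K (sh (m + 1) s)) (v p) +
            dist (pt A K (sh (m + 1) t)) (v p)))) := by ring
      _ ≤ M ^ 3 * dist (v 0) (v 1) * (rr A v (pre m s) * dist (A (s m) (pt A K (sh (m + 1) s)))
            (A (t m) (pt A K (sh (m + 1) t)))) := by gcongr
      _ ≤ M ^ 3 * dist (v 0) (v 1) * (M * (dist (pt A K s) (pt A K t) * dist (v 0) (v 1))) := by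
          gcongr
      _ = (M ^ 4 * dist (v 0) (v 1) * dist (pt A K s) (pt A K t)) * dist (v 0) (v 1) := by ring
  exact le_of_mul_le_mul_right hfin hdel

end

end Pool.Agent.W5h43.SG
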