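import Mathlib
import Pool.Agent.W5h43.SG.Gam3
import Pool.Agent.W5h43.SG.Gasket

set_option autoImplicit false

/-!
# The gasket `Lam`, the image of the Julia set under the chart `F`
-/

namespace Pool.Agent.W5h43.SG

open Set Topology Filter Complex

/-- the corners -/
noncomputable def pw (i : Fin 3) : ℂ := om ^ (i : ℕ)

lemma pw_zero : pw 0 = 1 := by simp [pw]
lemma pw_one : pw 1 = om := by simp [pw]
lemma pw_two : pw 2 = om ^ 2 := by simp [pw]

lemma pw_cube (i : Fin 3) : pw i ^ 3 = 1 := om_pow_cube _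
lemma pw_norm (i : Fin 3) : ‖pw i‖ = 1 := om_pow_norm _
lemma pw_ne (i : Fin 3) : pw i ≠ 0 := om_pow_ne _

lemma pw_mul (i j : Fin 3) : pw i * pw j = pw (i + j) := by
  fin_cases i <;> fin_cases j <;>
    simp only [Fin.zero_eta, Fin.mk_one, Fin.reduceFinMk, zero_add, add_zero, Fin.reduceAdd,
      pw_zero, pw_one, pw_two, one_mul, mul_one] <;>
    first
    | rfl
    | linear_combination om_cube
    | linear_combination om * om_cube
    | ring

lemma chi_pw (i : Fin 3) (z : ℂ) : chi (pw i * z) = pw i * chi z := by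
  unfold chi
  rw [mul_pow, pw_cube, one_mul]
  ring

lemma E_pw (i : Fin 3) {z : ℂ} (h : z ∈ E) : pw i * z ∈ E := by
  refine ⟨?_, ?_⟩
  · rw [norm_mul, pw_norm, one_mul]; exact h.1
  · rw [chi_pw, norm_mul, pw_norm, one_mul]; exact h.2

lemma F_pw (i : Fin 3) {w : ℂ} (h : ‖w‖ ≤ 1) : F (pw i * w) = pw i * F w := by
  have h1 : ‖pw i * w‖ ≤ 1 := by rw [norm_mul, pw_norm, one_mul]; exact h
  have h2 : pw i * F w ∈ E := E_pw i (F_mem h)
  refine chi_inj (F_norm h1) h2.1 ?_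
  rw [chi_F h1, chi_pw, chi_F h]

/-- the branches in the chart -/
noncomputable def Gam (i : Fin 3) (z : ℂ) : ℂ := pw i * Ga (pw i * z)

lemma Gam_mem (i : Fin 3) {z : ℂ} (h : z ∈ E) : Gam i z ∈ E := E_pw i (Ga_mem (E_pw i h))

lemma chi_Gam (i : Fin 3) {z : ℂ} (h : z ∈ E) : chi (Gam i z) = Gk i (chi z) := by
  unfold Gam
  rw [chi_pw, chi_Ga (E_pw i h), chi_pw]
  rfl

lemma fin3_aaa : ∀ i j : Fin 3, i + (i + (i + j)) = j := by decide

lemma Gk_pw (i j : Fin 3) : Gk i (pw (i + j)) = (pw i + pw j) / 2 := by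
  have h1 : Gk i (pw (i + j)) = pw i * G (pw i * pw (i + j)) := rfl
  rw [h1, pw_mul, G_corner (pw_cube _)]
  have h2 : pw i * pw (i + (i + j)) = pw j := by
    rw [pw_mul]
    rw [fin3_aaa]
  linear_combination (1 / 2) * h2

lemma Gk_norm (i : ℕ) {w : ℂ} (h : ‖w‖ ≤ 1) : ‖Gk i w‖ ≤ 1 := root_norm_le h (Gk_eq i w)

lemma mid_norm (i j : Fin 3) : ‖(pw i + pw j) / 2‖ ≤ 1 := by
  rw [← Gk_pw]; exact Gk_norm _ (pw_norm _).le

lemma Gam_pw (i j : Fin 3) : Gam i (pw (i + j)) = F ((pw i + pw j) / 2) := by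
  have h1 : pw (i + j) ∈ E := corner_mem (pw_cube _)
  refine chi_inj (Gam_mem i h1).1 (F_norm (mid_norm i j)) ?_
  rw [chi_Gam i h1, chi_corner (pw_cube _), Gk_pw, chi_F (mid_norm i j)]

lemma Gam_lip (i : Fin 3) {x y : ℂ} (hx : x ∈ E) (hy : y ∈ E) :
    ‖Gam i x - Gam i y‖ ≤ 6 / 7 * ‖x - y‖ := by
  unfold Gam
  rw [← mul_sub, norm_mul, pw_norm, one_mul]
  refine (Ga_lip (E_pw i hx) (E_pw i hy)).trans ?_
  rw [← mul_sub, norm_mul, pw_norm, one_mul]

lemma Gam_expand (i : Fin 3) {x y : ℂ} (hx : x ∈ E) (hy : y ∈ E) :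
    ‖x - y‖ ≤ 25 * ‖Gam i x - Gam i y‖ := by
  unfold Gam
  rw [← mul_sub, norm_mul, pw_norm, one_mul]
  have := Ga_expand (E_pw i hx) (E_pw i hy)
  rwa [← mul_sub, norm_mul, pw_norm, one_mul] at this

lemma Gam_ratio (i : Fin 3) {x y x' y' : ℂ} {ε : ℝ} (hx : x ∈ E) (hy : y ∈ E) (hx' : x' ∈ E)
    (hy' : y' ∈ E) (h1 : ‖x - x'‖ ≤ ε) (h2 : ‖y - x'‖ ≤ ε) (h3 : ‖y' - x'‖ ≤ ε) :
    ‖Gam i x - Gam i y‖ * ‖x' - y'‖ ≤
      (1 + 7500 * ε) * (‖Gam i x' - Gam i y'‖ * ‖x - y‖) := by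
  have key : ∀ a b : ℂ, ‖pw i * a - pw i * b‖ = ‖a - b‖ := by
    intro a b
    rw [← mul_sub, norm_mul, pw_norm, one_mul]
  have := Ga_ratio (E_pw i hx) (E_pw i hy) (E_pw i hx') (E_pw i hy') (ε := ε)
    (by rw [key]; exact h1) (by rw [key]; exact h2) (by rw [key]; exact h3)
  rw [key, key] at this
  unfold Gam
  rw [key, key]
  exact this

lemma fin3_cases : ∀ i j : Fin 3, i ≠ j → j = i + 1 ∨ i = j + 1 := by decide

lemma trans_Gk1 (i : Fin 3) {w w' : ℂ} (hw : ‖w‖ ≤ 1) (hw' : ‖w'‖ ≤ 1) :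
    ‖Gk i w - (pw i + pw (i + 1)) / 2‖ + ‖Gk (i + 1 : Fin 3) w' - (pw i + pw (i + 1)) / 2‖ ≤
      10 * ‖Gk i w - Gk (i + 1 : Fin 3) w'‖ := by
  have e1 : (pw i + pw (i + 1)) / 2 = pw i * cc := by
    rw [cc_eq, ← pw_mul, pw_one]; ring
  have e2 : Gk i w = pw i * G (pw i * w) := rfl
  have e3 : Gk (i + 1 : Fin 3) w' = pw i * (om * G (pw (i + 1) * w')) := by
    have : Gk (i + 1 : Fin 3) w' = pw (i + 1) * G (pw (i + 1) * w') := rfl
    rw [this, ← pw_mul, pw_one]; ring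
  rw [e1, e2, e3, ← mul_sub, ← mul_sub, ← mul_sub, norm_mul, norm_mul, norm_mul, pw_norm, one_mul,
    one_mul, one_mul]
  exact trans_w (by rw [norm_mul, pw_norm, one_mul]; exact hw)
    (by rw [norm_mul, pw_norm, one_mul]; exact hw')

lemma trans_Gk {i j : Fin 3} (hij : i ≠ j) {w w' : ℂ} (hw : ‖w‖ ≤ 1) (hw' : ‖w'‖ ≤ 1) :
    ‖Gk i w - (pw i + pw j) / 2‖ + ‖Gk j w' - (pw i + pw j) / 2‖ ≤ 10 * ‖Gk i w - Gk j w'‖ := by
  rcases fin3_cases i j hij with rfl | rfl
  · exact trans_Gk1 i hw hw'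
  · have := trans_Gk1 j hw' hw
    rw [norm_sub_rev (Gk j w')  (Gk _ w), add_comm (pw j)] at this
    linarith

lemma mid_norm_half {i j : Fin 3} (hij : i ≠ j) : ‖(pw i + pw j) / 2‖ = 1 / 2 := by
  have h3 : pw i + pw j = - pw (-(i + j)) := by
    have hom := om_rel
    revert hij
    fin_cases i <;> fin_cases j <;> intro hij <;>
      simp only [Fin.zero_eta, Fin.mk_one, Fin.reduceFinMk, ne_eq, not_true_eq_false] at hij <;>
      simp only [Fin.zero_eta, Fin.mk_one, Fin.reduceFinMk, zero_add, add_zero, Fin.reduceAdd,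
        show (-1 : Fin 3) = 2 from rfl, show (-2 : Fin 3) = 1 from rfl,
        show (-0 : Fin 3) = 0 from rfl, pw_zero, pw_one, pw_two] <;>
      linear_combination hom
  rw [h3, norm_div, norm_neg, pw_norm]
  norm_num

lemma junction_far {i j : Fin 3} (hij : i ≠ j) : 7 / 8 ≤ ‖1 - F ((pw i + pw j) / 2) ^ 3‖ := by
  set J := (pw i + pw j) / 2 with hJ
  have h1 := chi_F (mid_norm i j)
  rw [← hJ] at h1
  have h2 : ‖F J‖ ≤ 1 := F_norm (mid_norm i j)
  have h3 : ‖F J‖ ≤ 1 / 2 := by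
    have e1 : 3 * F J = J * (2 + F J ^ 3) := by
      unfold chi at h1
      rwa [div_eq_iff (den_ne h2)] at h1
    have e2 : 3 * ‖F J‖ = 1 / 2 * ‖2 + F J ^ 3‖ := by
      have := congrArg norm e1
      rw [norm_mul, norm_mul, mid_norm_half hij] at this
      simpa using this
    have e3 := den_le h2
    linarith
  have h4 : ‖F J ^ 3‖ ≤ 1 / 8 := by
    rw [norm_pow]
    calc ‖F J‖ ^ 3 ≤ (1 / 2) ^ 3 := by gcongr
      _ = 1 / 8 := by norm_num
  have h5 : ‖(1 : ℂ)‖ - ‖F J ^ 3‖ ≤ ‖1 - F J ^ 3‖ := norm_sub_norm_le _ _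
  rw [norm_one] at h5
  linarith

lemma trans_half {i j : Fin 3} (hij : i ≠ j) {x : ℂ} (hx : x ∈ E) :
    ‖x - pw (i + j)‖ ≤ 1100 * ‖Gk i (chi x) - (pw i + pw j) / 2‖ := by
  have hv : pw (i + j) ∈ E := corner_mem (pw_cube _)
  have h1 := Gam_expand i hx hv
  rw [Gam_pw] at h1
  have hJ := F_mem (mid_norm i j)
  have h2 := chi_lower hJ (Gam_mem i hx)
  rw [chi_F (mid_norm i j), chi_Gam i hx] at h2
  have h3 := junction_far hij
  set J := (pw i + pw j) / 2
  rw [norm_sub_rev (F J), norm_sub_rev J] at h2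
  have h4 : 0 ≤ ‖Gam i x - F J‖ := norm_nonneg _
  nlinarith

lemma Gam_trans {i j : Fin 3} (hij : i ≠ j) {x y : ℂ} (hx : x ∈ E) (hy : y ∈ E) :
    ‖x - pw (i + j)‖ + ‖y - pw (i + j)‖ ≤ 400000 * ‖Gam i x - Gam j y‖ := by
  have h1 := trans_half hij hx
  have h2 := trans_half hij.symm hy
  rw [add_comm j i, add_comm (pw j) (pw i)] at h2
  have h3 := trans_Gk hij hx.2 hy.2
  have h4 := chi_lip (Gam_mem i hx).1 (Gam_mem j hy).1
  rw [chi_Gam i hx, chi_Gam j hy] at h4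
  have h5 : 0 ≤ ‖Gam i x - Gam j y‖ := norm_nonneg _
  linarith

/-! ## Distortion of the compositions -/

lemma Wd_mem {u : List (Fin 3)} {x : ℂ} (hx : x ∈ E) : Wd Gam u x ∈ E := by
  induction u with
  | nil => exact hx
  | cons i u ih => exact Gam_mem i ih

lemma Wd_lip (u : List (Fin 3)) {x y : ℂ} (hx : x ∈ E) (hy : y ∈ E) :
    ‖Wd Gam u x - Wd Gam u y‖ ≤ (6 / 7) ^ u.length * ‖x - y‖ := by
  induction u with
  | nil => simp [Wd]
  | cons i u ih =>
    simp only [Wd, List.length_cons]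
    refine (Gam_lip i (Wd_mem hx) (Wd_mem hy)).trans ?_
    rw [pow_succ]
    linarith

lemma Wd_inj (u : List (Fin 3)) {x y : ℂ} (hx : x ∈ E) (hy : y ∈ E)
    (h : Wd Gam u x = Wd Gam u y) : x = y := by
  induction u with
  | nil => exact h
  | cons i u ih =>
    simp only [Wd] at h
    apply ih
    have := Gam_expand i (Wd_mem (u := u) hx) (Wd_mem (u := u) hy)
    rw [h, sub_self, norm_zero, mul_zero] at this
    exact sub_eq_zero.1 (norm_le_zero_iff.1 this)

lemma E_diam {x y : ℂ} (hx : x ∈ E) (hy : y ∈ E) : ‖x - y‖ ≤ 2 := by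
  have := norm_sub_le x y
  linarith [hx.1, hy.1]

lemma Wd_dist (u : List (Fin 3)) {x y x' y' : ℂ} (hx : x ∈ E) (hy : y ∈ E) (hx' : x' ∈ E)
    (hy' : y' ∈ E) : ‖Wd Gam u x - Wd Gam u y‖ * ‖x' - y'‖ ≤
      Real.exp (105000 * (1 - (6 / 7) ^ u.length)) *
        (‖Wd Gam u x' - Wd Gam u y'‖ * ‖x - y‖) := by
  induction u with
  | nil => simp only [Wd, List.length_nil, pow_zero, sub_self, mul_zero, Real.exp_zero, one_mul]
           rw [mul_comm]
  | cons i u ih =>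
    simp only [Wd, List.length_cons]
    set n := u.length with hn
    have hpos : (0 : ℝ) < (6 / 7) ^ n := by positivity
    have hb : ∀ a ∈ E, ∀ b ∈ E, ‖Wd Gam u a - Wd Gam u b‖ ≤ 2 * (6 / 7) ^ n := by
      intro a ha b hb
      refine (Wd_lip u ha hb).trans ?_
      nlinarith [E_diam ha hb]
    have h1 := Gam_ratio i (Wd_mem (u := u) hx) (Wd_mem (u := u) hy) (Wd_mem (u := u) hx')
      (Wd_mem (u := u) hy') (ε := 2 * (6 / 7) ^ n) (hb _ hx _ hx') (hb _ hy _ hx') (hb _ hy' _ hx')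
    set X := Wd Gam u x
    set Y := Wd Gam u y
    set X' := Wd Gam u x' with hX'
    set Y' := Wd Gam u y' with hY'
    rcases eq_or_ne x' y' with rfl | hne
    · rw [sub_self, norm_zero, mul_zero]; positivity
    have hp : 0 < ‖X' - Y'‖ := by
      rw [norm_pos_iff, sub_ne_zero]
      exact fun h => hne (Wd_inj u hx' hy' h)
    have he : (1 + 7500 * (2 * (6 / 7) ^ n)) * Real.exp (105000 * (1 - (6 / 7) ^ n)) ≤
        Real.exp (105000 * (1 - (6 / 7) ^ (n + 1))) := by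
      have e1 : 105000 * (1 - (6 / 7 : ℝ) ^ (n + 1)) =
          15000 * (6 / 7) ^ n + 105000 * (1 - (6 / 7) ^ n) := by
        rw [pow_succ]; ring
      rw [e1, Real.exp_add]
      have e2 := Real.add_one_le_exp (15000 * (6 / 7 : ℝ) ^ n)
      apply mul_le_mul_of_nonneg_right _ (Real.exp_pos _).le
      linarith
    have hA : 0 ≤ ‖Gam i X' - Gam i Y'‖ := norm_nonneg _
    have hc1 : 0 ≤ (1 + 7500 * (2 * (6 / 7 : ℝ) ^ n)) := by positivity
    have h2 : (‖Gam i X - Gam i Y‖ * ‖x' - y'‖) * ‖X' - Y'‖ ≤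
        (Real.exp (105000 * (1 - (6 / 7) ^ (n + 1))) *
          (‖Gam i X' - Gam i Y'‖ * ‖x - y‖)) * ‖X' - Y'‖ := by
      calc (‖Gam i X - Gam i Y‖ * ‖x' - y'‖) * ‖X' - Y'‖
          = (‖Gam i X - Gam i Y‖ * ‖X' - Y'‖) * ‖x' - y'‖ := by ring
        _ ≤ ((1 + 7500 * (2 * (6 / 7) ^ n)) * (‖Gam i X' - Gam i Y'‖ * ‖X - Y‖)) *
            ‖x' - y'‖ := by gcongr
        _ = (1 + 7500 * (2 * (6 / 7) ^ n)) * ‖Gam i X' - Gam i Y'‖ *
            (‖X - Y‖ * ‖x' - y'‖) := by ring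
        _ ≤ (1 + 7500 * (2 * (6 / 7) ^ n)) * ‖Gam i X' - Gam i Y'‖ *
            (Real.exp (105000 * (1 - (6 / 7) ^ n)) * (‖X' - Y'‖ * ‖x - y‖)) := by gcongr
        _ = ((1 + 7500 * (2 * (6 / 7) ^ n)) * Real.exp (105000 * (1 - (6 / 7) ^ n))) *
            (‖Gam i X' - Gam i Y'‖ * ‖x - y‖ * ‖X' - Y'‖) := by ring
        _ ≤ Real.exp (105000 * (1 - (6 / 7) ^ (n + 1))) *
            (‖Gam i X' - Gam i Y'‖ * ‖x - y‖ * ‖X' - Y'‖) := by gcongr
        _ = _ := by ring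
    exact le_of_mul_le_mul_right h2 hp

/-! ## The Julia set in the coordinate `w` -/

/-- the map in the coordinate `w` -/
noncomputable def gg (w : ℂ) : ℂ := (4 * w ^ 3 - 1) / (3 * w)

/-- the Julia set in the coordinate `w` -/
def Kw : Set ℂ := {w | ∀ n : ℕ, ‖gg^[n] w‖ ≤ 1 ∧ gg^[n] w ≠ 0}

lemma Kw_norm {w : ℂ} (h : w ∈ Kw) : ‖w‖ ≤ 1 := (h 0).1
lemma Kw_ne {w : ℂ} (h : w ∈ Kw) : w ≠ 0 := (h 0).2

lemma Kw_gg {w : ℂ} (h : w ∈ Kw) : gg w ∈ Kw := fun n => by
  have := h (n + 1)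
  rwa [Function.iterate_succ_apply] at this

lemma Kw_of {w : ℂ} (h1 : ‖w‖ ≤ 1) (h2 : w ≠ 0) (h3 : gg w ∈ Kw) : w ∈ Kw := by
  intro n
  cases n with
  | zero => exact ⟨h1, h2⟩
  | succ n => rw [Function.iterate_succ_apply]; exact h3 n

lemma gg_root {w x : ℂ} (h : 4 * x ^ 3 - 3 * w * x = 1) : gg x = w := by
  have hx := root_ne_zero h
  unfold gg
  rw [div_eq_iff (mul_ne_zero (by norm_num) hx)]
  linear_combination h

lemma gg_eq {x : ℂ} (hx : x ≠ 0) : 4 * x ^ 3 - 3 * gg x * x = 1 := by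
  unfold gg
  field_simp
  ring

lemma Kw_Gk (i : ℕ) {w : ℂ} (h : w ∈ Kw) : Gk i w ∈ Kw := by
  refine Kw_of (Gk_norm i (Kw_norm h)) (Gk_ne i w) ?_
  rw [gg_root (Gk_eq i w)]; exact h

lemma exists_Gk {x : ℂ} (hx : x ≠ 0) : ∃ i : Fin 3, x = Gk i (gg x) := by
  rcases roots (gg_eq hx) with h | h | h
  · exact ⟨0, h⟩
  · exact ⟨1, h⟩
  · exact ⟨2, h⟩

/-- the approximating compact sets -/
noncomputable def Kn : ℕ → Set ℂ
  | 0 => Metric.closedBall 0 1
  | n + 1 => ⋃ i : Fin 3, Gk i '' Kn n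

lemma Kn_sub (n : ℕ) : Kn n ⊆ Metric.closedBall 0 1 := by
  induction n with
  | zero => exact Subset.rfl
  | succ n ih =>
    intro x hx
    simp only [Kn, mem_iUnion, mem_image] at hx
    obtain ⟨i, y, hy, rfl⟩ := hx
    have := ih hy
    rw [mem_closedBall_zero_iff] at this ⊢
    exact Gk_norm i this

lemma continuousOn_Gk (i : ℕ) : ContinuousOn (Gk i) (Metric.closedBall 0 1) := by
  unfold Gk
  refine continuousOn_const.mul (continuousOn_G.comp (by fun_prop) ?_)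
  intro w hw
  rw [mem_closedBall_zero_iff] at hw ⊢
  rw [norm_mul, om_pow_norm, one_mul]; exact hw

lemma Kn_compact (n : ℕ) : IsCompact (Kn n) := by
  induction n with
  | zero => exact isCompact_closedBall _ _
  | succ n ih =>
    exact isCompact_iUnion fun i => ih.image_of_continuousOn ((continuousOn_Gk i).mono (Kn_sub n))

lemma Kw_eq : Kw = ⋂ n, Kn n := by
  apply Subset.antisymm
  · intro x hx
    rw [mem_iInter]
    intro n
    induction n generalizing x with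
    | zero => simp only [Kn]; rw [mem_closedBall_zero_iff]; exact Kw_norm hx
    | succ n ih =>
      simp only [Kn, mem_iUnion, mem_image]
      obtain ⟨i, hi⟩ := exists_Gk (Kw_ne hx)
      exact ⟨i, gg x, ih (Kw_gg hx), hi.symm⟩
  · intro x hx n
    have key : ∀ n : ℕ, gg^[n] x ∈ ⋂ n, Kn n := by
      intro n
      induction n with
      | zero => exact hx
      | succ n ih =>
        rw [Function.iterate_succ_apply']
        rw [mem_iInter] at ih ⊢
        intro m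
        have := ih (m + 1)
        simp only [Kn, mem_iUnion, mem_image] at this
        obtain ⟨i, y, hy, hxy⟩ := this
        rw [← hxy, gg_root (Gk_eq i y)]
        exact hy
    have h1 := key n
    rw [mem_iInter] at h1
    refine ⟨?_, ?_⟩
    · have := h1 0
      simp only [Kn] at this
      rwa [mem_closedBall_zero_iff] at this
    · have := h1 1
      simp only [Kn, mem_iUnion, mem_image] at this
      obtain ⟨i, y, hy, hxy⟩ := this
      rw [← hxy]
      exact Gk_ne i y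

lemma isCompact_Kw : IsCompact Kw := by
  rw [Kw_eq]
  exact (Kn_compact 0).of_isClosed_subset (isClosed_iInter fun n => (Kn_compact n).isClosed)
    (iInter_subset _ 0)

lemma corner_Kw (i : Fin 3) : pw i ∈ Kw := by
  have h : ∀ n : ℕ, gg^[n] (pw i) ^ 3 = 1 := by
    intro n
    induction n with
    | zero => exact pw_cube i
    | succ n ih =>
      rw [Function.iterate_succ_apply']
      set w := gg^[n] (pw i)
      have hw : w ≠ 0 := by
        intro h0
        rw [h0] at ih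
        norm_num at ih
      unfold gg
      rw [ih, div_pow, mul_pow, ih]
      norm_num
  intro n
  refine ⟨(corner_norm (h n)).le, ?_⟩
  intro h0
  have := h n
  rw [h0] at this
  norm_num at this

/-- the Julia set in the chart -/
def Lam : Set ℂ := {z | z ∈ E ∧ chi z ∈ Kw}

lemma Lam_eq : Lam = F '' Kw := by
  apply Subset.antisymm
  · intro z hz
    exact ⟨chi z, hz.2, F_chi hz.1⟩
  · rintro _ ⟨w, hw, rfl⟩
    exact ⟨F_mem (Kw_norm hw), by rw [chi_F (Kw_norm hw)]; exact hw⟩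

lemma pw_sep {i j : Fin 3} (hij : i ≠ j) : 1 ≤ ‖pw i - pw j‖ := by
  by_contra hc
  push Not at hc
  have h1 : ‖pw i + pw j‖ = 1 := by
    have := mid_norm_half hij
    rw [norm_div] at this
    norm_num at this
    linarith
  have h2 : ‖pw i + pw j‖ ^ 2 + ‖pw i - pw j‖ ^ 2 = 2 * (‖pw i‖ ^ 2 + ‖pw j‖ ^ 2) := by
    have := parallelogram_law_with_norm ℝ (pw i) (pw j)
    simpa only [sq] using this
  rw [h1, pw_norm, pw_norm] at h2
  nlinarith [norm_nonneg (pw i - pw j)]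

theorem gasket_Lam : Gasket Gam pw Lam (6 / 7) (1 / 25) (Real.exp 105000) (1 / 400000) 1 where
  compact := by
    rw [Lam_eq]
    exact isCompact_Kw.image_of_continuousOn (continuousOn_F.mono fun w hw => by
      rw [mem_closedBall_zero_iff]; exact Kw_norm hw)
  mem i := ⟨corner_mem (pw_cube i), by rw [chi_corner (pw_cube i)]; exact corner_Kw i⟩
  maps i x hx := ⟨Gam_mem i hx.1, by rw [chi_Gam i hx.1]; exact Kw_Gk i hx.2⟩
  cover x hx := by
    obtain ⟨i, hi⟩ := exists_Gk (Kw_ne hx.2)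
    have h1 := Kw_gg hx.2
    have h2 := F_mem (Kw_norm h1)
    refine ⟨i, F (gg (chi x)), ⟨h2, ?_⟩, ?_⟩
    · rw [chi_F (Kw_norm h1)]; exact h1
    · refine chi_inj (Gam_mem i h2).1 hx.1.1 ?_
      rw [chi_Gam i h2, chi_F (Kw_norm h1)]
      exact hi.symm
  corner i := by
    rw [Gam_pw]
    have : (pw i + pw i) / 2 = pw i := by ring
    rw [this, F_corner (pw_cube i)]
  junction i j _ := by
    rw [Gam_pw, add_comm i j, Gam_pw, add_comm (pw i)]
  lam0 := by norm_num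
  lam1 := by norm_num
  mu0 := by norm_num
  M0 := by
    rw [← Real.exp_zero]
    exact Real.exp_le_exp.2 (by norm_num)
  c0 := by norm_num
  d0 := by norm_num
  sep i j hij := by rw [dist_eq]; exact pw_sep hij
  lip i x hx y hy := by rw [dist_eq, dist_eq]; exact Gam_lip i hx.1 hy.1
  exp i x hx y hy := by
    rw [dist_eq, dist_eq]
    have := Gam_expand i hx.1 hy.1
    linarith
  dst u x hx y hy x' hx' y' hy' := by
    simp only [dist_eq]
    refine (Wd_dist u hx.1 hy.1 hx'.1 hy'.1).trans ?_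
    apply mul_le_mul_of_nonneg_right _ (by positivity)
    apply Real.exp_le_exp.2
    have : (0 : ℝ) < (6 / 7) ^ u.length := by positivity
    nlinarith
  trans i j hij x hx y hy := by
    simp only [dist_eq]
    have := Gam_trans hij hx.1 hy.1
    linarith

end Pool.Agent.W5h43.SG
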