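import Mathlib
import Pool.Agent.W5h43.SG.Lam

set_option autoImplicit false

/-!
# The Julia set of `(z ^ 3 - 16 / 27) / z` on the Riemann sphere
-/

namespace Pool.Agent.W5h43.SG

open Set Topology Filter OnePoint

/-- the rational map on the plane -/
noncomputable def fz (z : ℂ) : ℂ := (z ^ 3 - 16 / 27) / z

open Classical in
/-- the rational map on the sphere -/
noncomputable def fh : OnePoint ℂ → OnePoint ℂ
  | ∞ => ∞
  | OnePoint.some z => if z = 0 then ∞ else (fz z : OnePoint ℂ)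

/-- the Fatou set -/
def IsFatou (g : OnePoint ℂ → OnePoint ℂ) (x : OnePoint ℂ) : Prop :=
  ∃ U : Set (OnePoint ℂ), IsOpen U ∧ x ∈ U ∧ ∀ y ∈ U,
    ∀ V ∈ 𝓝ˢ (Set.diagonal (OnePoint ℂ)), ∀ᶠ z in 𝓝 y, ∀ n : ℕ, (g^[n] y, g^[n] z) ∈ V

lemma fh_infty : fh ∞ = ∞ := rfl

lemma fh_zero : fh ((0 : ℂ) : OnePoint ℂ) = ∞ := if_pos rfl

lemma fh_coe {z : ℂ} (hz : z ≠ 0) : fh (z : OnePoint ℂ) = (fz z : OnePoint ℂ) := if_neg hz

/-! ## Neighbourhoods of `∞` -/

/-- the complement of a closed disc in the sphere -/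
def Ou (R : ℝ) : Set (OnePoint ℂ) := ((↑) '' Metric.closedBall (0 : ℂ) R)ᶜ

lemma infty_Ou (R : ℝ) : (∞ : OnePoint ℂ) ∈ Ou R := infty_notMem_image_coe

lemma coe_Ou {R : ℝ} {z : ℂ} : (z : OnePoint ℂ) ∈ Ou R ↔ R < ‖z‖ := by
  unfold Ou
  rw [mem_compl_iff, OnePoint.coe_injective.mem_set_image, mem_closedBall_zero_iff, not_le]

lemma isOpen_Ou (R : ℝ) : IsOpen (Ou R) :=
  isOpen_compl_image_coe.2 ⟨Metric.isClosed_closedBall, isCompact_closedBall _ _⟩

lemma exists_Ou {N : Set (OnePoint ℂ)} (hN : N ∈ 𝓝 (∞ : OnePoint ℂ)) : ∃ R, Ou R ⊆ N := by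
  obtain ⟨s, ⟨_, hs⟩, hsN⟩ := hasBasis_nhds_infty.mem_iff.1 hN
  obtain ⟨R, hR⟩ := hs.isBounded.subset_closedBall 0
  refine ⟨R, Subset.trans ?_ hsN⟩
  rw [← compl_image_coe]
  exact compl_subset_compl.2 (image_mono hR)

lemma Ou_mono {R R' : ℝ} (h : R ≤ R') : Ou R' ⊆ Ou R :=
  compl_subset_compl.2 (image_mono (Metric.closedBall_subset_closedBall h))

lemma tendsto_infty {α : Type} {l : Filter α} {f : α → OnePoint ℂ}
    (h : ∀ R : ℝ, ∀ᶠ x in l, f x ∈ Ou R) : Tendsto f l (𝓝 ∞) := by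
  intro N hN
  obtain ⟨R, hR⟩ := exists_Ou hN
  exact mem_of_superset (h R) fun x hx => hR hx

/-! ## Growth -/

/-- the factor of expansion -/
noncomputable def kk (R : ℝ) : ℝ := R - 16 / (27 * R ^ 2)

lemma kk_gt {R : ℝ} (hR : 4 / 3 < R) : 1 < kk R := by
  unfold kk
  have h0 : 0 < R := by linarith
  have h1 : 16 / (27 * R ^ 2) < 1 / 3 := by
    rw [div_lt_iff₀ (by positivity)]
    nlinarith
  linarith

lemma growth {R : ℝ} (hR : 4 / 3 < R) {z : ℂ} (hz : R ≤ ‖z‖) : kk R * ‖z‖ ≤ ‖fz z‖ := by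
  have h0 : 0 < R := by linarith
  have hz0 : 0 < ‖z‖ := by linarith
  have hzn : z ≠ 0 := norm_pos_iff.1 hz0
  unfold fz kk
  rw [norm_div, le_div_iff₀ hz0]
  have h1 : ‖z ^ 3‖ - ‖(16 / 27 : ℂ)‖ ≤ ‖z ^ 3 - 16 / 27‖ := norm_sub_norm_le _ _
  have h2 : ‖(16 / 27 : ℂ)‖ = 16 / 27 := by norm_num
  rw [h2, norm_pow] at h1
  refine le_trans ?_ h1
  have h3 : 16 / 27 ≤ 16 / (27 * R ^ 2) * ‖z‖ ^ 2 := by
    rw [div_mul_eq_mul_div, div_le_div_iff₀ (by norm_num) (by positivity)]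
    nlinarith
  have h4 : R * ‖z‖ ^ 2 ≤ ‖z‖ * ‖z‖ ^ 2 := by gcongr
  nlinarith

lemma near_zero {z : ℂ} (hz0 : z ≠ 0) (hz : ‖z‖ ≤ 1 / 2) : 2 / 5 ≤ ‖fz z‖ * ‖z‖ := by
  have h0 : 0 < ‖z‖ := norm_pos_iff.2 hz0
  unfold fz
  rw [norm_div, div_mul_cancel₀ _ h0.ne']
  have h1 : ‖(16 / 27 : ℂ)‖ - ‖z ^ 3‖ ≤ ‖z ^ 3 - 16 / 27‖ := by
    rw [norm_sub_rev]; exact norm_sub_norm_le _ _
  have h2 : ‖(16 / 27 : ℂ)‖ = 16 / 27 := by norm_num
  rw [h2, norm_pow] at h1
  have h3 : ‖z‖ ^ 3 ≤ (1 / 2) ^ 3 := by gcongr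
  norm_num at h3
  linarith

lemma continuous_fh : Continuous fh := by
  rw [continuous_iff_continuousAt]
  intro x
  induction x using OnePoint.rec with
  | infty =>
    rw [continuousAt_infty', fh_infty]
    refine tendsto_infty fun R => ?_
    have h1 : ∀ᶠ z : ℂ in coclosedCompact ℂ, max 2 R < ‖z‖ := by
      rw [coclosedCompact_eq_cocompact, ← Metric.cobounded_eq_cocompact]
      exact (tendsto_norm_cobounded_atTop (E := ℂ)).eventually (eventually_gt_atTop _)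
    filter_upwards [h1] with z hz
    have h2 : 2 < ‖z‖ := lt_of_le_of_lt (le_max_left _ _) hz
    have h3 : R < ‖z‖ := lt_of_le_of_lt (le_max_right _ _) hz
    have hz0 : z ≠ 0 := norm_pos_iff.1 (by linarith)
    simp only [Function.comp_apply]
    rw [fh_coe hz0, coe_Ou]
    have h4 := growth (R := 2) (by norm_num) h2.le
    have h5 := kk_gt (R := 2) (by norm_num)
    nlinarith
  | coe z =>
    rw [continuousAt_coe]
    rcases eq_or_ne z 0 with rfl | hz
    · rw [ContinuousAt, Function.comp_apply, fh_zero]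
      refine tendsto_infty fun R => ?_
      have h1 : ∀ᶠ z : ℂ in 𝓝 0, ‖z‖ < min (1 / 2) (2 / 5 / (|R| + 1)) := by
        have : Tendsto (fun z : ℂ => ‖z‖) (𝓝 0) (𝓝 0) := by
          simpa using (continuous_norm (E := ℂ)).tendsto 0
        exact this.eventually (gt_mem_nhds (by positivity))
      filter_upwards [h1] with z hz
      simp only [Function.comp_apply]
      rcases eq_or_ne z 0 with rfl | hz0
      · rw [fh_zero]; exact infty_Ou R
      · rw [fh_coe hz0, coe_Ou]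
        have h2 : ‖z‖ < 1 / 2 := lt_of_lt_of_le hz (min_le_left _ _)
        have h3 : ‖z‖ < 2 / 5 / (|R| + 1) := lt_of_lt_of_le hz (min_le_right _ _)
        have h4 := near_zero hz0 h2.le
        have h5 : 0 < ‖z‖ := norm_pos_iff.2 hz0
        rw [lt_div_iff₀ (by positivity)] at h3
        have h6 : |R| + 1 < ‖fz z‖ := by
          by_contra hc
          push Not at hc
          nlinarith
        linarith [le_abs_self R]
    · have h1 : ContinuousAt (fun w : ℂ => (fz w : OnePoint ℂ)) z := by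
        refine continuous_coe.continuousAt.comp ?_
        unfold fz
        exact ContinuousAt.div (by fun_prop) continuousAt_id hz
      refine h1.congr ?_
      filter_upwards [isOpen_ne.mem_nhds hz] with w hw
      exact (fh_coe hw).symm

lemma continuous_fh_iterate (n : ℕ) : Continuous fh^[n] := continuous_fh.iterate n

lemma fh_Ou {R ρ : ℝ} (hR : 4 / 3 < R) (hρ : R ≤ ρ) {x : OnePoint ℂ} (hx : x ∈ Ou ρ) :
    fh x ∈ Ou (kk R * ρ) := by
  induction x using OnePoint.rec with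
  | infty => rw [fh_infty]; exact infty_Ou _
  | coe z =>
    rw [coe_Ou] at hx
    have hz0 : z ≠ 0 := norm_pos_iff.1 (by linarith)
    rw [fh_coe hz0, coe_Ou]
    have h1 := growth hR (hρ.trans hx.le)
    have h2 := kk_gt hR
    have h3 : kk R * ρ < kk R * ‖z‖ := mul_lt_mul_of_pos_left hx (by linarith)
    linarith

lemma fh_iterate_Ou {R : ℝ} (hR : 4 / 3 < R) {x : OnePoint ℂ} (hx : x ∈ Ou R) (n : ℕ) :
    fh^[n] x ∈ Ou (kk R ^ n * R) := by
  induction n with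
  | zero => simpa using hx
  | succ n ih =>
    rw [Function.iterate_succ_apply', pow_succ', mul_assoc]
    refine fh_Ou hR ?_ ih
    have : 1 ≤ kk R ^ n := one_le_pow₀ (kk_gt hR).le
    nlinarith

lemma isFatou_of_escape {x : OnePoint ℂ} {m : ℕ} (h : fh^[m] x ∈ Ou (4 / 3)) : IsFatou fh x := by
  obtain ⟨R, hR, hx⟩ : ∃ R, 4 / 3 < R ∧ fh^[m] x ∈ Ou R := by
    generalize fh^[m] x = y at h
    induction y using OnePoint.rec with
    | infty => exact ⟨2, by norm_num, infty_Ou _⟩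
    | coe z =>
      rw [coe_Ou] at h
      exact ⟨(‖z‖ + 4 / 3) / 2, by linarith, by rw [coe_Ou]; linarith⟩
  refine ⟨fh^[m] ⁻¹' (Ou R), (isOpen_Ou R).preimage (continuous_fh_iterate m), hx, ?_⟩
  intro y hy V hV
  have hVinf : V ∈ 𝓝 ((∞, ∞) : OnePoint ℂ × OnePoint ℂ) :=
    (mem_nhdsSet_iff_forall.1 hV) (∞, ∞) rfl
  rw [nhds_prod_eq, mem_prod_self_iff] at hVinf
  obtain ⟨N, hN, hNV⟩ := hVinf
  obtain ⟨ρ, hρ⟩ := exists_Ou hN
  obtain ⟨n0, hn0⟩ : ∃ n0 : ℕ, ρ < kk R ^ n0 * R := by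
    obtain ⟨n0, hn0⟩ := pow_unbounded_of_one_lt (|ρ|) (kk_gt hR)
    refine ⟨n0, ?_⟩
    have : 0 < kk R ^ n0 := pow_pos (by linarith [kk_gt hR]) _
    nlinarith [le_abs_self ρ, abs_nonneg ρ]
  have hfar : ∀ w ∈ fh^[m] ⁻¹' (Ou R), ∀ n, m + n0 ≤ n → fh^[n] w ∈ N := by
    intro w hw n hn
    obtain ⟨j, rfl⟩ : ∃ j, n = (n0 + j) + m := ⟨n - m - n0, by omega⟩
    rw [Function.iterate_add_apply]
    have h1 := fh_iterate_Ou hR hw (n0 + j)
    refine hρ (Ou_mono ?_ h1)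
    have h2 : kk R ^ n0 ≤ kk R ^ (n0 + j) := pow_le_pow_right₀ (kk_gt hR).le (by omega)
    have h3 : 0 < R := by linarith
    nlinarith
  have hnear : ∀ᶠ z in 𝓝 y, ∀ n ∈ Finset.range (m + n0), (fh^[n] y, fh^[n] z) ∈ V := by
    rw [Filter.eventually_all_finset]
    intro n _
    have h1 : Tendsto (fun z => (fh^[n] y, fh^[n] z)) (𝓝 y) (𝓝 (fh^[n] y, fh^[n] y)) :=
      tendsto_const_nhds.prodMk_nhds ((continuous_fh_iterate n).tendsto y)
    exact h1 ((mem_nhdsSet_iff_forall.1 hV) (fh^[n] y, fh^[n] y) rfl)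
  have hU : fh^[m] ⁻¹' (Ou R) ∈ 𝓝 y :=
    ((isOpen_Ou R).preimage (continuous_fh_iterate m)).mem_nhds hy
  filter_upwards [hnear, hU] with z hz hzU n
  rcases lt_or_ge n (m + n0) with hn | hn
  · exact hz n (Finset.mem_range.2 hn)
  · exact hNV ⟨hfar y hy n hn, hfar z hzU n hn⟩

/-! ## The points of the Julia set -/

/-- the coordinate `w` -/
noncomputable def sg (w : ℂ) : OnePoint ℂ := ((4 / 3 * w : ℂ) : OnePoint ℂ)

lemma fh_sg {w : ℂ} (hw : w ≠ 0) : fh (sg w) = sg (gg w) := by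
  unfold sg
  rw [fh_coe (mul_ne_zero (by norm_num) hw), OnePoint.coe_eq_coe]
  unfold fz gg
  field_simp
  ring

lemma fh_sg_zero : fh (sg 0) = ∞ := by
  unfold sg; rw [mul_zero]; exact fh_zero

lemma fh_sg_iterate {w : ℂ} {n : ℕ} (h : ∀ k < n, gg^[k] w ≠ 0) :
    fh^[n] (sg w) = sg (gg^[n] w) := by
  induction n with
  | zero => rfl
  | succ n ih =>
    rw [Function.iterate_succ_apply', ih fun k hk => h k (by omega), fh_sg (h n (by omega)),
      Function.iterate_succ_apply']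

lemma not_isFatou {w : ℂ} (hw : w ∈ Kw) : ¬ IsFatou fh (sg w) := by
  rintro ⟨U, hU, hwU, h⟩
  set D : Set (OnePoint ℂ) := (↑) '' Metric.closedBall (0 : ℂ) (4 / 3) with hD
  have hDc : IsClosed D := isClosed_image_coe.2 ⟨Metric.isClosed_closedBall, isCompact_closedBall _ _⟩
  set V : Set (OnePoint ℂ × OnePoint ℂ) := (D ×ˢ {∞})ᶜ with hV
  have hVo : IsOpen V := (hDc.prod isClosed_infty).isOpen_compl
  have hVd : V ∈ 𝓝ˢ (Set.diagonal (OnePoint ℂ)) := by
    refine hVo.mem_nhdsSet.2 ?_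
    rintro ⟨a, b⟩ hab
    obtain rfl : a = b := hab
    intro hc
    obtain ⟨h1, h2⟩ := hc
    have h3 : a = ∞ := h2
    simp only at h1
    rw [h3] at h1
    exact infty_notMem_image_coe h1
  have hev := h _ hwU V hVd
  -- the orbit of `w` stays in `D`
  have horb : ∀ n, fh^[n] (sg w) ∈ D := by
    intro n
    rw [fh_sg_iterate fun k _ => (hw k).2]
    refine ⟨_, ?_, rfl⟩
    rw [mem_closedBall_zero_iff, norm_mul]
    have := (hw n).1
    norm_num
    linarith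
  have hno : ∀ᶠ z in 𝓝 (sg w), ∀ n, fh^[n] z ≠ ∞ := by
    filter_upwards [hev] with z hz n hc
    exact hz n ⟨horb n, hc⟩
  -- the preimages of `0`
  have hpre : ∀ n : ℕ, ∃ y : ℂ, ‖y - w‖ ≤ 72 * (6 / 7) ^ n ∧ fh^[n] (sg y) = sg 0 := by
    intro n
    have hword : ∀ n : ℕ, ∀ w ∈ Kw, ∃ u : List (Fin 3), u.length = n ∧ ∃ w' ∈ Kw,
        chi (Wd Gam u (F w')) = w := by
      intro n
      induction n with
      | zero => intro w hw; exact ⟨[], rfl, w, hw, chi_F (Kw_norm hw)⟩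
      | succ n ih =>
        intro w hw
        obtain ⟨i, hi⟩ := exists_Gk (Kw_ne hw)
        obtain ⟨u, hu, w', hw', he⟩ := ih (gg w) (Kw_gg hw)
        refine ⟨i :: u, by rw [List.length_cons, hu], w', hw', ?_⟩
        simp only [Wd]
        rw [chi_Gam i (Wd_mem (F_mem (Kw_norm hw'))), he]
        exact hi.symm
    obtain ⟨u, hu, w', hw', he⟩ := hword n w hw
    refine ⟨chi (Wd Gam u 0), ?_, ?_⟩
    · have m1 := Wd_mem (u := u) zero_mem_E
      have m2 := Wd_mem (u := u) (F_mem (Kw_norm hw'))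
      have h1 := chi_lip m1.1 m2.1
      rw [he] at h1
      have h2 := Wd_lip u zero_mem_E (F_mem (Kw_norm hw'))
      rw [hu] at h2
      have h3 : ‖(0 : ℂ) - F w'‖ ≤ 1 := by
        rw [zero_sub, norm_neg]; exact F_norm (Kw_norm hw')
      have h4 : (0 : ℝ) < (6 / 7) ^ n := by positivity
      nlinarith
    · have hz : ∀ u : List (Fin 3), fh^[u.length] (sg (chi (Wd Gam u 0))) = sg 0 := by
        intro u
        induction u with
        | nil => simp [Wd, chi]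
        | cons i u ih =>
          simp only [Wd, List.length_cons]
          have m1 := Wd_mem (u := u) zero_mem_E
          rw [Function.iterate_succ_apply, chi_Gam i m1, fh_sg (Gk_ne _ _), gg_root (Gk_eq _ _)]
          exact ih
      rw [← hu]; exact hz u
  choose y hy1 hy2 using hpre
  have hlim : Tendsto (fun n => sg (y n)) atTop (𝓝 (sg w)) := by
    have h1 : Tendsto y atTop (𝓝 w) := by
      rw [tendsto_iff_norm_sub_tendsto_zero]
      have h2 : Tendsto (fun n : ℕ => 72 * (6 / 7 : ℝ) ^ n) atTop (𝓝 (72 * 0)) :=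
        (tendsto_pow_atTop_nhds_zero_of_lt_one (by norm_num) (by norm_num)).const_mul _
      rw [mul_zero] at h2
      exact squeeze_zero (fun _ => norm_nonneg _) hy1 h2
    have h3 : Continuous sg := by
      unfold sg
      exact continuous_coe.comp (by fun_prop)
    exact (h3.tendsto w).comp h1
  obtain ⟨n, hn⟩ := (hlim.eventually hno).exists
  apply hn (n + 1)
  rw [Function.iterate_succ_apply', hy2, fh_sg_zero]

lemma isFatou_of_notMem {w : ℂ} (hw : w ∉ Kw) : IsFatou fh (sg w) := by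
  classical
  have h : ∃ n : ℕ, ¬ (‖gg^[n] w‖ ≤ 1 ∧ gg^[n] w ≠ 0) := by
    by_contra hc
    push Not at hc
    exact hw fun n => ⟨(hc n).1, (hc n).2⟩
  obtain ⟨n, h1, hmin⟩ : ∃ n : ℕ, ¬ (‖gg^[n] w‖ ≤ 1 ∧ gg^[n] w ≠ 0) ∧
      ∀ k < n, ¬ ¬ (‖gg^[k] w‖ ≤ 1 ∧ gg^[k] w ≠ 0) :=
    ⟨Nat.find h, Nat.find_spec h, fun k hk => Nat.find_min h hk⟩
  have h2 : ∀ k < n, gg^[k] w ≠ 0 := by
    intro k hk
    have := hmin k hk
    push Not at this
    exact this.2
  have h3 := fh_sg_iterate h2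
  rcases not_and_or.1 h1 with h4 | h4
  · refine isFatou_of_escape (m := n) ?_
    rw [h3]
    unfold sg
    rw [coe_Ou, norm_mul]
    push Not at h4
    have : ‖(4 / 3 : ℂ)‖ = 4 / 3 := by norm_num
    rw [this]
    linarith
  · push Not at h4
    refine isFatou_of_escape (m := n + 1) ?_
    rw [Function.iterate_succ_apply', h3]
    rw [h4, fh_sg_zero]
    exact infty_Ou _

lemma isFatou_sg (w : ℂ) : ¬ IsFatou fh (sg w) ↔ w ∈ Kw :=
  ⟨fun h => by_contra fun hc => h (isFatou_of_notMem hc), not_isFatou⟩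

lemma isFatou_infty : IsFatou fh ∞ := isFatou_of_escape (m := 0) (infty_Ou _)

lemma julia_iff (z : ℂ) : ¬ IsFatou fh (z : OnePoint ℂ) ↔ 3 / 4 * z ∈ Kw := by
  rw [← isFatou_sg]
  unfold sg
  have : (4 / 3 * (3 / 4 * z) : ℂ) = z := by ring
  rw [this]

end Pool.Agent.W5h43.SG
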