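import Mathlib
import Pool.Agent.W5h43.SG.Gasket

set_option autoImplicit false

/-!
# Quasisymmetric maps, and the quasisymmetry of two gaskets
-/

namespace Pool.Agent.W5h43.SG

open Set Topology Filter
open scoped NNReal

/-- quasisymmetric maps -/
def QS {X Y : Type} [MetricSpace X] [MetricSpace Y] (h : X → Y) : Prop :=
  ∃ η : ℝ≥0 ≃o ℝ≥0, ∀ x a b : X, x ≠ b →
    nndist (h x) (h a) / nndist (h x) (h b) ≤ η (nndist x a / nndist x b)

lemma QS.comp {X Y Z : Type} [MetricSpace X] [MetricSpace Y] [MetricSpace Z] {h : X → Y}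
    {g : Y → Z} (hg : QS g) (hh : QS h) (hi : Function.Injective h) : QS (g ∘ h) := by
  obtain ⟨η, h1⟩ := hh
  obtain ⟨ζ, h2⟩ := hg
  refine ⟨η.trans ζ, fun x a b hxb => ?_⟩
  refine (h2 (h x) (h a) (h b) (fun e => hxb (hi e))).trans ?_
  rw [OrderIso.trans_apply]
  exact ζ.monotone (h1 x a b hxb)

lemma eta_zero (η : ℝ≥0 ≃o ℝ≥0) : η 0 = 0 := by
  have := map_bot η
  simpa using this

lemma QS.continuous {X Y : Type} [MetricSpace X] [MetricSpace Y] [Nontrivial X] {h : X → Y}
    (hh : QS h) (hi : Function.Injective h) : Continuous h := by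
  obtain ⟨η, h1⟩ := hh
  rw [continuous_iff_continuousAt]
  intro x
  obtain ⟨b, hb⟩ := exists_ne x
  have h2 : Tendsto (fun a => η (nndist x a / nndist x b)) (𝓝 x)
      (𝓝 (η (nndist x x / nndist x b))) := by
    have hc : Continuous (fun a => η (nndist x a / nndist x b)) :=
      η.continuous.comp ((continuous_const.nndist continuous_id).div_const _)
    exact hc.tendsto x
  rw [nndist_self, zero_div, eta_zero] at h2
  have h3 : Tendsto (fun a => η (nndist x a / nndist x b) * nndist (h x) (h b)) (𝓝 x)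
      (𝓝 (0 * nndist (h x) (h b))) := h2.mul_const _
  rw [zero_mul] at h3
  have h0 : nndist (h x) (h b) ≠ 0 := by
    intro h0
    exact hb (hi (nndist_eq_zero.1 h0)).symm
  have h4 : ∀ a, nndist (h x) (h a) ≤ η (nndist x a / nndist x b) * nndist (h x) (h b) := by
    intro a
    exact (div_le_iff₀ (pos_iff_ne_zero.2 h0)).1 (h1 x a b hb.symm)
  have h5 : Tendsto (fun a => nndist (h x) (h a)) (𝓝 x) (𝓝 0) :=
    tendsto_of_tendsto_of_tendsto_of_le_of_le tendsto_const_nhds h3 (fun _ => zero_le) h4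
  have h6 : Tendsto (fun a => dist (h a) (h x)) (𝓝 x) (𝓝 0) := by
    have := (NNReal.tendsto_coe.2 h5)
    simpa [dist_comm] using this
  exact tendsto_iff_dist_tendsto_zero.2 h6

/-- the control function `C ((D t) ^ α + (D t) ^ β)` -/
lemma exists_eta {C D : ℝ} (hC : 0 < C) (hD : 0 < D) {α β : ℝ} (hα : 0 < α) (hβ : 0 < β) :
    ∃ η : ℝ≥0 ≃o ℝ≥0, ∀ t : ℝ≥0, (η t : ℝ) = C * ((D * t) ^ α + (D * t) ^ β) := by
  set C' : ℝ≥0 := ⟨C, hC.le⟩ with hC'
  set D' : ℝ≥0 := ⟨D, hD.le⟩ with hD'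
  have hCp : 0 < C' := hC
  have hDp : 0 < D' := hD
  set f : ℝ≥0 → ℝ≥0 := fun t => C' * ((D' * t) ^ α + (D' * t) ^ β) with hf
  have hmono : StrictMono f := by
    intro s t hst
    have h1 : D' * s < D' * t := mul_lt_mul_of_pos_left hst hDp
    exact mul_lt_mul_of_pos_left (add_lt_add (NNReal.rpow_lt_rpow h1 hα)
      (NNReal.rpow_lt_rpow h1 hβ)) hCp
  have hcont : Continuous f := by
    refine continuous_const.mul (Continuous.add ?_ ?_)
    · exact (NNReal.continuous_rpow_const hα.le).comp (continuous_const.mul continuous_id)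
    · exact (NNReal.continuous_rpow_const hβ.le).comp (continuous_const.mul continuous_id)
  have hsurj : Function.Surjective f := by
    intro y
    have h0 : f 0 ≤ y := by
      simp [hf, NNReal.zero_rpow hα.ne', NNReal.zero_rpow hβ.ne']
    have h1 : y ≤ f ((y / C') ^ (1 / α) / D') := by
      have e1 : D' * ((y / C') ^ (1 / α) / D') = (y / C') ^ (1 / α) :=
        mul_div_cancel₀ _ hDp.ne'
      have e2 : ((y / C') ^ (1 / α)) ^ α = y / C' := by
        rw [← NNReal.rpow_mul, one_div_mul_cancel hα.ne', NNReal.rpow_one]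
      simp only [hf]
      rw [e1, e2]
      calc y = C' * (y / C') := (mul_div_cancel₀ _ hCp.ne').symm
        _ ≤ C' * (y / C' + ((y / C') ^ (1 / α)) ^ β) := by
          gcongr; exact le_self_add
    exact mem_range_of_exists_le_of_exists_ge hcont ⟨0, h0⟩ ⟨_, h1⟩
  refine ⟨StrictMono.orderIsoOfSurjective f hmono hsurj, fun t => ?_⟩
  simp only [StrictMono.coe_orderIsoOfSurjective, hf]
  push_cast
  rfl

lemma QS.of_bound {X Y : Type} [MetricSpace X] [MetricSpace Y] {h : X → Y} {C D α β : ℝ}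
    (hC : 0 < C) (hD : 0 < D) (hα : 0 < α) (hβ : 0 < β)
    (H : ∀ x a b : X, x ≠ b → dist (h x) (h a) / dist (h x) (h b) ≤
      C * ((D * (dist x a / dist x b)) ^ α + (D * (dist x a / dist x b)) ^ β)) : QS h := by
  obtain ⟨η, hη⟩ := exists_eta hC hD hα hβ
  refine ⟨η, fun x a b hxb => ?_⟩
  rw [← NNReal.coe_le_coe, hη]
  have := H x a b hxb
  simpa only [NNReal.coe_div, coe_nndist] using this

section
variable {X : Type} [MetricSpace X] {A : Fin 3 → X → X} {v : Fin 3 → X} {K : Set X}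
  {lam mu M c d : ℝ} (H : Gasket A v K lam mu M c d)
include H

lemma Gasket.mu1 : mu < 1 := by
  have h1 := H.exp 0 _ (H.mem 0) _ (H.mem 1)
  have h2 := H.lip 0 _ (H.mem 0) _ (H.mem 1)
  have h3 := h1.trans h2
  have := le_of_mul_le_mul_right h3 H.del
  linarith [H.lam1]

lemma Gasket.cmp [Nonempty X] : ∃ C : ℝ, 0 < C ∧
    (∀ s t n, Near n s t → dist (pt A K s) (pt A K t) ≤ C * rr A v (pre n s)) ∧
    (∀ s t n, ¬ Near (n + 1) s t → rr A v (pre n s) ≤ C * dist (pt A K s) (pt A K t)) := by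
  obtain ⟨D, hD0, hD⟩ := H.bdd
  have hdel := H.del
  have hM := H.M0
  have hmu := H.mu0
  have hc := H.c0
  have hd := H.d0
  set C1 : ℝ := 2 * D * M ^ 5 / mu / dist (v 0) (v 1) with hC1
  set C2 : ℝ := M / mu * (M ^ 4 * dist (v 0) (v 1) / (c ^ 2 * d)) with hC2
  have p1 : 0 < C1 := by positivity
  have p2 : 0 < C2 := by positivity
  refine ⟨C1 + C2, by positivity, ?_, ?_⟩
  · intro s t n hn
    have h1 := H.upper hD hD0 hn
    have h2 := (H.rr_pos (pre n s)).le
    have h3 : dist (pt A K s) (pt A K t) ≤ C1 * rr A v (pre n s) := by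
      rw [hC1, div_mul_eq_mul_div, le_div_iff₀ hdel]
      exact h1
    nlinarith
  · intro s t n hn
    have h1 := H.lower hn
    have h2 := (dist_nonneg (x := pt A K s) (y := pt A K t))
    have h3 := H.le_rr_append' (pre n s) [s n]
    rw [← pre_succ, List.length_singleton, pow_one] at h3
    have h4 : rr A v (pre (n + 1) s) ≤
        M ^ 4 * dist (v 0) (v 1) / (c ^ 2 * d) * dist (pt A K s) (pt A K t) := by
      rw [div_mul_eq_mul_div, le_div_iff₀ (by positivity)]
      exact h1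
    have h5 : rr A v (pre n s) ≤ C2 * dist (pt A K s) (pt A K t) := by
      have h6 : rr A v (pre n s) ≤ M / mu * rr A v (pre (n + 1) s) := by
        rw [div_mul_eq_mul_div, le_div_iff₀ hmu]
        linarith
      refine h6.trans ?_
      rw [hC2, mul_assoc]
      exact mul_le_mul_of_nonneg_left h4 (by positivity)
    nlinarith

lemma Gasket.pt_eq_iff [Nonempty X] (s t : ℕ → Fin 3) :
    pt A K s = pt A K t ↔ ∀ n, Near n s t := by
  obtain ⟨C, hC, h1, h2⟩ := H.cmp
  constructor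
  · intro h n
    by_contra hn
    have hn' : ¬ Near (n + 1) s t := fun h => hn (h.mono (by omega))
    have := h2 s t n hn'
    rw [h, dist_self, mul_zero] at this
    exact absurd (H.rr_pos (pre n s)) (not_lt.2 this)
  · intro h
    have h3 : ∀ n : ℕ, dist (pt A K s) (pt A K t) ≤ C * (lam ^ n * dist (v 0) (v 1)) := by
      intro n
      refine (h1 s t n (h n)).trans ?_
      have := H.rr_le (pre n s)
      rw [pre_length] at this
      exact mul_le_mul_of_nonneg_left this hC.le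
    have h4 : Tendsto (fun n : ℕ => C * (lam ^ n * dist (v 0) (v 1))) atTop
        (𝓝 (C * (0 * dist (v 0) (v 1)))) :=
      ((tendsto_pow_atTop_nhds_zero_of_lt_one H.lam0.le H.lam1).mul_const _).const_mul _
    rw [zero_mul, mul_zero] at h4
    exact dist_le_zero.1 (ge_of_tendsto' h4 h3)

lemma Gasket.exists_level [Nonempty X] {s t : ℕ → Fin 3} (h : pt A K s ≠ pt A K t) :
    ∃ n, Near n s t ∧ ¬ Near (n + 1) s t := by
  classical
  have h1 : ∃ n, ¬ Near n s t := by
    by_contra hc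
    push Not at hc
    exact h ((H.pt_eq_iff s t).2 hc)
  have h2 := Nat.find_spec h1
  have h3 : Nat.find h1 ≠ 0 := by
    intro h0
    rw [h0] at h2
    exact h2 fun m hm => absurd hm (by omega)
  obtain ⟨n, hn⟩ : ∃ n, Nat.find h1 = n + 1 := ⟨Nat.find h1 - 1, by omega⟩
  refine ⟨n, ?_, hn ▸ h2⟩
  by_contra hc
  exact Nat.find_min h1 (m := n) (by omega) hc

end

lemma rpow_log_ratio {a b : ℝ} (ha0 : 0 < a) (ha1 : a < 1) (hb0 : 0 < b) (k : ℕ) :
    b ^ k = (a ^ k) ^ (Real.log b / Real.log a) := by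
  have hla : Real.log a ≠ 0 := (Real.log_neg ha0 ha1).ne
  rw [← Real.rpow_natCast a k, ← Real.rpow_mul ha0.le, Real.rpow_def_of_pos ha0,
    ← Real.rpow_natCast b k, Real.rpow_def_of_pos hb0]
  congr 1
  field_simp

theorem Gasket.qs {X X' : Type} [MetricSpace X] [MetricSpace X'] [Nonempty X] [Nonempty X']
    {A : Fin 3 → X → X} {v : Fin 3 → X} {K : Set X} {lam mu M c d : ℝ}
    (H : Gasket A v K lam mu M c d)
    {A' : Fin 3 → X' → X'} {v' : Fin 3 → X'} {K' : Set X'} {lam' mu' M' c' d' : ℝ}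
    (H' : Gasket A' v' K' lam' mu' M' c' d') :
    ∃ h : K → K', Function.Bijective h ∧ QS h := by
  have hcode : ∀ x : K, ∃ s, pt A K s = x := fun x => H.exists_code x.2
  choose code hc using hcode
  let h : K → K' := fun x => ⟨pt A' K' (code x), H'.pt_mem _⟩
  have hval : ∀ x : K, (h x : X') = pt A' K' (code x) := fun x => rfl
  have hinj : Function.Injective h := by
    intro x y hxy
    have h1 : pt A' K' (code x) = pt A' K' (code y) := congrArg Subtype.val hxy
    rw [H'.pt_eq_iff, ← H.pt_eq_iff, hc, hc] at h1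
    exact Subtype.ext h1
  have hsurj : Function.Surjective h := by
    intro y
    obtain ⟨s, hs⟩ := H'.exists_code y.2
    refine ⟨⟨pt A K s, H.pt_mem s⟩, Subtype.ext ?_⟩
    rw [hval, ← hs, H'.pt_eq_iff, ← H.pt_eq_iff, hc]
  refine ⟨h, ⟨hinj, hsurj⟩, ?_⟩
  obtain ⟨C, hC, hu, hl⟩ := H.cmp
  obtain ⟨C', hC', hu', hl'⟩ := H'.cmp
  have hM := H.M0
  have hM' := H'.M0
  have hmu := H.mu0
  have hmu1 := H.mu1
  have hmu' := H'.mu0
  have hmu1' := H'.mu1
  have hlam := H.lam0
  have hlam1 := H.lam1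
  have hlam' := H'.lam0
  have hlam1' := H'.lam1
  set α : ℝ := Real.log lam' / Real.log mu with hα
  set β : ℝ := Real.log mu' / Real.log lam with hβ
  have hα0 : 0 < α := div_pos_of_neg_of_neg (Real.log_neg hlam' hlam1') (Real.log_neg hmu hmu1)
  have hβ0 : 0 < β := div_pos_of_neg_of_neg (Real.log_neg hmu' hmu1') (Real.log_neg hlam hlam1)
  refine QS.of_bound (C := C' ^ 2 * M') (D := C ^ 2 * M) (by positivity) (by positivity) hα0 hβ0 ?_
  intro x a b hxb
  have hR : 0 ≤ C' ^ 2 * M' * ((C ^ 2 * M * (dist x a / dist x b)) ^ α +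
      (C ^ 2 * M * (dist x a / dist x b)) ^ β) := by positivity
  rcases eq_or_ne x a with rfl | hxa
  · rw [dist_self, zero_div]; exact hR
  have hxb' : pt A K (code x) ≠ pt A K (code b) := by
    rw [hc, hc]; exact fun e => hxb (Subtype.ext e)
  have hxa' : pt A K (code x) ≠ pt A K (code a) := by
    rw [hc, hc]; exact fun e => hxa (Subtype.ext e)
  obtain ⟨n1, n1a, n1b⟩ := H.exists_level hxa'
  obtain ⟨n2, n2a, n2b⟩ := H.exists_level hxb'
  have u1 := hu _ _ _ n1a
  have l1 := hl _ _ _ n1b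
  have u2 := hu _ _ _ n2a
  have l2 := hl _ _ _ n2b
  have u1' := hu' _ _ _ n1a
  have l1' := hl' _ _ _ n1b
  have u2' := hu' _ _ _ n2a
  have l2' := hl' _ _ _ n2b
  rw [hc, hc] at u1 l1 u2 l2
  rw [← hval, ← hval] at u1' l1' u2' l2'
  rw [← Subtype.dist_eq] at u1 l1 u2 l2 u1' l1' u2' l2'
  have dxa : 0 < dist x a := dist_pos.2 hxa
  have dxb : 0 < dist x b := dist_pos.2 hxb
  have dxb' : 0 < dist (h x) (h b) := dist_pos.2 fun e => hxb (hinj e)
  set s := code x with hs
  set r1 := rr A v (pre n1 s) with hr1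
  set r2 := rr A v (pre n2 s) with hr2
  set q1 := rr A' v' (pre n1 s) with hq1
  set q2 := rr A' v' (pre n2 s) with hq2
  have r1p : 0 < r1 := H.rr_pos _
  have r2p : 0 < r2 := H.rr_pos _
  have q1p : 0 < q1 := H'.rr_pos _
  have q2p : 0 < q2 := H'.rr_pos _
  -- the ratios of the distances and of the scales
  have R1 : dist (h x) (h a) / dist (h x) (h b) ≤ C' ^ 2 * (q1 / q2) := by
    rw [div_le_iff₀ dxb']
    calc dist (h x) (h a) ≤ C' * q1 := u1'
      _ = C' * (q1 / q2) * q2 := by field_simp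
      _ ≤ C' * (q1 / q2) * (C' * dist (h x) (h b)) := by gcongr
      _ = C' ^ 2 * (q1 / q2) * dist (h x) (h b) := by ring
  have R2 : r1 / r2 ≤ C ^ 2 * (dist x a / dist x b) := by
    rw [div_le_iff₀ r2p]
    calc r1 ≤ C * dist x a := l1
      _ = C * (dist x a / dist x b) * dist x b := by field_simp
      _ ≤ C * (dist x a / dist x b) * (C * r2) := by gcongr
      _ = C ^ 2 * (dist x a / dist x b) * r2 := by ring
  rcases le_total n2 n1 with hn | hn
  · obtain ⟨k, hk⟩ : ∃ k, n1 = n2 + k := ⟨n1 - n2, by omega⟩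
    have e1 := H.le_rr_append' (pre n2 s) (pre k (sh n2 s))
    have e2 := H'.rr_append_le' (pre n2 s) (pre k (sh n2 s))
    rw [← pre_add, ← hk, pre_length] at e1 e2
    have f1 : mu ^ k ≤ C ^ 2 * M * (dist x a / dist x b) := by
      have : mu ^ k ≤ M * (r1 / r2) := by
        rw [mul_div_assoc', le_div_iff₀ r2p]; exact e1
      refine this.trans ?_
      calc M * (r1 / r2) ≤ M * (C ^ 2 * (dist x a / dist x b)) := by gcongr
        _ = _ := by ring
    have f2 : q1 / q2 ≤ M' * lam' ^ k := by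
      rw [div_le_iff₀ q2p]; exact e2
    have f3 : lam' ^ k ≤ (C ^ 2 * M * (dist x a / dist x b)) ^ α := by
      rw [rpow_log_ratio hmu hmu1 hlam' k]
      exact Real.rpow_le_rpow (by positivity) f1 hα0.le
    calc dist (h x) (h a) / dist (h x) (h b) ≤ C' ^ 2 * (q1 / q2) := R1
      _ ≤ C' ^ 2 * (M' * lam' ^ k) := by gcongr
      _ = C' ^ 2 * M' * lam' ^ k := by ring
      _ ≤ C' ^ 2 * M' * ((C ^ 2 * M * (dist x a / dist x b)) ^ α +
          (C ^ 2 * M * (dist x a / dist x b)) ^ β) := by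
        gcongr
        have : 0 ≤ (C ^ 2 * M * (dist x a / dist x b)) ^ β := by positivity
        linarith
  · obtain ⟨k, hk⟩ : ∃ k, n2 = n1 + k := ⟨n2 - n1, by omega⟩
    have e1 := H.rr_append_le' (pre n1 s) (pre k (sh n1 s))
    have e2 := H'.le_rr_append' (pre n1 s) (pre k (sh n1 s))
    rw [← pre_add, ← hk, pre_length] at e1 e2
    have lk : 0 < lam ^ k := pow_pos hlam k
    have mk : 0 < mu' ^ k := pow_pos hmu' k
    have f1 : (lam ^ k)⁻¹ ≤ C ^ 2 * M * (dist x a / dist x b) := by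
      have : (lam ^ k)⁻¹ ≤ M * (r1 / r2) := by
        rw [mul_div_assoc', le_div_iff₀ r2p, inv_mul_le_iff₀ lk]
        calc r2 ≤ M * lam ^ k * r1 := e1
          _ = lam ^ k * (M * r1) := by ring
      refine this.trans ?_
      calc M * (r1 / r2) ≤ M * (C ^ 2 * (dist x a / dist x b)) := by gcongr
        _ = _ := by ring
    have f2 : q1 / q2 ≤ M' * (mu' ^ k)⁻¹ := by
      rw [div_le_iff₀ q2p, mul_comm M', mul_assoc, le_inv_mul_iff₀ mk]
      exact e2
    have f3 : (mu' ^ k)⁻¹ ≤ (C ^ 2 * M * (dist x a / dist x b)) ^ β := by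
      rw [rpow_log_ratio hlam hlam1 hmu' k, ← Real.inv_rpow lk.le]
      exact Real.rpow_le_rpow (by positivity) f1 hβ0.le
    calc dist (h x) (h a) / dist (h x) (h b) ≤ C' ^ 2 * (q1 / q2) := R1
      _ ≤ C' ^ 2 * (M' * (mu' ^ k)⁻¹) := by gcongr
      _ = C' ^ 2 * M' * (mu' ^ k)⁻¹ := by ring
      _ ≤ C' ^ 2 * M' * ((C ^ 2 * M * (dist x a / dist x b)) ^ α +
          (C ^ 2 * M * (dist x a / dist x b)) ^ β) := by
        gcongr
        have : 0 ≤ (C ^ 2 * M * (dist x a / dist x b)) ^ α := by positivity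
        linarith

end Pool.Agent.W5h43.SG
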