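import Mathlib
import Pool.Agent.W5h43.SG.Lam
import Pool.Agent.W5h43.SG.QS

set_option autoImplicit false

/-!
# The Sierpinski triangle
-/

namespace Pool.Agent.W5h43.SG

open Set Topology Filter

/-- `S` is the Sierpinski triangle with the vertices `v i` -/
def IsSier {V : Type} [NormedAddCommGroup V] [NormedSpace ℝ V] (v : Fin 3 → V) (S : Set V) :
    Prop :=
  IsCompact S ∧ S.Nonempty ∧ S = ⋃ i, (fun x => (1 / 2 : ℝ) • (x + v i)) '' S

section
variable {V : Type} [NormedAddCommGroup V] [NormedSpace ℝ V] {v : Fin 3 → V} {S S' : Set V}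

lemma IsSier.mem (h : IsSier v S) {x : V} (hx : x ∈ S) (i : Fin 3) :
    (1 / 2 : ℝ) • (x + v i) ∈ S := by
  rw [h.2.2]
  exact mem_iUnion.2 ⟨i, x, hx, rfl⟩

lemma IsSier.cov (h : IsSier v S) {x : V} (hx : x ∈ S) :
    ∃ i, ∃ y ∈ S, (1 / 2 : ℝ) • (y + v i) = x := by
  rw [h.2.2] at hx
  obtain ⟨i, y, hy, hxy⟩ := mem_iUnion.1 hx
  exact ⟨i, y, hy, hxy⟩

lemma IsSier.sub (h : IsSier v S) (h' : IsSier v S') : S ⊆ S' := by
  obtain ⟨D, hD⟩ := (Metric.isBounded_iff.1 (h.1.union h'.1).isBounded)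
  have key : ∀ n : ℕ, ∀ x ∈ S, ∃ y ∈ S', dist x y ≤ (1 / 2) ^ n * D := by
    intro n
    induction n with
    | zero =>
      intro x hx
      obtain ⟨y, hy⟩ := h'.2.1
      exact ⟨y, hy, by simpa using hD (Or.inl hx) (Or.inr hy)⟩
    | succ n ih =>
      intro x hx
      obtain ⟨i, x1, hx1, rfl⟩ := h.cov hx
      obtain ⟨y1, hy1, hd⟩ := ih x1 hx1
      refine ⟨_, h'.mem hy1 i, ?_⟩
      rw [dist_smul₀, dist_add_right, pow_succ]
      have : ‖(1 / 2 : ℝ)‖ = 1 / 2 := by norm_num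
      rw [this]
      linarith
  intro x hx
  have hcl : x ∈ closure S' := by
    rw [Metric.mem_closure_iff]
    intro ε hε
    have h1 : Tendsto (fun n : ℕ => (1 / 2 : ℝ) ^ n * D) atTop (𝓝 (0 * D)) :=
      (tendsto_pow_atTop_nhds_zero_of_lt_one (by norm_num) (by norm_num)).mul_const D
    rw [zero_mul] at h1
    obtain ⟨n, hn⟩ := (h1.eventually (gt_mem_nhds hε)).exists
    obtain ⟨y, hy, hd⟩ := key n x hx
    exact ⟨y, hy, lt_of_le_of_lt hd hn⟩
  rwa [h'.1.isClosed.closure_eq] at hcl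

lemma IsSier.unique (h : IsSier v S) (h' : IsSier v S') : S = S' :=
  Subset.antisymm (h.sub h') (h'.sub h)

/-- the point with a given code -/
noncomputable def spt (v : Fin 3 → V) (s : ℕ → Fin 3) : V := ∑' k : ℕ, (1 / 2 : ℝ) ^ (k + 1) • v (s k)

lemma exists_isSier [CompleteSpace V] (v : Fin 3 → V) : ∃ S, IsSier v S := by
  obtain ⟨B, hB⟩ : ∃ B : ℝ, ∀ i, ‖v i‖ ≤ B := by
    refine ⟨∑ i, ‖v i‖, fun i => ?_⟩
    exact Finset.single_le_sum (f := fun i => ‖v i‖) (fun j _ => norm_nonneg _) (Finset.mem_univ i)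
  have hu : Summable (fun k : ℕ => (1 / 2 : ℝ) ^ (k + 1) * B) :=
    (((summable_geometric_of_lt_one (by norm_num) (by norm_num :
      (1 / 2 : ℝ) < 1)).mul_left (1 / 2)).congr fun k => by ring).mul_right B
  have hb : ∀ (k : ℕ) (s : ℕ → Fin 3), ‖(1 / 2 : ℝ) ^ (k + 1) • v (s k)‖ ≤
      (1 / 2 : ℝ) ^ (k + 1) * B := by
    intro k s
    rw [norm_smul, Real.norm_of_nonneg (by positivity)]
    exact mul_le_mul_of_nonneg_left (hB _) (by positivity)
  have hcont : Continuous (spt v) := by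
    unfold spt
    refine continuous_tsum (fun k => ?_) hu hb
    exact (continuous_of_discreteTopology (f := fun i : Fin 3 => (1 / 2 : ℝ) ^ (k + 1) • v i)).comp
      (continuous_apply k)
  have hstep : ∀ s : ℕ → Fin 3, spt v s = (1 / 2 : ℝ) • (spt v (fun k => s (k + 1)) + v (s 0)) := by
    intro s
    unfold spt
    have hs : Summable (fun k : ℕ => (1 / 2 : ℝ) ^ (k + 1) • v (s k)) :=
      Summable.of_norm_bounded hu fun k => hb k s
    rw [hs.tsum_eq_zero_add, smul_add, ← tsum_const_smul'', add_comm]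
    simp only [zero_add, pow_one, smul_smul]
    congr 1
    refine tsum_congr fun k => ?_
    rw [pow_succ' _ (k + 1)]
  refine ⟨range (spt v), isCompact_range hcont, range_nonempty _, ?_⟩
  apply Subset.antisymm
  · rintro _ ⟨s, rfl⟩
    rw [hstep]
    exact mem_iUnion.2 ⟨s 0, _, ⟨_, rfl⟩, rfl⟩
  · intro x hx
    obtain ⟨i, _, ⟨s, rfl⟩, rfl⟩ := mem_iUnion.1 hx
    refine ⟨fun k => Nat.casesOn k i s, ?_⟩
    rw [hstep]
    rfl

lemma IsSier.corner (h : IsSier v S) (i : Fin 3) : v i ∈ S := by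
  obtain ⟨x, hx⟩ := h.2.1
  have h1 : ∀ n : ℕ, v i + (1 / 2 : ℝ) ^ n • (x - v i) ∈ S := by
    intro n
    induction n with
    | zero => simpa using hx
    | succ n ih =>
      have := h.mem ih i
      convert this using 1
      rw [pow_succ]
      module
  have h2 : Tendsto (fun n : ℕ => v i + (1 / 2 : ℝ) ^ n • (x - v i)) atTop
      (𝓝 (v i + (0 : ℝ) • (x - v i))) :=
    ((tendsto_pow_atTop_nhds_zero_of_lt_one (by norm_num) (by norm_num)).smul_const _).const_add _
  rw [zero_smul, add_zero] at h2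
  exact h.1.isClosed.mem_of_tendsto h2 (Eventually.of_forall h1)

end

/-! ## The normalised triangle -/

lemma rot_isSier {S : Set ℂ} (h : IsSier pw S) (j : Fin 3) : IsSier pw ((fun z => pw j * z) '' S) := by
  refine ⟨h.1.image (by fun_prop), h.2.1.image _, ?_⟩
  apply Subset.antisymm
  · rintro _ ⟨x, hx, rfl⟩
    obtain ⟨i, y, hy, rfl⟩ := h.cov hx
    refine mem_iUnion.2 ⟨j + i, pw j * y, ⟨y, hy, rfl⟩, ?_⟩
    simp only
    rw [← pw_mul, mul_smul_comm, mul_add]
  · intro x hx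
    obtain ⟨i, _, ⟨y, hy, rfl⟩, rfl⟩ := mem_iUnion.1 hx
    refine ⟨_, h.mem hy (-j + i), ?_⟩
    simp only
    rw [mul_smul_comm, mul_add, pw_mul, add_neg_cancel_left]

lemma rot_mem {S : Set ℂ} (h : IsSier pw S) (j : Fin 3) {z : ℂ} (hz : z ∈ S) : pw j * z ∈ S := by
  rw [h.unique (rot_isSier h j)]
  exact ⟨z, hz, rfl⟩

/-- barycentric coordinates -/
noncomputable def bar (i : Fin 3) (z : ℂ) : ℝ := (1 + 2 * (z * (starRingEnd ℂ) (pw i)).re) / 3

lemma bar_half (i : Fin 3) (z w : ℂ) : bar i ((1 / 2 : ℝ) • (z + w)) = (bar i z + bar i w) / 2 := by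
  unfold bar
  rw [smul_mul_assoc, Complex.smul_re, add_mul, Complex.add_re, smul_eq_mul]
  ring

lemma bar_sub (i : Fin 3) (z w : ℂ) : bar i z - bar i w ≤ 2 / 3 * ‖z - w‖ := by
  have h1 : bar i z - bar i w = 2 / 3 * ((z - w) * (starRingEnd ℂ) (pw i)).re := by
    unfold bar
    rw [sub_mul, Complex.sub_re]; ring
  rw [h1]
  have h2 : ((z - w) * (starRingEnd ℂ) (pw i)).re ≤ ‖z - w‖ := by
    refine (Complex.re_le_norm _).trans ?_
    rw [norm_mul, RCLike.norm_conj, pw_norm, mul_one]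
  linarith

lemma pw_re_im (i : Fin 3) : (pw i = 1) ∨ (pw i = ⟨-(1 / 2), Real.sqrt 3 / 2⟩) ∨
    (pw i = ⟨-(1 / 2), -(Real.sqrt 3 / 2)⟩) := by
  fin_cases i
  · left; simp [pw_zero]
  · right; left; simp only [Fin.mk_one, pw_one]; rfl
  · right; right
    simp only [Fin.reduceFinMk, pw_two]
    have : om ^ 2 = - 1 - om := by linear_combination om_rel
    rw [this]
    apply Complex.ext
    · simp [om]; norm_num
    · simp [om]

lemma bar_pw (i j : Fin 3) : bar i (pw j) = if i = j then 1 else 0 := by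
  have h3 := sqrt3_sq
  have p2 : pw 2 = ⟨-(1 / 2), -(Real.sqrt 3 / 2)⟩ := by
    have : om ^ 2 = - 1 - om := by linear_combination om_rel
    rw [pw_two, this]
    apply Complex.ext
    · simp [om]; norm_num
    · simp [om]
  have p1 : pw 1 = ⟨-(1 / 2), Real.sqrt 3 / 2⟩ := by rw [pw_one]; rfl
  unfold bar
  fin_cases i <;> fin_cases j <;>
    simp [pw_zero, p1, p2, Complex.mul_re] <;> nlinarith

lemma bar_sum (z : ℂ) : bar 0 z + bar 1 z + bar 2 z = 1 := by
  have h : (starRingEnd ℂ) (pw 0) + (starRingEnd ℂ) (pw 1) + (starRingEnd ℂ) (pw 2) = 0 := by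
    rw [← map_add, ← map_add, pw_zero, pw_one, pw_two]
    have : (1 : ℂ) + om + om ^ 2 = 0 := by linear_combination om_rel
    rw [this, map_zero]
  have h2 : (z * (starRingEnd ℂ) (pw 0)).re + (z * (starRingEnd ℂ) (pw 1)).re +
      (z * (starRingEnd ℂ) (pw 2)).re = 0 := by
    rw [← Complex.add_re, ← Complex.add_re, ← mul_add, ← mul_add, h, mul_zero, Complex.zero_re]
  unfold bar
  linarith

lemma bar_comb (z : ℂ) : z = (bar 0 z : ℂ) * pw 0 + (bar 1 z : ℂ) * pw 1 + (bar 2 z : ℂ) * pw 2 := by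
  have h3 := sqrt3_sq
  have p2 : pw 2 = ⟨-(1 / 2), -(Real.sqrt 3 / 2)⟩ := by
    have : om ^ 2 = - 1 - om := by linear_combination om_rel
    rw [pw_two, this]
    apply Complex.ext
    · simp [om]; norm_num
    · simp [om]
  have p1 : pw 1 = ⟨-(1 / 2), Real.sqrt 3 / 2⟩ := by rw [pw_one]; rfl
  unfold bar
  rw [pw_zero, p1, p2]
  apply Complex.ext
  · simp [Complex.mul_re, -Complex.ofReal_add, -Complex.ofReal_mul, -Complex.ofReal_div]
    ring
  · simp [Complex.mul_re, -Complex.ofReal_add, -Complex.ofReal_mul, -Complex.ofReal_div]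
    linear_combination (-(z.im) / 3) * h3

lemma bar_nonneg {S : Set ℂ} (h : IsSier pw S) (i : Fin 3) {z : ℂ} (hz : z ∈ S) : 0 ≤ bar i z := by
  have hc : Continuous (bar i) := by
    unfold bar
    fun_prop
  obtain ⟨x, hx, hmin⟩ := h.1.exists_isMinOn h.2.1 hc.continuousOn
  have h1 : bar i x ≤ bar i z := hmin hz
  obtain ⟨j, y, hy, hxy⟩ := h.cov hx
  have h2 : bar i x ≤ bar i y := hmin hy
  have h3 : bar i x = (bar i y + bar i (pw j)) / 2 := by rw [← hxy, bar_half]
  have h4 : 0 ≤ bar i (pw j) := by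
    rw [bar_pw]; split_ifs <;> norm_num
  linarith

lemma pw_dist_le (i j : Fin 3) : ‖pw i - pw j‖ ≤ 2 := by
  have := norm_sub_le (pw i) (pw j)
  rw [pw_norm, pw_norm] at this
  linarith

lemma dist_le_bar {z : ℂ} (hz : ∀ i, 0 ≤ bar i z) (j : Fin 3) : ‖z - pw j‖ ≤ 2 * (1 - bar j z) := by
  have hs := bar_sum z
  have e : z - pw j = (bar 0 z : ℂ) * (pw 0 - pw j) + (bar 1 z : ℂ) * (pw 1 - pw j) +
      (bar 2 z : ℂ) * (pw 2 - pw j) := by
    have hs' : (bar 0 z : ℂ) + (bar 1 z : ℂ) + (bar 2 z : ℂ) = 1 := by exact_mod_cast hs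
    linear_combination bar_comb z + pw j * hs'
  have hn : ∀ i, ‖(bar i z : ℂ) * (pw i - pw j)‖ ≤ if i = j then 0 else 2 * bar i z := by
    intro i
    split_ifs with hij
    · rw [hij, sub_self, mul_zero, norm_zero]
    · rw [norm_mul, Complex.norm_real, Real.norm_of_nonneg (hz i)]
      have := mul_le_mul_of_nonneg_left (pw_dist_le i j) (hz i)
      linarith
  have h1 := norm_add₃_le (a := (bar 0 z : ℂ) * (pw 0 - pw j)) (b := (bar 1 z : ℂ) * (pw 1 - pw j))
    (c := (bar 2 z : ℂ) * (pw 2 - pw j))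
  rw [← e] at h1
  have a0 := hn 0
  have a1 := hn 1
  have a2 := hn 2
  fin_cases j <;> simp at a0 a1 a2 h1 ⊢ <;> linarith

/-- the maps of the gasket -/
noncomputable def sA (i : Fin 3) (z : ℂ) : ℂ := (1 / 2 : ℝ) • (pw (-i) * z + pw i)

lemma sA_dist (i : Fin 3) (x y : ℂ) : dist (sA i x) (sA i y) = 1 / 2 * dist x y := by
  unfold sA
  rw [dist_smul₀, dist_add_right, Complex.dist_eq, Complex.dist_eq, ← mul_sub, norm_mul, pw_norm,
    one_mul]
  norm_num

lemma sA_wd (u : List (Fin 3)) (x y : ℂ) :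
    dist (Wd sA u x) (Wd sA u y) = (1 / 2) ^ u.length * dist x y := by
  induction u with
  | nil => simp [Wd]
  | cons i u ih =>
    simp only [Wd, List.length_cons]
    rw [sA_dist, ih, pow_succ]; ring

lemma sA_pw (i j : Fin 3) : sA i (pw (i + j)) = (1 / 2 : ℝ) • (pw j + pw i) := by
  unfold sA
  rw [pw_mul, neg_add_cancel_left]

lemma fin3_dbl : ∀ i j : Fin 3, -i + (i + j) = j := by decide

lemma gasket_sier {S : Set ℂ} (h : IsSier pw S) :
    Gasket sA pw S (1 / 2) (1 / 2) 1 (1 / 6) 1 where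
  compact := h.1
  mem i := h.corner i
  maps i x hx := h.mem (rot_mem h _ hx) i
  cover x hx := by
    obtain ⟨i, y, hy, hxy⟩ := h.cov hx
    refine ⟨i, pw i * y, rot_mem h i hy, ?_⟩
    unfold sA
    rw [← mul_assoc, pw_mul, neg_add_cancel, pw_zero, one_mul]
    exact hxy
  corner i := by
    rw [sA_pw, ← two_smul ℝ, smul_smul]
    norm_num
  junction i j _ := by
    rw [sA_pw, add_comm i j, sA_pw, add_comm (pw i)]
  lam0 := by norm_num
  lam1 := by norm_num
  mu0 := by norm_num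
  M0 := le_refl _
  c0 := by norm_num
  d0 := by norm_num
  sep i j hij := by rw [Complex.dist_eq]; exact pw_sep hij
  lip i x _ y _ := (sA_dist i x y).le
  exp i x _ y _ := (sA_dist i x y).ge
  dst u x _ y _ x' _ y' _ := by
    rw [sA_wd, sA_wd]
    apply le_of_eq
    ring
  trans i j hij x hx y hy := by
    set x' := pw (-i) * x with hx'
    set y' := pw (-j) * y with hy'
    have mx : x' ∈ S := rot_mem h _ hx
    have my : y' ∈ S := rot_mem h _ hy
    have ex : dist x (pw (i + j)) = ‖x' - pw j‖ := by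
      have : x' - pw j = pw (-i) * (x - pw (i + j)) := by
        rw [mul_sub, pw_mul, neg_add_cancel_left]
      rw [this, norm_mul, pw_norm, one_mul, Complex.dist_eq]
    have ey : dist y (pw (i + j)) = ‖y' - pw i‖ := by
      have : y' - pw i = pw (-j) * (y - pw (i + j)) := by
        rw [mul_sub, pw_mul, add_comm i j, neg_add_cancel_left]
      rw [this, norm_mul, pw_norm, one_mul, Complex.dist_eq]
    have bx := dist_le_bar (fun i => bar_nonneg h i mx) j
    have by' := dist_le_bar (fun i => bar_nonneg h i my) i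
    have X : sA i x = (1 / 2 : ℝ) • (x' + pw i) := rfl
    have Y : sA j y = (1 / 2 : ℝ) • (y' + pw j) := rfl
    have b1 := bar_sub i (sA i x) (sA j y)
    have b2 := bar_sub j (sA j y) (sA i x)
    rw [X, Y, bar_half, bar_half, bar_pw, bar_pw, if_pos rfl, if_neg hij] at b1
    rw [X, Y, bar_half, bar_half, bar_pw, bar_pw, if_pos rfl, if_neg hij.symm] at b2
    rw [← X, ← Y] at b1 b2
    rw [norm_sub_rev (sA j y)] at b2
    have n1 := bar_nonneg h i mx
    have n2 := bar_nonneg h j my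
    have n3 : 0 ≤ ‖sA i x - sA j y‖ := norm_nonneg _
    rw [ex, ey, Complex.dist_eq]
    linarith

end Pool.Agent.W5h43.SG
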