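import Mathlib
import Pool.Agent.W5h43.SG.Julia
import Pool.Agent.W5h43.SG.Sier

set_option autoImplicit false

/-!
# The Julia set is quasisymmetrically equivalent to the Sierpinski triangle
-/

namespace Pool.Agent.W5h43.SG

open Set Topology Filter OnePoint
open scoped NNReal

lemma QS.of_sim {X Y : Type} [MetricSpace X] [MetricSpace Y] {h : X → Y} {r : ℝ} (hr : 0 < r)
    (H : ∀ x y, dist (h x) (h y) = r * dist x y) : QS h := by
  refine ⟨OrderIso.refl _, fun x a b hxb => le_of_eq ?_⟩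
  have hb : dist x b ≠ 0 := (dist_pos.2 hxb).ne'
  rw [OrderIso.refl_apply, ← NNReal.coe_inj]
  push_cast
  rw [H, H]
  field_simp

/-! ## The chart `F` -/

/-- the chart as a map between the two sets -/
noncomputable def Fm (w : Kw) : Lam := ⟨F w, by rw [Lam_eq]; exact ⟨w, w.2, rfl⟩⟩

lemma Fm_bij : Function.Bijective Fm := by
  constructor
  · intro w w' h
    have h1 : F w = F w' := congrArg Subtype.val h
    apply Subtype.ext
    rw [← chi_F (Kw_norm w.2), h1, chi_F (Kw_norm w'.2)]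
  · intro z
    refine ⟨⟨chi z, z.2.2⟩, Subtype.ext ?_⟩
    exact F_chi z.2.1

lemma Fm_qs : QS Fm := by
  refine QS.of_bound (C := 1) (D := 324) (α := 1 / 2) (β := 1) (by norm_num) (by norm_num)
    (by norm_num) (by norm_num) ?_
  intro x a b hxb
  have mx := F_mem (Kw_norm x.2)
  have ma := F_mem (Kw_norm a.2)
  have mb := F_mem (Kw_norm b.2)
  have l := chi_lower mx ma
  have u := chi_upper mx.1 mb.1
  rw [chi_F (Kw_norm x.2), chi_F (Kw_norm a.2)] at l
  rw [chi_F (Kw_norm x.2), chi_F (Kw_norm b.2)] at u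
  have ea : dist (Fm x) (Fm a) = ‖F x - F a‖ := by rw [Subtype.dist_eq, Complex.dist_eq]; rfl
  have eb : dist (Fm x) (Fm b) = ‖F x - F b‖ := by rw [Subtype.dist_eq, Complex.dist_eq]; rfl
  have fa : dist x a = ‖(x : ℂ) - a‖ := by rw [Subtype.dist_eq, Complex.dist_eq]
  have fb : dist x b = ‖(x : ℂ) - b‖ := by rw [Subtype.dist_eq, Complex.dist_eq]
  rw [← fa] at l
  rw [← fb] at u
  rw [← ea] at l
  rw [← eb] at u
  set U := ‖1 - F (x : ℂ) ^ 3‖ with hU
  have hU0 : 0 ≤ U := norm_nonneg _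
  set A := dist (Fm x) (Fm a)
  set B := dist (Fm x) (Fm b) with hB
  have hA0 : 0 ≤ A := dist_nonneg
  have hB0 : 0 < B := dist_pos.2 fun e => hxb (Fm_bij.1 e)
  have hb0 : 0 < dist x b := dist_pos.2 hxb
  set t := dist x a / dist x b with ht
  have ht0 : 0 ≤ t := by positivity
  have hta : dist x a = t * dist x b := by rw [ht]; field_simp
  have key : A * (U + A) ≤ 324 * t * (B * (U + B)) := by
    calc A * (U + A) ≤ 36 * dist x a := l
      _ = 36 * t * dist x b := by rw [hta]; ring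
      _ ≤ 36 * t * (9 * (B * (U + B))) := by gcongr
      _ = _ := by ring
  rw [one_mul, Real.rpow_one, ← Real.sqrt_eq_rpow]
  have hs0 : 0 ≤ Real.sqrt (324 * t) := Real.sqrt_nonneg _
  rcases le_total A B with hAB | hAB
  · have h1 : (A / B) ^ 2 ≤ 324 * t := by
      rw [div_pow, div_le_iff₀ (by positivity)]
      have h2 : A ^ 2 * (U + B) ≤ 324 * t * B ^ 2 * (U + B) := by
        calc A ^ 2 * (U + B) = A * (A * U + A * B) := by ring
          _ ≤ A * (B * U + A * B) := by gcongr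
          _ = B * (A * (U + A)) := by ring
          _ ≤ B * (324 * t * (B * (U + B))) := by gcongr
          _ = _ := by ring
      exact le_of_mul_le_mul_right h2 (by linarith)
    have h3 : A / B ≤ Real.sqrt (324 * t) := Real.le_sqrt_of_sq_le h1
    nlinarith
  · have h1 : A / B ≤ 324 * t := by
      rw [div_le_iff₀ hB0]
      have h2 : A * (U + B) ≤ 324 * t * B * (U + B) := by
        calc A * (U + B) ≤ A * (U + A) := by gcongr
          _ ≤ 324 * t * (B * (U + B)) := key
          _ = _ := by ring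
      exact le_of_mul_le_mul_right h2 (by linarith)
    linarith

/-! ## Equilateral triangles -/

section
variable {V : Type} [NormedAddCommGroup V] [InnerProductSpace ℝ V]

/-- the affine similarity which takes the normalised triangle to a given one -/
noncomputable def TT (v : Fin 3 → V) (z : ℂ) : V :=
  (1 / 3 : ℝ) • (v 0 + v 1 + v 2) + z.re • ((1 / 3 : ℝ) • ((v 0 - v 1) + (v 0 - v 2))) +
    z.im • ((1 / Real.sqrt 3 : ℝ) • ((v 0 - v 2) - (v 0 - v 1)))

lemma TT_dist {v : Fin 3 → V} {L : ℝ} (hL : 0 < L) (h : ∀ i j, i ≠ j → dist (v i) (v j) = L)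
    (z w : ℂ) : dist (TT v z) (TT v w) = L / Real.sqrt 3 * dist z w := by
  have h3 : Real.sqrt 3 ^ 2 = 3 := sqrt3_sq
  have h30 : 0 < Real.sqrt 3 := Real.sqrt_pos.2 (by norm_num)
  set p := v 0 - v 1 with hp
  set q := v 0 - v 2 with hq
  have np : ‖p‖ = L := by rw [hp, ← dist_eq_norm]; exact h _ _ (by decide)
  have nq : ‖q‖ = L := by rw [hq, ← dist_eq_norm]; exact h _ _ (by decide)
  have npq : ‖q - p‖ = L := by
    have : q - p = v 1 - v 2 := by rw [hp, hq]; abel
    rw [this, ← dist_eq_norm]; exact h _ _ (by decide)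
  have hin : inner ℝ p q = L ^ 2 / 2 := by
    have := norm_sub_sq_real q p
    rw [npq, np, nq, real_inner_comm] at this
    linarith
  have hin2 : inner ℝ (p + q) (q - p) = 0 := by
    rw [inner_sub_right, inner_add_left, inner_add_left, real_inner_self_eq_norm_sq,
      real_inner_self_eq_norm_sq, np, nq, real_inner_comm p q]
    ring
  have npq2 : ‖p + q‖ ^ 2 = 3 * L ^ 2 := by
    rw [norm_add_sq_real, np, nq, hin]; ring
  set a := z.re - w.re
  set b := z.im - w.im
  have hdiff : TT v z - TT v w = a • ((1 / 3 : ℝ) • (p + q)) +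
      b • ((1 / Real.sqrt 3 : ℝ) • (q - p)) := by
    unfold TT
    simp only [a, b, ← hp, ← hq]
    module
  have hsq : ‖TT v z - TT v w‖ ^ 2 = (L / Real.sqrt 3 * dist z w) ^ 2 := by
    rw [hdiff, norm_add_sq_real, smul_smul, smul_smul, inner_smul_left, inner_smul_right, hin2,
      norm_smul, norm_smul, mul_pow, mul_pow, npq2, npq, mul_pow, Complex.dist_eq,
      ← Complex.normSq_eq_norm_sq, Complex.normSq_apply, Real.norm_eq_abs, sq_abs,
      Real.norm_eq_abs, sq_abs, div_pow, mul_pow, mul_pow, div_pow, div_pow, h3, Complex.sub_re,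
      Complex.sub_im]
    simp only [a, b]
    ring
  rw [dist_eq_norm]
  exact (sq_eq_sq₀ (norm_nonneg _) (by positivity)).1 hsq

lemma TT_pw (v : Fin 3 → V) (i : Fin 3) : TT v (pw i) = v i := by
  have h30 : Real.sqrt 3 ≠ 0 := (Real.sqrt_pos.2 (by norm_num)).ne'
  have p2 : pw 2 = ⟨-(1 / 2), -(Real.sqrt 3 / 2)⟩ := by
    have : om ^ 2 = - 1 - om := by linear_combination om_rel
    rw [pw_two, this]
    apply Complex.ext
    · simp [om]; norm_num
    · simp [om]
  have p1 : pw 1 = ⟨-(1 / 2), Real.sqrt 3 / 2⟩ := by rw [pw_one]; rfl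
  unfold TT
  fin_cases i
  · simp only [Fin.zero_eta, pw_zero, Complex.one_re, Complex.one_im]
    module
  · simp only [Fin.mk_one, p1, smul_smul]
    have e : Real.sqrt 3 / 2 * (1 / Real.sqrt 3) = 1 / 2 := by field_simp
    rw [e]
    module
  · simp only [Fin.reduceFinMk, p2, smul_smul]
    have e : -(Real.sqrt 3 / 2) * (1 / Real.sqrt 3) = -(1 / 2) := by field_simp
    rw [e]
    module

lemma TT_half (v : Fin 3 → V) (z w : ℂ) :
    TT v ((1 / 2 : ℝ) • (z + w)) = (1 / 2 : ℝ) • (TT v z + TT v w) := by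
  unfold TT
  rw [Complex.smul_re, Complex.smul_im, Complex.add_re, Complex.add_im, smul_eq_mul, smul_eq_mul]
  module

lemma TT_isSier {v : Fin 3 → V} {S : Set ℂ} (h : IsSier pw S) : IsSier v (TT v '' S) := by
  have hc : Continuous (TT v) := by
    unfold TT
    fun_prop
  refine ⟨h.1.image hc, h.2.1.image _, ?_⟩
  apply Subset.antisymm
  · rintro _ ⟨x, hx, rfl⟩
    obtain ⟨i, y, hy, rfl⟩ := h.cov hx
    refine mem_iUnion.2 ⟨i, TT v y, ⟨y, hy, rfl⟩, ?_⟩
    simp only
    rw [TT_half, TT_pw]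
  · intro x hx
    obtain ⟨i, _, ⟨y, hy, rfl⟩, rfl⟩ := mem_iUnion.1 hx
    refine ⟨_, h.mem hy i, ?_⟩
    simp only
    rw [TT_half, TT_pw]

/-- the Julia set in the plane -/
def Jf : Set ℂ := {z | ¬ IsFatou fh (z : OnePoint ℂ)}

/-- the change of the coordinate -/
noncomputable def Jm (z : Jf) : Kw := ⟨3 / 4 * z, (julia_iff z).1 z.2⟩

lemma Jm_bij : Function.Bijective Jm := by
  constructor
  · intro z z' h
    have h1 : (3 / 4 * z : ℂ) = 3 / 4 * z' := congrArg Subtype.val h
    exact Subtype.ext (mul_left_cancel₀ (by norm_num) h1)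
  · intro w
    have h1 : (3 / 4 * (4 / 3 * (w : ℂ))) = w := by ring
    refine ⟨⟨4 / 3 * w, (julia_iff _).2 (by rw [h1]; exact w.2)⟩, Subtype.ext h1⟩

lemma Jm_dist (x y : Jf) : dist (Jm x) (Jm y) = 3 / 4 * dist x y := by
  rw [Subtype.dist_eq, Subtype.dist_eq, Complex.dist_eq, Complex.dist_eq]
  have : ((Jm x : ℂ) - (Jm y : ℂ)) = 3 / 4 * ((x : ℂ) - y) := by
    simp only [Jm]; ring
  rw [this, norm_mul]
  norm_num

lemma isCompact_Jf : IsCompact Jf := by
  have : Jf = (fun w : ℂ => 4 / 3 * w) '' Kw := by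
    apply Subset.antisymm
    · intro z hz
      exact ⟨3 / 4 * z, (julia_iff z).1 hz, by ring⟩
    · rintro _ ⟨w, hw, rfl⟩
      refine (julia_iff _).2 ?_
      have h1 : (3 / 4 * (4 / 3 * (w : ℂ))) = w := by ring
      rw [h1]; exact hw
  rw [this]
  exact isCompact_Kw.image (by fun_prop)

theorem main {v : Fin 3 → V} {L : ℝ} (hL : 0 < L) (hv : ∀ i j, i ≠ j → dist (v i) (v j) = L) :
    ∃ S : Set V, IsSier v S ∧ (∀ S' : Set V, IsSier v S' → S' = S) ∧
      ∃ h : Jf ≃ₜ S, ∃ η : ℝ≥0 ≃ₜ ℝ≥0, ∀ x a b : Jf, x ≠ b →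
        nndist (h x) (h a) / nndist (h x) (h b) ≤ η (nndist x a / nndist x b) := by
  obtain ⟨S₀, hS₀⟩ := exists_isSier (V := ℂ) pw
  have hS : IsSier v (TT v '' S₀) := TT_isSier hS₀
  refine ⟨TT v '' S₀, hS, fun S' h' => h'.unique hS, ?_⟩
  obtain ⟨g, hg, hgq⟩ := Gasket.qs gasket_Lam (gasket_sier hS₀)
  have hr : 0 < L / Real.sqrt 3 := div_pos hL (Real.sqrt_pos.2 (by norm_num))
  -- the similarity of the triangles
  let T : S₀ → (TT v '' S₀) := fun x => ⟨TT v x, mem_image_of_mem _ x.2⟩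
  have hTd : ∀ x y, dist (T x) (T y) = L / Real.sqrt 3 * dist x y := fun x y => by
    rw [Subtype.dist_eq, Subtype.dist_eq]; exact TT_dist hL hv _ _
  have hTb : Function.Bijective T := by
    constructor
    · intro x y hxy
      have h1 := hTd x y
      rw [hxy, dist_self] at h1
      have h2 : dist x y = 0 := by
        rcases mul_eq_zero.1 h1.symm with h | h
        · exact absurd h hr.ne'
        · exact h
      exact dist_eq_zero.1 h2
    · rintro ⟨_, ⟨x, hx, rfl⟩⟩
      exact ⟨⟨x, hx⟩, rfl⟩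
  let h : Jf → (TT v '' S₀) := T ∘ (g ∘ (Fm ∘ Jm))
  have hb : Function.Bijective h := hTb.comp (hg.comp (Fm_bij.comp Jm_bij))
  have hJq : QS Jm := QS.of_sim (by norm_num) Jm_dist
  have hTq : QS T := QS.of_sim hr hTd
  have hq : QS h := hTq.comp (hgq.comp (Fm_qs.comp hJq Jm_bij.1) (Fm_bij.comp Jm_bij).1)
    (hg.comp (Fm_bij.comp Jm_bij)).1
  haveI : CompactSpace Jf := isCompact_iff_compactSpace.1 isCompact_Jf
  haveI : Nontrivial Jf := by
    obtain ⟨x, hx⟩ := Jm_bij.2 ⟨pw 0, corner_Kw 0⟩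
    obtain ⟨y, hy⟩ := Jm_bij.2 ⟨pw 1, corner_Kw 1⟩
    refine ⟨x, y, fun hxy => ?_⟩
    rw [hxy, hy] at hx
    have h1 : pw 1 = pw 0 := congrArg Subtype.val hx
    have h2 := pw_sep (i := 1) (j := 0) (by decide)
    rw [h1, sub_self, norm_zero] at h2
    norm_num at h2
  have hc : Continuous h := hq.continuous hb.1
  obtain ⟨η, hη⟩ := hq
  refine ⟨Continuous.homeoOfEquivCompactToT2 (f := Equiv.ofBijective h hb) hc, η.toHomeomorph, ?_⟩
  intro x a b hxb
  exact hη x a b hxb

end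

end Pool.Agent.W5h43.SG
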