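import Pool.Agent.W5h43.SG.Inv

set_option autoImplicit false

/-!
# The inverse branches of `g (w) = (4 w³ - 1) / (3 w)` on the closed unit disc
-/

namespace Pool.Agent.W5h43.SG

open Complex Set Topology

/-- the cube root of unity -/
noncomputable def om : ℂ := ⟨-(1 / 2), Real.sqrt 3 / 2⟩

lemma sqrt3_sq : Real.sqrt 3 ^ 2 = 3 := Real.sq_sqrt (by norm_num)

lemma om_rel : om ^ 2 + om + 1 = 0 := by
  have h := sqrt3_sq
  apply Complex.ext <;> simp only [om, pow_two, add_re, mul_re, add_im, mul_im, one_re, one_im,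
    zero_re, zero_im]
  · nlinarith
  · ring

lemma om_cube : om ^ 3 = 1 := by linear_combination (om - 1) * om_rel

lemma om_norm : ‖om‖ = 1 := corner_norm om_cube

lemma om_ne : om ≠ 0 := by
  intro h
  have := om_norm
  rw [h, norm_zero] at this
  exact zero_ne_one this

/-- `√(1 - w³)` -/
noncomputable def vv (w : ℂ) : ℂ := (1 - w ^ 3) ^ (((2 : ℕ) : ℂ)⁻¹)

/-- `(1 + √(1 - w³))^(1/3)` -/
noncomputable def uu (w : ℂ) : ℂ := (1 + vv w) ^ (((3 : ℕ) : ℂ)⁻¹)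

/-- the main branch -/
noncomputable def G (w : ℂ) : ℂ := (uu w + w / uu w) / 2

lemma vv_sq (w : ℂ) : vv w ^ 2 = 1 - w ^ 3 := cpow_nat_inv_pow _ (by norm_num)

lemma vv_re (w : ℂ) : 0 ≤ (vv w).re := by
  unfold vv
  by_cases h : 1 - w ^ 3 = 0
  · rw [h, zero_cpow (by norm_num)]; simp
  · rw [cpow_def_of_ne_zero h, exp_re]
    refine mul_nonneg (Real.exp_pos _).le (Real.cos_nonneg_of_mem_Icc ?_)
    have e : (log (1 - w ^ 3) * (((2 : ℕ) : ℂ)⁻¹)).im = (1 - w ^ 3).arg / 2 := by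
      have : (((2 : ℕ) : ℂ)⁻¹) = ((1 / 2 : ℝ) : ℂ) := by push_cast; norm_num
      rw [this, mul_comm, im_ofReal_mul, log_im]; ring
    rw [e]
    constructor
    · linarith [neg_pi_lt_arg (1 - w ^ 3)]
    · linarith [arg_le_pi (1 - w ^ 3)]

lemma uu_cube (w : ℂ) : uu w ^ 3 = 1 + vv w := cpow_nat_inv_pow _ (by norm_num)

lemma one_add_vv_re (w : ℂ) : 1 ≤ (1 + vv w).re := by
  have := vv_re w
  rw [add_re, one_re]; linarith

lemma one_add_vv_ne (w : ℂ) : 1 + vv w ≠ 0 := by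
  intro h
  have := one_add_vv_re w
  rw [h, zero_re] at this
  linarith

lemma uu_ne (w : ℂ) : uu w ≠ 0 := by
  intro h
  have := uu_cube w
  rw [h] at this
  exact one_add_vv_ne w (by rw [← this]; norm_num)

lemma ww_cube (w : ℂ) : (w / uu w) ^ 3 = 1 - vv w := by
  rw [div_pow, uu_cube, div_eq_iff (one_add_vv_ne w)]
  linear_combination vv_sq w

lemma uw (w : ℂ) : uu w * (w / uu w) = w := by field_simp [uu_ne w]

lemma G_eq (w : ℂ) : 4 * G w ^ 3 - 3 * w * G w = 1 := by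
  have h1 := uu_cube w
  have h2 := ww_cube w
  have h3 := uw w
  unfold G
  linear_combination h1 / 2 + h2 / 2 + (3 / 2) * (uu w + w / uu w) * h3

lemma G_ne (w : ℂ) : G w ≠ 0 := by
  intro h
  have := G_eq w
  rw [h] at this
  norm_num at this

lemma uu_om (w : ℂ) : uu (om * w) = uu w := by
  unfold uu vv
  rw [mul_pow, om_cube, one_mul]

/-- the other branches -/
noncomputable def Gk (k : ℕ) (w : ℂ) : ℂ := om ^ k * G (om ^ k * w)

lemma Gk_zero (w : ℂ) : Gk 0 w = G w := by simp [Gk]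

lemma om_pow_cube (k : ℕ) : (om ^ k) ^ 3 = 1 := by
  rw [← pow_mul, mul_comm, pow_mul, om_cube, one_pow]

lemma om_pow_norm (k : ℕ) : ‖om ^ k‖ = 1 := by rw [norm_pow, om_norm, one_pow]

lemma om_pow_ne (k : ℕ) : om ^ k ≠ 0 := pow_ne_zero _ om_ne

lemma Gk_eq (k : ℕ) (w : ℂ) : 4 * Gk k w ^ 3 - 3 * w * Gk k w = 1 := by
  unfold Gk
  have h := G_eq (om ^ k * w)
  have h3 := om_pow_cube k
  linear_combination h + 4 * G (om ^ k * w) ^ 3 * h3

lemma Gk_ne (k : ℕ) (w : ℂ) : Gk k w ≠ 0 := mul_ne_zero (om_pow_ne k) (G_ne _)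

/-- the branches are all the solutions -/
lemma roots {w x : ℂ} (h : 4 * x ^ 3 - 3 * w * x = 1) : x = Gk 0 w ∨ x = Gk 1 w ∨ x = Gk 2 w := by
  have h1 := uu_cube w
  have h2 := ww_cube w
  have h3 := uw w
  have e0 : Gk 0 w = (uu w + w / uu w) / 2 := by rw [Gk_zero]; rfl
  have e1 : Gk 1 w = (om * uu w + om ^ 2 * (w / uu w)) / 2 := by
    unfold Gk G
    rw [pow_one, uu_om]
    ring
  have e2 : Gk 2 w = (om ^ 2 * uu w + om * (w / uu w)) / 2 := by
    have h5 : uu (om ^ 2 * w) = uu w := by rw [pow_two, mul_assoc, uu_om, uu_om]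
    unfold Gk G
    rw [h5]
    have h4 : om ^ 3 = 1 := om_cube
    linear_combination (om * (w / uu w) / 2) * h4
  set A := uu w
  set B := w / A
  have key : (x - Gk 0 w) * ((x - Gk 1 w) * (x - Gk 2 w)) = 0 := by
    rw [e0, e1, e2]
    have hr := om_rel
    have h4 : om ^ 3 = 1 := om_cube
    have e5 : (x - (A + B) / 2) * ((x - (om * A + om ^ 2 * B) / 2) *
        (x - (om ^ 2 * A + om * B) / 2)) = x ^ 3 - 3 / 4 * (A * B) * x - (A ^ 3 + B ^ 3) / 8 := by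
      have e6 : (x - (om * A + om ^ 2 * B) / 2) * (x - (om ^ 2 * A + om * B) / 2) =
          x ^ 2 + x * (A + B) / 2 + (A ^ 2 - A * B + B ^ 2) / 4 := by
        have h6 : om ^ 4 = om := by linear_combination om * h4
        have h7 : om + om ^ 2 = -1 := by linear_combination hr
        linear_combination (-x * (A + B) / 2 + A * B / 4) * h7 + (A ^ 2 / 4 + B ^ 2 / 4) * h4 +
          A * B / 4 * h6
      rw [e6]; ring
    rw [e5, h3, h1, h2]
    linear_combination h / 4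
  rcases mul_eq_zero.1 key with h | h
  · exact Or.inl (sub_eq_zero.1 h)
  · rcases mul_eq_zero.1 h with h | h
    · exact Or.inr (Or.inl (sub_eq_zero.1 h))
    · exact Or.inr (Or.inr (sub_eq_zero.1 h))

/-! ## Norms -/

lemma root_norm_eq {w x : ℂ} (h : 4 * x ^ 3 - 3 * w * x = 1) : ‖4 * x ^ 3 - 1‖ = 3 * ‖w‖ * ‖x‖ := by
  have : 4 * x ^ 3 - 1 = 3 * w * x := by linear_combination h
  rw [this, norm_mul, norm_mul]
  simp

lemma root_norm_le {w x : ℂ} (hw : ‖w‖ ≤ 1) (h : 4 * x ^ 3 - 3 * w * x = 1) : ‖x‖ ≤ 1 := by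
  have h1 := root_norm_eq h
  have h2 : ‖4 * x ^ 3‖ - ‖(1 : ℂ)‖ ≤ ‖4 * x ^ 3 - 1‖ := norm_sub_norm_le _ _
  rw [norm_mul, norm_pow, norm_one] at h2
  have h4 : ‖(4 : ℂ)‖ = 4 := by simp
  rw [h4] at h2
  by_contra hn
  push Not at hn
  have h5 : 3 * ‖w‖ * ‖x‖ ≤ 3 * ‖x‖ := by nlinarith [norm_nonneg x]
  have h6 : ‖x‖ < ‖x‖ ^ 3 := by nlinarith [sq_nonneg ‖x‖]
  nlinarith [norm_nonneg x]

lemma root_norm_ge {w x : ℂ} (hw : ‖w‖ ≤ 1) (h : 4 * x ^ 3 - 3 * w * x = 1) : 1 / 4 ≤ ‖x‖ := by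
  have h1 := root_norm_eq h
  have h2 : ‖(1 : ℂ)‖ - ‖4 * x ^ 3‖ ≤ ‖4 * x ^ 3 - 1‖ := by
    rw [norm_sub_rev]; exact norm_sub_norm_le _ _
  rw [norm_mul, norm_pow, norm_one] at h2
  have h4 : ‖(4 : ℂ)‖ = 4 := by simp
  rw [h4] at h2
  by_contra hn
  push Not at hn
  have h0 := norm_nonneg x
  have h5 : 3 * ‖w‖ * ‖x‖ ≤ 3 * ‖x‖ := by nlinarith
  have h6 : ‖x‖ ^ 3 ≤ (1 / 4) ^ 3 := pow_le_pow_left₀ h0 hn.le 3
  linarith

lemma root_cube {w x : ℂ} (h : 4 * x ^ 3 - 3 * w * x = 1) :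
    (1 - x ^ 3) * (8 * x ^ 3 + 1) ^ 2 = 27 * x ^ 3 * (1 - w ^ 3) := by
  have h1 : (3 * w * x) ^ 3 = (4 * x ^ 3 - 1) ^ 3 := by
    have : 3 * w * x = 4 * x ^ 3 - 1 := by linear_combination -h
    rw [this]
  linear_combination h1

lemma root_ne_zero {w x : ℂ} (h : 4 * x ^ 3 - 3 * w * x = 1) : x ≠ 0 := by
  rintro rfl
  norm_num at h

lemma root_nc1 {w x : ℂ} (hw : w ^ 3 ≠ 1) (h : 4 * x ^ 3 - 3 * w * x = 1) : x ^ 3 ≠ 1 := by
  intro h1
  have := root_cube h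
  rw [h1] at this
  apply hw
  linear_combination (1 / 27) * this

lemma root_nc2 {w x : ℂ} (hw : w ^ 3 ≠ 1) (h : 4 * x ^ 3 - 3 * w * x = 1) :
    8 * x ^ 3 + 1 ≠ 0 := by
  intro h1
  have h2 := root_cube h
  rw [h1] at h2
  have h3 := root_ne_zero h
  have h4 : x ^ 3 * (1 - w ^ 3) = 0 := by linear_combination (-1 / 27) * h2
  rcases mul_eq_zero.1 h4 with h | h
  · exact h3 (pow_eq_zero_iff (by norm_num) |>.1 h)
  · exact hw (by linear_combination -h)

lemma root_norm_lt {w x : ℂ} (hw : ‖w‖ ≤ 1) (hw1 : w ^ 3 ≠ 1) (h : 4 * x ^ 3 - 3 * w * x = 1) :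
    ‖x‖ < 1 := by
  refine lt_of_le_of_ne (root_norm_le hw h) fun h1 => root_nc1 hw1 h ?_
  have h2 := root_norm_eq h
  rw [h1, mul_one] at h2
  have h3 : ‖x ^ 3‖ = 1 := by rw [norm_pow, h1, one_pow]
  have h4 : normSq (x ^ 3) = 1 := by rw [normSq_eq_norm_sq, h3, one_pow]
  have h5 : normSq (4 * x ^ 3 - 1) ≤ 9 := by
    rw [normSq_eq_norm_sq, h2]
    nlinarith [norm_nonneg w]
  rw [normSq_apply] at h4 h5
  simp only [sub_re, sub_im, one_re, one_im, sub_zero] at h5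
  have e1 : (4 * x ^ 3).re = 4 * (x ^ 3).re := by
    rw [show (4 : ℂ) = ((4 : ℝ) : ℂ) by norm_num, re_ofReal_mul]
  have e2 : (4 * x ^ 3).im = 4 * (x ^ 3).im := by
    rw [show (4 : ℂ) = ((4 : ℝ) : ℂ) by norm_num, im_ofReal_mul]
  rw [e1, e2] at h5
  have h6 : 1 ≤ (x ^ 3).re := by nlinarith
  have h7 : (x ^ 3).re = 1 := by nlinarith [sq_nonneg (x ^ 3).im]
  have h8 : (x ^ 3).im = 0 := by
    rw [h7] at h4
    have : (x ^ 3).im ^ 2 = 0 := by nlinarith
    exact pow_eq_zero_iff (by norm_num) |>.1 this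
  exact Complex.ext (by simpa using h7) (by simpa using h8)

/-! ## Regularity -/

lemma one_sub_cube_slit {w : ℂ} (hw : ‖w‖ ≤ 1) (hw1 : w ^ 3 ≠ 1) : 0 < (1 - w ^ 3).re := by
  have h1 : ‖w ^ 3‖ ≤ 1 := by rw [norm_pow]; exact pow_le_one₀ (norm_nonneg _) hw
  have h2 := (re_le_norm (w ^ 3)).trans h1
  rw [sub_re, one_re]
  rcases h2.eq_or_lt with h | h
  · exfalso
    apply hw1
    have h3 : normSq (w ^ 3) ≤ 1 := by
      rw [normSq_eq_norm_sq]; exact pow_le_one₀ (norm_nonneg _) h1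
    rw [normSq_apply, h] at h3
    have : (w ^ 3).im = 0 := by
      have : (w ^ 3).im ^ 2 = 0 := by nlinarith [sq_nonneg (w ^ 3).im]
      exact pow_eq_zero_iff (by norm_num) |>.1 this
    exact Complex.ext (by simpa using h) (by simpa using this)
  · linarith

lemma continuousAt_vv {w : ℂ} (hw : ‖w‖ ≤ 1) : ContinuousAt vv w := by
  unfold vv
  by_cases h : w ^ 3 = 1
  · have h0 : (1 : ℂ) - w ^ 3 = 0 := by rw [h, sub_self]
    have h1 : ContinuousAt (fun x : ℂ × ℂ => x.1 ^ x.2) ((1 : ℂ) - w ^ 3, ((2 : ℕ) : ℂ)⁻¹) := by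
      rw [h0]
      exact continuousAt_cpow_zero_of_re_pos (by norm_num)
    exact ContinuousAt.comp (f := fun w : ℂ => ((1 : ℂ) - w ^ 3, ((2 : ℕ) : ℂ)⁻¹)) h1
      (by fun_prop)
  · exact ContinuousAt.cpow (by fun_prop) continuousAt_const
      (Or.inl (one_sub_cube_slit hw h))

lemma continuousAt_uu {w : ℂ} (hw : ‖w‖ ≤ 1) : ContinuousAt uu w := by
  unfold uu
  exact ContinuousAt.cpow (continuousAt_const.add (continuousAt_vv hw)) continuousAt_const
    (Or.inl (lt_of_lt_of_le one_pos (one_add_vv_re w)))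

lemma continuousAt_G {w : ℂ} (hw : ‖w‖ ≤ 1) : ContinuousAt G w := by
  unfold G
  exact ((continuousAt_uu hw).add (continuousAt_id.div (continuousAt_uu hw) (uu_ne w))).div_const 2

lemma continuousOn_G : ContinuousOn G (Metric.closedBall 0 1) := fun w hw =>
  (continuousAt_G (by simpa using hw)).continuousWithinAt

lemma differentiableAt_G {w : ℂ} (hw : ‖w‖ ≤ 1) (hw1 : w ^ 3 ≠ 1) : DifferentiableAt ℂ G w := by
  have h1 : DifferentiableAt ℂ vv w := by
    unfold vv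
    exact DifferentiableAt.cpow (by fun_prop) (differentiableAt_const _)
      (Or.inl (one_sub_cube_slit hw hw1))
  have h2 : DifferentiableAt ℂ uu w := by
    unfold uu
    exact DifferentiableAt.cpow ((differentiableAt_const _).add h1) (differentiableAt_const _)
      (Or.inl (lt_of_lt_of_le one_pos (one_add_vv_re w)))
  unfold G
  exact (h2.add (differentiableAt_id.div h2 (uu_ne w))).div_const 2

lemma dG_den {w : ℂ} (hw1 : w ^ 3 ≠ 1) : 4 * G w ^ 2 - w ≠ 0 := by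
  intro h
  apply root_nc2 hw1 (G_eq w)
  have h1 := G_eq w
  linear_combination 3 * G w * h - h1

lemma hasDerivAt_G {w : ℂ} (hw : ‖w‖ ≤ 1) (hw1 : w ^ 3 ≠ 1) :
    HasDerivAt G (G w / (4 * G w ^ 2 - w)) w := by
  have h1 := (differentiableAt_G hw hw1).hasDerivAt
  have h2 : HasDerivAt (fun w => 4 * G w ^ 3 - 3 * w * G w)
      (4 * (3 * G w ^ 2 * deriv G w) - (3 * 1 * G w + 3 * w * deriv G w)) w := by
    have h3 := (h1.fun_pow 3).const_mul 4
    have h4 := ((hasDerivAt_id' w).const_mul 3).fun_mul h1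
    have h5 := h3.fun_sub h4
    refine h5.congr_deriv ?_
    push_cast
    ring
  have h3 : HasDerivAt (fun w => 4 * G w ^ 3 - 3 * w * G w) 0 w := by
    have : (fun w => 4 * G w ^ 3 - 3 * w * G w) = fun _ => (1 : ℂ) := by
      funext w; exact G_eq w
    rw [this]
    exact hasDerivAt_const w _
  have h4 := h2.unique h3
  have h5 : deriv G w = G w / (4 * G w ^ 2 - w) := by
    rw [eq_div_iff (dG_den hw1)]
    linear_combination h4 / 3
  rw [← h5]
  exact h1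

end Pool.Agent.W5h43.SG
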