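import Mathlib

set_option autoImplicit false

/-!
# The chart `χ (z) = 3 z / (2 + z ^ 3)` on the closed unit disc
-/

namespace Pool.Agent.W5h43.SG

open Complex Set

/-- the chart -/
noncomputable def chi (z : ℂ) : ℂ := 3 * z / (2 + z ^ 3)

/-- the divided difference of the chart, up to the denominators -/
noncomputable def P (a b : ℂ) : ℂ := 2 - a * b * (a + b)

/-- the part of the closed unit disc over the closed unit disc -/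
def E : Set ℂ := {z | ‖z‖ ≤ 1 ∧ ‖chi z‖ ≤ 1}

/-- `|2 + z³|² - 9 |z|²` -/
noncomputable def phi (z : ℂ) : ℝ := 4 + 4 * (z ^ 3).re + normSq z ^ 3 - 9 * normSq z

lemma den_norm {z : ℂ} (h : ‖z‖ ≤ 1) : 1 ≤ ‖2 + z ^ 3‖ := by
  have h1 : ‖z ^ 3‖ ≤ 1 := by rw [norm_pow]; exact pow_le_one₀ (norm_nonneg _) h
  have h2 : ‖(2 : ℂ)‖ ≤ ‖2 + z ^ 3‖ + ‖z ^ 3‖ := by
    have := norm_sub_le (2 + z ^ 3) (z ^ 3)
    simpa using this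
  have h3 : ‖(2 : ℂ)‖ = 2 := by simp
  linarith

lemma den_ne {z : ℂ} (h : ‖z‖ ≤ 1) : 2 + z ^ 3 ≠ 0 := by
  intro h0
  have := den_norm h
  rw [h0, norm_zero] at this
  linarith

lemma den_le {z : ℂ} (h : ‖z‖ ≤ 1) : ‖2 + z ^ 3‖ ≤ 3 := by
  have h1 : ‖z ^ 3‖ ≤ 1 := by rw [norm_pow]; exact pow_le_one₀ (norm_nonneg _) h
  have h2 := norm_add_le (2 : ℂ) (z ^ 3)
  have h3 : ‖(2 : ℂ)‖ = 2 := by simp
  linarith

lemma chi_sub {a b : ℂ} (ha : ‖a‖ ≤ 1) (hb : ‖b‖ ≤ 1) :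
    chi a - chi b = 3 * (a - b) * P a b / ((2 + a ^ 3) * (2 + b ^ 3)) := by
  have h1 := den_ne ha
  have h2 := den_ne hb
  unfold chi P
  field_simp
  ring

lemma normSq_den (z : ℂ) : normSq (2 + z ^ 3) = 4 + 4 * (z ^ 3).re + normSq z ^ 3 := by
  rw [normSq_add, map_pow normSq z 3]
  have : (2 * (starRingEnd ℂ) (z ^ 3)).re = 2 * (z ^ 3).re := by
    rw [show (2 : ℂ) = ((2 : ℝ) : ℂ) by norm_num, re_ofReal_mul, conj_re]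
  rw [this]
  have h4 : normSq (2 : ℂ) = 4 := by
    rw [show (2 : ℂ) = ((2 : ℝ) : ℂ) by norm_num, normSq_ofReal]; norm_num
  rw [h4]; ring

lemma chi_le_iff {z : ℂ} (h : ‖z‖ ≤ 1) : ‖chi z‖ ≤ 1 ↔ 0 ≤ phi z := by
  have h1 := den_ne h
  have h2 : 0 < ‖2 + z ^ 3‖ := norm_pos_iff.2 h1
  unfold chi
  rw [norm_div, div_le_one h2, ← sq_le_sq₀ (norm_nonneg _) (norm_nonneg _), ← normSq_eq_norm_sq,
    ← normSq_eq_norm_sq, normSq_den, map_mul]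
  have h3 : normSq (3 : ℂ) = 9 := by
    rw [show (3 : ℂ) = ((3 : ℝ) : ℂ) by norm_num, normSq_ofReal]; norm_num
  rw [h3]
  unfold phi
  constructor <;> intro h <;> linarith

lemma normSq_le {z : ℂ} (h : ‖z‖ ≤ 1) : normSq z ≤ 1 := by
  rw [normSq_eq_norm_sq]
  exact pow_le_one₀ (norm_nonneg _) h

/-- the basic inequality on `E` -/
lemma one_sub_cube {a : ℂ} (h : a ∈ E) : ‖1 - a ^ 3‖ ≤ 3 * (1 - ‖a‖ ^ 2) := by
  obtain ⟨h1, h2⟩ := h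
  rw [chi_le_iff h1] at h2
  unfold phi at h2
  have h3 := normSq_le h1
  have h0 := normSq_nonneg a
  have h4 : ‖1 - a ^ 3‖ ^ 2 = 1 - 2 * (a ^ 3).re + normSq a ^ 3 := by
    rw [← normSq_eq_norm_sq, normSq_sub, map_pow normSq a 3]
    simp only [map_one, one_mul, conj_re]
    ring
  rw [← normSq_eq_norm_sq]
  set t := normSq a
  have h5 : ‖1 - a ^ 3‖ ^ 2 ≤ (3 * (1 - t)) ^ 2 := by
    rw [h4]
    nlinarith [mul_nonneg (sq_nonneg (1 - t)) (by linarith : 0 ≤ 1 - t),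
      mul_nonneg (sq_nonneg (1 - t)) h0]
  exact le_of_sq_le_sq h5 (by linarith)

lemma one_sub_norm {a : ℂ} (h : a ∈ E) : ‖1 - a ^ 3‖ ≤ 6 * (1 - ‖a‖) := by
  have h1 := one_sub_cube h
  have h2 := h.1
  have h3 := norm_nonneg a
  nlinarith

lemma P_ge_re (a b : ℂ) :
    2 - ‖a‖ * ‖b‖ * ‖a + b‖ ≤ ‖P a b‖ := by
  unfold P
  have h1 : ‖(2 : ℂ)‖ - ‖a * b * (a + b)‖ ≤ ‖2 - a * b * (a + b)‖ := norm_sub_norm_le _ _
  rw [norm_mul, norm_mul] at h1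
  have h3 : ‖(2 : ℂ)‖ = 2 := by simp
  linarith

lemma P_ge_one {a b : ℂ} (ha : a ∈ E) (hb : b ∈ E) :
    ‖1 - a ^ 3‖ + ‖1 - b ^ 3‖ ≤ 6 * ‖P a b‖ := by
  have h1 := one_sub_norm ha
  have h2 := one_sub_norm hb
  have h3 := P_ge_re a b
  have h4 := norm_add_le a b
  have h5 := norm_nonneg a
  have h6 := norm_nonneg b
  have h7 := ha.1
  have h8 := hb.1
  have h9 : ‖a‖ * ‖b‖ ≤ 1 := by nlinarith
  have h10 : ‖a‖ * ‖b‖ * ‖a + b‖ ≤ 1 * (‖a‖ + ‖b‖) :=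
    mul_le_mul h9 h4 (norm_nonneg _) (by norm_num)
  linarith

lemma P_ge_sq {a b : ℂ} (ha : ‖a‖ ≤ 1) (hb : ‖b‖ ≤ 1) : ‖a - b‖ ^ 2 ≤ 4 * ‖P a b‖ := by
  have h3 := P_ge_re a b
  have h5 := norm_nonneg a
  have h6 := norm_nonneg b
  have h9 : ‖a‖ * ‖b‖ ≤ 1 := by nlinarith
  have h10 : ‖a‖ * ‖b‖ * ‖a + b‖ ≤ 1 * ‖a + b‖ :=
    mul_le_mul_of_nonneg_right h9 (norm_nonneg _)
  have h11 := parallelogram_law_with_norm ℝ a b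
  have h12 : ‖a + b‖ ≤ 2 - ‖a - b‖ ^ 2 / 4 := by
    have hab : ‖a - b‖ ≤ 2 := by linarith [norm_sub_le a b]
    have h14 : 0 ≤ 2 - ‖a - b‖ ^ 2 / 4 := by nlinarith [norm_nonneg (a - b)]
    refine le_of_sq_le_sq ?_ h14
    nlinarith [sq_nonneg (‖a - b‖ ^ 2), norm_nonneg (a + b)]
  linarith

lemma P_ge_lin {a b : ℂ} (ha : a ∈ E) (hb : b ∈ E) : ‖a - b‖ ≤ 6 * ‖P a b‖ := by
  have h1 := P_ge_one ha hb
  have h2 := P_ge_sq ha.1 hb.1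
  have h3 := P_ge_re a b
  have h5 := norm_nonneg a
  have h6 := norm_nonneg b
  have h7 := ha.1
  have h8 := hb.1
  have hab : ‖a - b‖ ≤ 2 := by linarith [norm_sub_le a b]
  have hab' : ‖a + b‖ ≤ 2 := by linarith [norm_add_le a b]
  have h0 := norm_nonneg (a - b)
  by_cases hc : ‖a‖ * ‖b‖ * ‖a + b‖ ≤ 1
  · linarith
  push Not at hc
  by_cases hd : 3 / 4 ≤ ‖a - b‖
  · nlinarith
  push Not at hd
  have h9 : 1 / 2 ≤ ‖a‖ * ‖b‖ := by nlinarith [mul_nonneg h5 h6, norm_nonneg (a + b)]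
  have e1 : a ^ 3 - b ^ 3 = (a - b) * (3 * (a * b) + (a - b) ^ 2) := by ring
  have h10 : ‖a ^ 3 - b ^ 3‖ ≤ ‖1 - a ^ 3‖ + ‖1 - b ^ 3‖ := by
    have : a ^ 3 - b ^ 3 = (1 - b ^ 3) - (1 - a ^ 3) := by ring
    rw [this, add_comm]
    exact norm_sub_le _ _
  have h11 : 3 * (‖a‖ * ‖b‖) - ‖a - b‖ ^ 2 ≤ ‖3 * (a * b) + (a - b) ^ 2‖ := by
    have := norm_sub_norm_le (3 * (a * b)) (-(a - b) ^ 2)
    rw [norm_neg, norm_pow, norm_mul, norm_mul] at this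
    have h3 : ‖(3 : ℂ)‖ = 3 := by simp
    rw [h3, sub_neg_eq_add] at this
    exact this
  have h12 : ‖a ^ 3 - b ^ 3‖ = ‖a - b‖ * ‖3 * (a * b) + (a - b) ^ 2‖ := by rw [e1, norm_mul]
  have h13 : 15 / 16 ≤ ‖3 * (a * b) + (a - b) ^ 2‖ := by nlinarith
  have h14 : ‖a - b‖ * (15 / 16) ≤ ‖a - b‖ * ‖3 * (a * b) + (a - b) ^ 2‖ :=
    mul_le_mul_of_nonneg_left h13 h0
  nlinarith [norm_nonneg (P a b)]

lemma P_le {a b : ℂ} (ha : ‖a‖ ≤ 1) (hb : ‖b‖ ≤ 1) : ‖P a b‖ ≤ 2 * ‖1 - a ^ 3‖ + 3 * ‖a - b‖ := by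
  have e : P a b = 2 * (1 - a ^ 3) + (a - b) * (a * (2 * a + b)) := by unfold P; ring
  rw [e]
  refine (norm_add_le _ _).trans ?_
  rw [norm_mul, norm_mul, norm_mul a]
  have h3 : ‖(2 : ℂ)‖ = 2 := by simp
  have h4 : ‖2 * a + b‖ ≤ 3 := by
    refine (norm_add_le _ _).trans ?_
    rw [norm_mul, h3]; linarith
  have h5 : ‖a‖ * ‖2 * a + b‖ ≤ 3 := by
    have := mul_le_mul ha h4 (norm_nonneg _) (by norm_num : (0 : ℝ) ≤ 1)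
    linarith
  rw [h3]
  nlinarith [norm_nonneg (a - b)]

/-- two-sided bound of the chart -/
lemma chi_upper {a b : ℂ} (ha : ‖a‖ ≤ 1) (hb : ‖b‖ ≤ 1) :
    ‖chi a - chi b‖ ≤ 9 * (‖a - b‖ * (‖1 - a ^ 3‖ + ‖a - b‖)) := by
  rw [chi_sub ha hb, norm_div, norm_mul, norm_mul, norm_mul]
  have h3 : ‖(3 : ℂ)‖ = 3 := by simp
  have h1 := den_norm ha
  have h2 := den_norm hb
  have h4 := P_le ha hb
  rw [h3, div_le_iff₀ (by positivity)]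
  have h5 : 1 ≤ ‖2 + a ^ 3‖ * ‖2 + b ^ 3‖ := one_le_mul_of_one_le_of_one_le h1 h2
  have h6 : 0 ≤ ‖a - b‖ := norm_nonneg _
  have h7 : 0 ≤ ‖1 - a ^ 3‖ := norm_nonneg _
  have h8 : 3 * ‖a - b‖ * ‖P a b‖ ≤ 9 * (‖a - b‖ * (‖1 - a ^ 3‖ + ‖a - b‖)) := by
    have := mul_le_mul_of_nonneg_left h4 (by positivity : 0 ≤ 3 * ‖a - b‖)
    nlinarith [mul_nonneg h6 h7]
  have h9 : 0 ≤ 9 * (‖a - b‖ * (‖1 - a ^ 3‖ + ‖a - b‖)) := by positivity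
  nlinarith

lemma chi_lip {a b : ℂ} (ha : ‖a‖ ≤ 1) (hb : ‖b‖ ≤ 1) : ‖chi a - chi b‖ ≤ 36 * ‖a - b‖ := by
  have h := chi_upper ha hb
  have h1 : ‖1 - a ^ 3‖ ≤ 2 := by
    refine (norm_sub_le _ _).trans ?_
    rw [norm_pow, norm_one]
    have : ‖a‖ ^ 3 ≤ 1 := pow_le_one₀ (norm_nonneg _) ha
    linarith
  have hab : ‖a - b‖ ≤ 2 := by linarith [norm_sub_le a b]
  nlinarith [norm_nonneg (a - b)]

lemma chi_lower {a b : ℂ} (ha : a ∈ E) (hb : b ∈ E) :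
    ‖a - b‖ * (‖1 - a ^ 3‖ + ‖a - b‖) ≤ 36 * ‖chi a - chi b‖ := by
  rw [chi_sub ha.1 hb.1, norm_div, norm_mul, norm_mul, norm_mul]
  have h3 : ‖(3 : ℂ)‖ = 3 := by simp
  have h1 := den_le ha.1
  have h2 := den_le hb.1
  have h1' := den_norm ha.1
  have h2' := den_norm hb.1
  have h4 := P_ge_one ha hb
  have h5 := P_ge_lin ha hb
  have h6 : ‖1 - a ^ 3‖ + ‖a - b‖ ≤ 12 * ‖P a b‖ := by linarith [norm_nonneg (1 - b ^ 3)]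
  rw [h3, mul_div_assoc', le_div_iff₀ (by positivity)]
  have h7 : ‖2 + a ^ 3‖ * ‖2 + b ^ 3‖ ≤ 9 := by nlinarith
  have h8 : 0 ≤ ‖a - b‖ := norm_nonneg _
  have h9 : 0 ≤ ‖1 - a ^ 3‖ := norm_nonneg _
  calc ‖a - b‖ * (‖1 - a ^ 3‖ + ‖a - b‖) * (‖2 + a ^ 3‖ * ‖2 + b ^ 3‖)
      ≤ ‖a - b‖ * (‖1 - a ^ 3‖ + ‖a - b‖) * 9 := mul_le_mul_of_nonneg_left h7 (by positivity)
    _ ≤ ‖a - b‖ * (12 * ‖P a b‖) * 9 := by gcongr
    _ = 36 * (3 * ‖a - b‖ * ‖P a b‖) := by ring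

lemma chi_inj {a b : ℂ} (ha : ‖a‖ ≤ 1) (hb : ‖b‖ ≤ 1) (h : chi a = chi b) : a = b := by
  have h1 := chi_sub ha hb
  rw [h, sub_self] at h1
  have h2 : 3 * (a - b) * P a b = 0 := by
    rcases div_eq_zero_iff.1 h1.symm with h | h
    · exact h
    · exact absurd h (mul_ne_zero (den_ne ha) (den_ne hb))
  rcases mul_eq_zero.1 h2 with h | h
  · rcases mul_eq_zero.1 h with h | h
    · norm_num at h
    · exact sub_eq_zero.1 h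
  · have h3 := P_ge_sq ha hb
    rw [h, norm_zero, mul_zero] at h3
    have : ‖a - b‖ = 0 := by nlinarith [norm_nonneg (a - b)]
    exact sub_eq_zero.1 (norm_eq_zero.1 this)

end Pool.Agent.W5h43.SG
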