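import Pool.Agent.W5h43.SG.Chart

set_option autoImplicit false

/-!
# The set `E` is convex
-/

namespace Pool.Agent.W5h43.SG

open Complex Set

/-- the algebra behind the convexity: at a boundary point every critical direction is a strict
local maximum -/
lemma crit {t X Y p q : ℝ} (ht0 : 0 < t) (ht1 : t < 1) (hZ : X ^ 2 + Y ^ 2 = t ^ 3)
    (hphi : 4 + 4 * X + t ^ 3 - 9 * t = 0) (hc1 : 12 * (X * p - Y * q) + 6 * t ^ 3 * p - 18 * t * p = 0)
    (hpq : p ^ 2 + q ^ 2 ≠ 0) :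
    12 * (X * (p ^ 2 - q ^ 2) - 2 * Y * p * q) + 3 * t ^ 3 * (p ^ 2 + q ^ 2) + 12 * t ^ 3 * p ^ 2 -
      9 * t * (p ^ 2 + q ^ 2) < 0 := by
  have hX : X = (9 * t - 4 - t ^ 3) / 4 := by linarith
  have hY : 4 * (Y * q) = -(p * ((1 - t) * (t ^ 2 + t + 4))) := by
    rw [hX] at hc1; linear_combination (-1 / 3) * hc1
  have e2 : 12 * (X * (p ^ 2 - q ^ 2) - 2 * Y * p * q) + 3 * t ^ 3 * (p ^ 2 + q ^ 2) +
      12 * t ^ 3 * p ^ 2 - 9 * t * (p ^ 2 + q ^ 2) =
      6 * (p ^ 2 * (t ^ 3 + 2) + q ^ 2 * (t ^ 3 - 6 * t + 2)) := by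
    rw [hX]; linear_combination (-6) * p * hY
  rw [e2]
  set R : ℝ := -t ^ 4 - 2 * t ^ 3 + 15 * t ^ 2 + 40 * t - 16 with hR
  have hY2 : 16 * Y ^ 2 = (1 - t) ^ 2 * R := by
    rw [hR]
    have : Y ^ 2 = t ^ 3 - X ^ 2 := by linarith
    rw [this, hX]; ring
  have hRq : R * q ^ 2 = p ^ 2 * (t ^ 2 + t + 4) ^ 2 := by
    have h1 : (1 - t) ^ 2 * (R * q ^ 2) = (1 - t) ^ 2 * (p ^ 2 * (t ^ 2 + t + 4) ^ 2) := by
      have : (4 * (Y * q)) ^ 2 = (p * ((1 - t) * (t ^ 2 + t + 4))) ^ 2 := by rw [hY]; ring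
      linear_combination this - q ^ 2 * hY2
    exact mul_left_cancel₀ (pow_ne_zero 2 (by linarith)) h1
  have hR0 : 0 ≤ R := by
    by_contra hneg
    push Not at hneg
    have : 0 ≤ (1 - t) ^ 2 * R := by rw [← hY2]; positivity
    nlinarith [mul_pos (sub_pos.2 ht1) (sub_pos.2 ht1)]
  have hid : (t ^ 3 + 2) * R + (t ^ 2 + t + 4) ^ 2 * (t ^ 3 - 6 * t + 2) =
      -(18 * t ^ 3 * (1 - t) * (t + 3)) := by rw [hR]; ring
  have hpos : 0 < 18 * t ^ 3 * (1 - t) * (t + 3) := by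
    have : 0 < 1 - t := by linarith
    positivity
  rcases hR0.eq_or_lt with h0 | h0
  · have hp : p ^ 2 * (t ^ 2 + t + 4) ^ 2 = 0 := by rw [← hRq, ← h0]; ring
    have hp0 : p ^ 2 = 0 := by
      rcases mul_eq_zero.1 hp with h | h
      · exact h
      · exfalso; have : 0 < (t ^ 2 + t + 4) ^ 2 := by positivity
        linarith
    have hq : 0 < q ^ 2 := by
      rcases (sq_nonneg q).eq_or_lt with h | h
      · exfalso; apply hpq; rw [hp0, ← h]; ring
      · exact h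
    have h3 : t ^ 3 - 6 * t + 2 < 0 := by
      rw [← h0, mul_zero, zero_add] at hid
      have : 0 < (t ^ 2 + t + 4) ^ 2 := by positivity
      by_contra hn
      push Not at hn
      nlinarith [mul_nonneg this.le hn]
    rw [hp0]
    nlinarith
  · have key : R * (p ^ 2 * (t ^ 3 + 2) + q ^ 2 * (t ^ 3 - 6 * t + 2)) =
        p ^ 2 * (-(18 * t ^ 3 * (1 - t) * (t + 3))) := by
      rw [← hid]; linear_combination (t ^ 3 - 6 * t + 2) * hRq
    have hp : 0 < p ^ 2 := by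
      rcases (sq_nonneg p).eq_or_lt with h | h
      · exfalso
        rw [← h, zero_mul] at hRq
        rcases mul_eq_zero.1 hRq with h' | h'
        · linarith
        · apply hpq; rw [← h, h']; ring
      · exact h
    have h4 : p ^ 2 * (-(18 * t ^ 3 * (1 - t) * (t + 3))) < 0 := by nlinarith
    rw [← key] at h4
    have := (mul_neg_iff.1 h4).resolve_right (by rintro ⟨h5, -⟩; linarith)
    linarith [this.2]

lemma phi_expand (z δ : ℂ) (h : ℝ) : phi (z + h * δ) =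
    phi z + h * (12 * (z ^ 2 * δ).re + 6 * normSq z ^ 2 * (z.re * δ.re + z.im * δ.im) -
      18 * (z.re * δ.re + z.im * δ.im)) +
    h ^ 2 * (12 * (z * δ ^ 2).re + 3 * normSq z ^ 2 * normSq δ +
      12 * normSq z * (z.re * δ.re + z.im * δ.im) ^ 2 - 9 * normSq δ) +
    h ^ 3 * (4 * (δ ^ 3).re + 12 * normSq z * (z.re * δ.re + z.im * δ.im) * normSq δ +
      8 * (z.re * δ.re + z.im * δ.im) ^ 3) +
    h ^ 4 * (3 * normSq z * normSq δ ^ 2 +
      12 * (z.re * δ.re + z.im * δ.im) ^ 2 * normSq δ) +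
    h ^ 5 * (6 * (z.re * δ.re + z.im * δ.im) * normSq δ ^ 2) + h ^ 6 * normSq δ ^ 3 := by
  unfold phi
  simp only [normSq_apply, pow_succ, pow_zero, one_mul, add_re, add_im, mul_re, mul_im, ofReal_re,
    ofReal_im, zero_mul, sub_zero, add_zero]
  ring

lemma phi_crit {z δ : ℂ} (hz0 : z ≠ 0) (hz1 : normSq z < 1) (hφ : phi z = 0) (hδ : δ ≠ 0)
    (h1 : 12 * (z ^ 2 * δ).re + 6 * normSq z ^ 2 * (z.re * δ.re + z.im * δ.im) -
      18 * (z.re * δ.re + z.im * δ.im) = 0) :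
    12 * (z * δ ^ 2).re + 3 * normSq z ^ 2 * normSq δ +
      12 * normSq z * (z.re * δ.re + z.im * δ.im) ^ 2 - 9 * normSq δ < 0 := by
  obtain ⟨d, rfl⟩ : ∃ d : ℂ, δ = z * d := ⟨δ / z, by field_simp⟩
  have hd : d ≠ 0 := fun h => hδ (by rw [h, mul_zero])
  set t := normSq z with ht
  have ht0 : 0 < t := normSq_pos.2 hz0
  have hZ : (z ^ 3).re ^ 2 + (z ^ 3).im ^ 2 = t ^ 3 := by
    have : normSq (z ^ 3) = t ^ 3 := by rw [map_pow]
    rw [← this, normSq_apply]; ring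
  have hm : z.re * (z * d).re + z.im * (z * d).im = t * d.re := by
    rw [ht, normSq_apply, mul_re, mul_im]; ring
  have hd1 : normSq (z * d) = t * (d.re ^ 2 + d.im ^ 2) := by
    rw [map_mul, ← ht, normSq_apply d]; ring
  have h2 : (z ^ 2 * (z * d)).re = (z ^ 3).re * d.re - (z ^ 3).im * d.im := by
    rw [show z ^ 2 * (z * d) = z ^ 3 * d by ring, mul_re]
  have h3 : (z * (z * d) ^ 2).re = (z ^ 3).re * (d.re ^ 2 - d.im ^ 2) -
      2 * (z ^ 3).im * d.re * d.im := by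
    rw [show z * (z * d) ^ 2 = z ^ 3 * d ^ 2 by ring, mul_re, pow_two d, mul_re, mul_im]; ring
  rw [hm, h2] at h1
  rw [hm, h3, hd1]
  have key := crit ht0 hz1 hZ (by unfold phi at hφ; rw [← ht] at hφ; linarith)
    (p := d.re) (q := d.im) (by linear_combination h1) (by
      intro h
      apply hd
      apply Complex.ext
      · simp only [zero_re]; nlinarith [sq_nonneg d.re, sq_nonneg d.im]
      · simp only [zero_im]; nlinarith [sq_nonneg d.re, sq_nonneg d.im])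
  have : 12 * ((z ^ 3).re * (d.re ^ 2 - d.im ^ 2) - 2 * (z ^ 3).im * d.re * d.im) +
      3 * t ^ 2 * (t * (d.re ^ 2 + d.im ^ 2)) + 12 * t * (t * d.re) ^ 2 -
      9 * (t * (d.re ^ 2 + d.im ^ 2)) =
      12 * ((z ^ 3).re * (d.re ^ 2 - d.im ^ 2) - 2 * (z ^ 3).im * d.re * d.im) +
      3 * t ^ 3 * (d.re ^ 2 + d.im ^ 2) + 12 * t ^ 3 * d.re ^ 2 -
      9 * t * (d.re ^ 2 + d.im ^ 2) := by ring
  rw [this]
  exact key

/-- `E` is star-shaped -/
lemma phi_star {a : ℂ} (ha : ‖a‖ ≤ 1) (hφ : 0 ≤ phi a) {s : ℝ} (hs0 : 0 ≤ s) (hs1 : s < 1) :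
    0 < phi (s * a) := by
  have ht := normSq_le ha
  have ht0 := normSq_nonneg a
  unfold phi at hφ ⊢
  set t := normSq a
  have e1 : ((s * a : ℂ) ^ 3).re = s ^ 3 * (a ^ 3).re := by
    rw [mul_pow, ← ofReal_pow, re_ofReal_mul]
  have e2 : normSq (s * a : ℂ) = s ^ 2 * t := by rw [map_mul, normSq_ofReal]; ring
  rw [e1, e2]
  set X := (a ^ 3).re
  have h1 : s ^ 3 * (9 * t - 4 - t ^ 3) ≤ 4 * (s ^ 3 * X) := by
    have : 0 ≤ s ^ 3 := by positivity
    nlinarith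
  have h2 : 0 < (1 - s) * ((1 - s) * (4 + 8 * s + 3 * s ^ 2 + 2 * s ^ 3 + s ^ 4)) := by
    have : 0 < 1 - s := by linarith
    positivity
  have h3 : 0 ≤ (1 - s) * (9 * s ^ 2 * (1 - t) + s ^ 3 * (1 + s + s ^ 2) * (1 - t ^ 3)) := by
    have h31 : 0 ≤ 1 - s := by linarith
    have h32 : 0 ≤ 1 - t := by linarith
    have h33 : 0 ≤ 1 - t ^ 3 := by
      have : t ^ 3 ≤ 1 := pow_le_one₀ ht0 ht
      linarith
    positivity
  nlinarith

lemma continuous_phi : Continuous phi := by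
  unfold phi
  exact ((continuous_const.add (continuous_const.mul (Complex.continuous_re.comp
    (continuous_pow 3)))).add (Complex.continuous_normSq.pow 3)).sub
    (continuous_const.mul Complex.continuous_normSq)

lemma lim_nonneg (p : ℝ → ℝ) (hp : Continuous p) {ε : ℝ} (hε : 0 < ε)
    (h : ∀ x, 0 < x → x ≤ ε → 0 ≤ p x) : 0 ≤ p 0 := by
  have hcl : (0:ℝ) ∈ closure (Ioc (0:ℝ) ε) := by
    rw [closure_Ioc hε.ne]; exact ⟨le_rfl, hε.le⟩
  have := closure_minimal (s := p '' Ioc 0 ε) (t := Ici 0) (by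
      rintro _ ⟨x, ⟨h4, h5⟩, rfl⟩
      exact h x h4 h5) isClosed_Ici
  exact this (hp.continuousWithinAt.mem_closure_image hcl)

lemma coeffs {c1 c2 c3 c4 c5 c6 ε : ℝ} (hε : 0 < ε)
    (hexp : ∀ h : ℝ, |h| ≤ ε → 0 ≤ h * c1 + h ^ 2 * c2 + h ^ 3 * c3 + h ^ 4 * c4 + h ^ 5 * c5 +
      h ^ 6 * c6) : c1 = 0 ∧ 0 ≤ c2 := by
  refine ⟨le_antisymm ?_ ?_, ?_⟩
  · have := lim_nonneg (fun h : ℝ => -c1 + h * c2 - h ^ 2 * c3 + h ^ 3 * c4 - h ^ 4 * c5 +
      h ^ 5 * c6) (by fun_prop) hε (fun h h0 h1 => by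
        have e2 := hexp (-h) (by rw [abs_neg, abs_of_pos h0]; exact h1)
        have : 0 ≤ h * (-c1 + h * c2 - h ^ 2 * c3 + h ^ 3 * c4 - h ^ 4 * c5 +
          h ^ 5 * c6) := by
          have e : h * (-c1 + h * c2 - h ^ 2 * c3 + h ^ 3 * c4 - h ^ 4 * c5 +
            h ^ 5 * c6) = -h * c1 + (-h) ^ 2 * c2 + (-h) ^ 3 * c3 + (-h) ^ 4 * c4 +
              (-h) ^ 5 * c5 + (-h) ^ 6 * c6 := by ring
          rw [e]; exact e2
        exact nonneg_of_mul_nonneg_right this h0)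
    norm_num at this
    linarith
  · have := lim_nonneg (fun h : ℝ => c1 + h * c2 + h ^ 2 * c3 + h ^ 3 * c4 + h ^ 4 * c5 +
      h ^ 5 * c6) (by fun_prop) hε (fun h h0 h1 => by
        have e2 := hexp h (by rw [abs_of_pos h0]; exact h1)
        have : 0 ≤ h * (c1 + h * c2 + h ^ 2 * c3 + h ^ 3 * c4 + h ^ 4 * c5 +
          h ^ 5 * c6) := by
          have e : h * (c1 + h * c2 + h ^ 2 * c3 + h ^ 3 * c4 + h ^ 4 * c5 +
            h ^ 5 * c6) = h * c1 + h ^ 2 * c2 + h ^ 3 * c3 + h ^ 4 * c4 + h ^ 5 * c5 +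
              h ^ 6 * c6 := by ring
          rw [e]; exact e2
        exact nonneg_of_mul_nonneg_right this h0)
    norm_num at this
    linarith
  · have := lim_nonneg (fun h : ℝ => c2 + h ^ 2 * c4 + h ^ 4 * c6) (by fun_prop) hε
      (fun h h0 h1 => by
        have e1 := hexp h (by rw [abs_of_pos h0]; exact h1)
        have e2 := hexp (-h) (by rw [abs_neg, abs_of_pos h0]; exact h1)
        have : 0 ≤ h ^ 2 * (c2 + h ^ 2 * c4 + h ^ 4 * c6) := by
          have e : h ^ 2 * (c2 + h ^ 2 * c4 + h ^ 4 * c6) = ((h * c1 + h ^ 2 * c2 + h ^ 3 * c3 +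
            h ^ 4 * c4 + h ^ 5 * c5 + h ^ 6 * c6) + (-h * c1 + (-h) ^ 2 * c2 + (-h) ^ 3 * c3 +
              (-h) ^ 4 * c4 + (-h) ^ 5 * c5 + (-h) ^ 6 * c6)) / 2 := by ring
          rw [e]; linarith
        exact nonneg_of_mul_nonneg_right this (by positivity))
    norm_num at this
    linarith

lemma phi_segment {a b : ℂ} (ha : ‖a‖ ≤ 1) (hb : ‖b‖ ≤ 1) (hφa : 0 ≤ phi a) (hφb : 0 ≤ phi b)
    {t : ℝ} (ht0 : 0 ≤ t) (ht1 : t ≤ 1) : 0 ≤ phi (a + t * (b - a)) := by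
  by_contra hneg
  push Not at hneg
  have hab : a ≠ b := by
    rintro rfl
    simp only [sub_self, mul_zero, add_zero] at hneg
    linarith
  let z : ℝ → ℂ := fun x => a + x * (b - a)
  have hz : Continuous z := by
    exact continuous_const.add (Complex.continuous_ofReal.mul continuous_const)
  have hzn : ∀ x, 0 ≤ x → x ≤ 1 → ‖z x‖ ≤ 1 := by
    intro x hx0 hx1
    have : z x = (1 - x : ℝ) * a + (x : ℝ) * b := by simp only [z]; push_cast; ring
    rw [this]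
    refine (norm_add_le _ _).trans ?_
    rw [norm_mul, norm_mul, norm_real, norm_real, Real.norm_of_nonneg (by linarith),
      Real.norm_of_nonneg hx0]
    nlinarith [norm_nonneg a, norm_nonneg b]
  let K : Set (ℝ × ℝ) := (Icc 0 1 ×ˢ Icc 0 1) ∩ {p | phi (p.1 * z p.2) ≤ 0}
  have hK : IsCompact K := by
    refine (isCompact_Icc.prod isCompact_Icc).inter_right ?_
    refine isClosed_le ?_ continuous_const
    exact continuous_phi.comp ((Complex.continuous_ofReal.comp continuous_fst).mul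
      (hz.comp continuous_snd))
  have hKn : K.Nonempty := ⟨(1, t), ⟨⟨by norm_num, by norm_num⟩, ⟨ht0, ht1⟩⟩, by
    simp only [mem_ofPred_eq, ofReal_one, one_mul]; exact hneg.le⟩
  obtain ⟨⟨s, x⟩, ⟨⟨⟨hs0, hs1⟩, hx0, hx1⟩, hsx⟩, hmin⟩ := hK.exists_isMinOn hKn continuous_fst.continuousOn
  simp only [mem_ofPred_eq] at hsx hs0 hs1 hx0 hx1
  have hlt : ∀ s' : ℝ, 0 ≤ s' → s' < s → ∀ x', 0 ≤ x' → x' ≤ 1 → 0 < phi (s' * z x') := by
    intro s' h0 h1 x' h2 h3
    by_contra hn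
    push Not at hn
    have := hmin (show (s', x') ∈ K from ⟨⟨⟨h0, by linarith⟩, ⟨h2, h3⟩⟩, hn⟩)
    simp only [mem_ofPred_eq] at this
    linarith
  have hs00 : 0 < s := by
    rcases hs0.eq_or_lt with h | h
    · exfalso
      rw [← h] at hsx
      simp [phi] at hsx
      linarith
    · exact h
  have hge : ∀ x', 0 ≤ x' → x' ≤ 1 → 0 ≤ phi (s * z x') := by
    intro x' h2 h3
    have hc : ContinuousWithinAt (fun s' : ℝ => phi (s' * z x')) (Ico 0 s) s :=
      (continuous_phi.comp ((Complex.continuous_ofReal.mul continuous_const))).continuousWithinAt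
    have hcl : s ∈ closure (Ico (0:ℝ) s) := by
      rw [closure_Ico hs00.ne]; exact ⟨hs00.le, le_rfl⟩
    have := closure_minimal (s := (fun s' : ℝ => phi (s' * z x')) '' Ico 0 s) (t := Ici 0) (by
      rintro _ ⟨s', ⟨h4, h5⟩, rfl⟩
      exact (hlt s' h4 h5 x' h2 h3).le) isClosed_Ici
    exact this (hc.mem_closure_image hcl)
  have hs11 : s < 1 := by
    rcases hs1.eq_or_lt with h | h
    · exfalso
      have := hge t ht0 ht1
      rw [h, ofReal_one, one_mul] at this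
      exact absurd hneg (not_lt.2 this)
    · exact h
  have hphi0 : phi (s * z x) = 0 := le_antisymm hsx (hge x hx0 hx1)
  have hx0' : 0 < x := by
    rcases hx0.eq_or_lt with h | h
    · exfalso
      have h1 : z x = a := by rw [← h]; simp [z]
      rw [h1] at hphi0
      linarith [phi_star ha hφa hs00.le hs11]
    · exact h
  have hx1' : x < 1 := by
    rcases hx1.eq_or_lt with h | h
    · exfalso
      have h1 : z x = b := by rw [h]; simp [z]
      rw [h1] at hphi0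
      linarith [phi_star hb hφb hs00.le hs11]
    · exact h
  -- expansion at the touching point
  set w : ℂ := s * z x with hw
  set δ : ℂ := s * (b - a) with hδ
  have hδ0 : δ ≠ 0 := mul_ne_zero (by exact_mod_cast hs00.ne') (sub_ne_zero.2 hab.symm)
  have hw0 : w ≠ 0 := by
    intro h
    rw [h] at hphi0
    simp [phi] at hphi0
  have hw1 : normSq w < 1 := by
    rw [hw, map_mul, normSq_ofReal]
    have := normSq_le (hzn x hx0 hx1)
    have h0 := normSq_nonneg (z x)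
    nlinarith
  have hex : ∀ h : ℝ, 0 ≤ x + h → x + h ≤ 1 → 0 ≤ phi (w + h * δ) := by
    intro h h1 h2
    have : w + h * δ = s * z (x + h) := by rw [hw, hδ]; simp only [z]; push_cast; ring
    rw [this]
    exact hge _ h1 h2
  obtain ⟨ε, hε, hε0, hε1⟩ : ∃ ε : ℝ, 0 < ε ∧ 0 ≤ x - ε ∧ x + ε ≤ 1 :=
    ⟨min x (1 - x), lt_min hx0' (by linarith), by linarith [min_le_left x (1 - x)],
      by linarith [min_le_right x (1 - x)]⟩
  set c1 : ℝ := 12 * (w ^ 2 * δ).re + 6 * normSq w ^ 2 * (w.re * δ.re + w.im * δ.im) -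
      18 * (w.re * δ.re + w.im * δ.im) with hc1
  set c2 : ℝ := 12 * (w * δ ^ 2).re + 3 * normSq w ^ 2 * normSq δ +
      12 * normSq w * (w.re * δ.re + w.im * δ.im) ^ 2 - 9 * normSq δ with hc2
  set c3 : ℝ := 4 * (δ ^ 3).re + 12 * normSq w * (w.re * δ.re + w.im * δ.im) * normSq δ +
      8 * (w.re * δ.re + w.im * δ.im) ^ 3 with hc3
  set c4 : ℝ := 3 * normSq w * normSq δ ^ 2 +
      12 * (w.re * δ.re + w.im * δ.im) ^ 2 * normSq δ with hc4
  set c5 : ℝ := 6 * (w.re * δ.re + w.im * δ.im) * normSq δ ^ 2 with hc5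
  set c6 : ℝ := normSq δ ^ 3 with hc6
  have hexp : ∀ h : ℝ, |h| ≤ ε → 0 ≤ h * c1 + h ^ 2 * c2 + h ^ 3 * c3 + h ^ 4 * c4 + h ^ 5 * c5 +
      h ^ 6 * c6 := by
    intro h hh
    have h1 := abs_le.1 hh
    have := hex h (by linarith [h1.1]) (by linarith [h1.2])
    rw [phi_expand, hphi0] at this
    linarith
  obtain ⟨hc1z, hc2n⟩ := coeffs hε hexp
  exact absurd (phi_crit hw0 hw1 hphi0 hδ0 hc1z) (not_lt.2 hc2n)

lemma mem_E_iff {z : ℂ} : z ∈ E ↔ ‖z‖ ≤ 1 ∧ 0 ≤ phi z :=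
  ⟨fun h => ⟨h.1, (chi_le_iff h.1).1 h.2⟩, fun h => ⟨h.1, (chi_le_iff h.1).2 h.2⟩⟩

theorem convex_E : Convex ℝ E := by
  rw [convex_iff_forall_pos]
  intro a ha b hb s t hs ht hst
  rw [mem_E_iff] at ha hb ⊢
  have e : s • a + t • b = a + t * (b - a) := by
    have : s = 1 - t := by linarith
    rw [this, real_smul, real_smul]; push_cast; ring
  rw [e]
  refine ⟨?_, phi_segment ha.1 hb.1 ha.2 hb.2 ht.le (by linarith)⟩
  rw [← e]
  refine (norm_add_le _ _).trans ?_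
  rw [norm_smul, norm_smul, Real.norm_of_nonneg hs.le, Real.norm_of_nonneg ht.le]
  nlinarith [ha.1, hb.1]

lemma isCompact_E : IsCompact E := by
  have : E = Metric.closedBall (0:ℂ) 1 ∩ {z | 0 ≤ phi z} := by
    ext z
    rw [mem_E_iff]
    simp
  rw [this]
  exact (isCompact_closedBall _ _).inter_right (isClosed_le continuous_const continuous_phi)

lemma zero_mem_E : (0 : ℂ) ∈ E := by
  rw [mem_E_iff]
  simp [phi]

end Pool.Agent.W5h43.SG
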