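import Pool.Agent.W5h43.SG.Sector

set_option autoImplicit false

/-!
# The lifted branch
-/

namespace Pool.Agent.W5h43.SG

open Complex Set Topology

/-- the lifted main branch -/
noncomputable def Ga (z : ℂ) : ℂ := F (G (chi z))

/-- `E` without the corners -/
def E' : Set ℂ := {z | z ∈ E ∧ z ^ 3 ≠ 1}

lemma convex_E' : Convex ℝ E' := convex_punct convex_E fun _ hz => hz.1

lemma Ga_mem {z : ℂ} (h : z ∈ E) : Ga z ∈ E := F_mem (root_norm_le h.2 (G_eq _))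

lemma chi_Ga {z : ℂ} (h : z ∈ E) : chi (Ga z) = G (chi z) := chi_F (root_norm_le h.2 (G_eq _))

lemma chi_nc {z : ℂ} (h : z ∈ E') : chi z ^ 3 ≠ 1 := fun h1 => h.2 (chi_cube_eq_one h.1 h1)

lemma G_lt {z : ℂ} (h : z ∈ E') : ‖G (chi z)‖ < 1 := root_norm_lt h.1.2 (chi_nc h) (G_eq _)

lemma Ga_nc {z : ℂ} (h : z ∈ E') : Ga z ^ 3 ≠ 1 := by
  intro h1
  have h2 := chi_corner h1
  rw [chi_Ga h.1] at h2
  have := G_lt h
  rw [h2, corner_norm h1] at this
  exact lt_irrefl _ this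

/-- the derivative -/
noncomputable def dGa (z : ℂ) : ℂ :=
  (dchi (Ga z))⁻¹ * (G (chi z) / (4 * G (chi z) ^ 2 - chi z) * dchi z)

lemma hasDerivAt_Ga {z : ℂ} (h : z ∈ E') : HasDerivAt Ga (dGa z) z := by
  have h1 := hasDerivAt_chi h.1.1
  have h2 := hasDerivAt_G h.1.2 (chi_nc h)
  have h3 := hasDerivAt_F (G_lt h)
  have h4 : HasDerivAt (fun z => G (chi z)) _ z := h2.comp z h1
  exact h3.comp z h4

lemma continuousOn_Ga : ContinuousOn Ga E := by
  have h1 : ContinuousOn chi E := continuousOn_chi.mono fun z hz => by simpa using hz.1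
  have h2 : ContinuousOn (fun z => G (chi z)) E :=
    continuousOn_G.comp h1 fun z hz => by simpa using hz.2
  exact continuousOn_F.comp h2 fun z hz => by simpa using root_norm_le hz.2 (G_eq _)

lemma continuousOn_dchi : ContinuousOn dchi (Metric.closedBall 0 1) := by
  unfold dchi
  refine ContinuousOn.div (by fun_prop) (by fun_prop) fun z hz =>
    pow_ne_zero _ (den_ne (by simpa using hz))

lemma continuousOn_dGa : ContinuousOn dGa E' := by
  have h1 : ContinuousOn chi E' := continuousOn_chi.mono fun z hz => by simpa using hz.1.1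
  have h2 : ContinuousOn (fun z => G (chi z)) E' :=
    continuousOn_G.comp h1 fun z hz => by simpa using hz.1.2
  have h3 : ContinuousOn (fun z => dchi (Ga z)) E' :=
    continuousOn_dchi.comp (continuousOn_Ga.mono fun z hz => hz.1) fun z hz => by
      simpa using (Ga_mem hz.1).1
  unfold dGa
  refine (h3.inv₀ fun z hz => dchi_ne (Ga_mem hz.1).1 (Ga_nc hz)).mul
    ((h2.div ((continuousOn_const.mul (h2.pow 2)).sub h1) fun z hz => dG_den (chi_nc hz)).mul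
      (continuousOn_dchi.mono fun z hz => by simpa using hz.1.1))

lemma den8_norm {z : ℂ} (h : ‖z‖ ≤ 1) : 7 ≤ ‖8 + z ^ 3‖ := by
  have h1 : ‖z ^ 3‖ ≤ 1 := by rw [norm_pow]; exact pow_le_one₀ (norm_nonneg _) h
  have h2 : ‖(8 : ℂ)‖ ≤ ‖8 + z ^ 3‖ + ‖z ^ 3‖ := by
    have := norm_sub_le (8 + z ^ 3) (z ^ 3)
    simpa using this
  have h3 : ‖(8 : ℂ)‖ = 8 := by simp
  linarith

lemma den8_le {z : ℂ} (h : ‖z‖ ≤ 1) : ‖8 + z ^ 3‖ ≤ 9 := by
  have h1 : ‖z ^ 3‖ ≤ 1 := by rw [norm_pow]; exact pow_le_one₀ (norm_nonneg _) h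
  have h2 := norm_add_le (8 : ℂ) (z ^ 3)
  have h3 : ‖(8 : ℂ)‖ = 8 := by simp
  linarith

lemma den8_ne {z : ℂ} (h : ‖z‖ ≤ 1) : 8 + z ^ 3 ≠ 0 := by
  intro h0
  have := den8_norm h
  rw [h0, norm_zero] at this
  linarith

/-- the square of the derivative -/
lemma dGa_sq {z : ℂ} (h : z ∈ E') :
    dGa z ^ 2 * (3 * ((2 + z ^ 3) * (8 + z ^ 3))) =
      G (chi z) * ((2 + Ga z ^ 3) * (8 + Ga z ^ 3)) := by
  have a1 := dchi_sq h.1.1
  have a2 := dchi_sq (Ga_mem h.1).1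
  rw [chi_Ga h.1] at a2
  have a3 := root_cube (G_eq (chi z))
  have hnc := chi_nc h
  have b1 : dchi (Ga z) ≠ 0 := dchi_ne (Ga_mem h.1).1 (Ga_nc h)
  have b2 := dG_den hnc
  have b3 : (1 : ℂ) - chi z ^ 3 ≠ 0 := sub_ne_zero.2 hnc.symm
  have b4 : (1 : ℂ) - G (chi z) ^ 3 ≠ 0 := sub_ne_zero.2 (root_nc1 hnc (G_eq _)).symm
  have b5 := root_nc2 hnc (G_eq (chi z))
  have b6 := G_ne (chi z)
  have e1 : 3 * G (chi z) * (4 * G (chi z) ^ 2 - chi z) = 8 * G (chi z) ^ 3 + 1 := by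
    linear_combination G_eq (chi z)
  unfold dGa
  set W := G (chi z)
  set w := chi z
  set p := (2 + z ^ 3) * (8 + z ^ 3)
  set p' := (2 + Ga z ^ 3) * (8 + Ga z ^ 3)
  set d := dchi z
  set d' := dchi (Ga z)
  set m := 4 * W ^ 2 - w
  -- d² p = 36 (1-w³), d'² p' = 36 (1-W³), (1-W³)(8W³+1)² = 27 W³ (1-w³), 3Wm = 8W³+1
  have e2 : (1 - W ^ 3) * m ^ 2 = 3 * W * (1 - w ^ 3) := by
    have : 9 * W ^ 2 * ((1 - W ^ 3) * m ^ 2) = 9 * W ^ 2 * (3 * W * (1 - w ^ 3)) := by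
      linear_combination a3 + (1 - W ^ 3) * (3 * W * m + (8 * W ^ 3 + 1)) * e1
    exact mul_left_cancel₀ (mul_ne_zero (by norm_num) (pow_ne_zero 2 b6)) this
  have e3 : W ^ 2 * d ^ 2 * (3 * p) = W * p' * (d' ^ 2 * m ^ 2) := by
    have h1 : W ^ 2 * d ^ 2 * (3 * p) = 108 * W ^ 2 * (1 - w ^ 3) := by
      linear_combination 3 * W ^ 2 * a1
    have h2 : W * p' * (d' ^ 2 * m ^ 2) = 108 * W ^ 2 * (1 - w ^ 3) := by
      linear_combination W * m ^ 2 * a2 + 36 * W * e2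
    rw [h1, h2]
  have : ((d')⁻¹ * (W / m * d)) ^ 2 * (3 * p) = W ^ 2 * d ^ 2 * (3 * p) / (d' ^ 2 * m ^ 2) := by
    field_simp
  rw [this, e3]
  field_simp

/-! ## Sectors for products -/

/-- a sector around the positive axis -/
def S (κ : ℝ) (z : ℂ) : Prop := |z.im| ≤ κ * z.re

lemma S_mul {α β : ℝ} (hαβ : α * β < 1) {a b : ℂ} (hα : 0 ≤ α) (hβ : 0 ≤ β)
    (ha : S α a) (hb : S β b) (ha0 : 0 ≤ a.re) (hb0 : 0 ≤ b.re) :
    S ((α + β) / (1 - α * β)) (a * b) ∧ (1 - α * β) * (a.re * b.re) ≤ (a * b).re := by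
  unfold S at *
  have h1 : |a.im * b.im| ≤ α * β * (a.re * b.re) := by
    rw [abs_mul]
    calc |a.im| * |b.im| ≤ (α * a.re) * (β * b.re) :=
          mul_le_mul ha hb (abs_nonneg _) (by positivity)
      _ = _ := by ring
  have h2 : (1 - α * β) * (a.re * b.re) ≤ (a * b).re := by
    rw [mul_re]
    have := (abs_le.1 h1).2
    linarith
  refine ⟨?_, h2⟩
  have h3 : |(a * b).im| ≤ (α + β) * (a.re * b.re) := by
    rw [mul_im]
    calc |a.re * b.im + a.im * b.re| ≤ |a.re * b.im| + |a.im * b.re| := abs_add_le _ _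
      _ = a.re * |b.im| + |a.im| * b.re := by
        rw [abs_mul, abs_mul, abs_of_nonneg ha0, abs_of_nonneg hb0]
      _ ≤ a.re * (β * b.re) + (α * a.re) * b.re := by gcongr
      _ = _ := by ring
  have h4 : 0 < 1 - α * β := by linarith
  refine h3.trans ?_
  rw [div_mul_eq_mul_div, le_div_iff₀ h4]
  nlinarith [mul_le_mul_of_nonneg_left h2 (by positivity : 0 ≤ α + β)]

lemma S_mono {α β : ℝ} (h : α ≤ β) {a : ℂ} (ha : S α a) (ha0 : 0 ≤ a.re) : S β a := by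
  unfold S at *
  nlinarith

lemma S_inv {α : ℝ} {a : ℂ} (ha : S α a) : S α a⁻¹ := by
  unfold S at *
  rw [inv_re, inv_im, neg_div, abs_neg, abs_div, abs_of_nonneg (normSq_nonneg a), mul_div_assoc']
  exact div_le_div_of_nonneg_right ha (normSq_nonneg a)

/-- the square root -/
noncomputable def sq (z : ℂ) : ℂ := z ^ (((2 : ℕ) : ℂ)⁻¹)

lemma sq_sq (z : ℂ) : sq z ^ 2 = z := cpow_nat_inv_pow _ (by norm_num)

lemma sq_re (z : ℂ) : 0 ≤ (sq z).re := by
  unfold sq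
  by_cases h : z = 0
  · rw [h, zero_cpow (by norm_num)]; simp
  · rw [cpow_def_of_ne_zero h, exp_re]
    refine mul_nonneg (Real.exp_pos _).le (Real.cos_nonneg_of_mem_Icc ?_)
    have e : (log z * (((2 : ℕ) : ℂ)⁻¹)).im = z.arg / 2 := by
      have : (((2 : ℕ) : ℂ)⁻¹) = ((1 / 2 : ℝ) : ℂ) := by push_cast; norm_num
      rw [this, mul_comm, im_ofReal_mul, log_im]; ring
    rw [e]
    constructor
    · linarith [neg_pi_lt_arg z]
    · linarith [arg_le_pi z]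

/-- halving of sectors -/
lemma S_sq {κ m : ℝ} (hm : 0 < m) (hm1 : m < 1) (hκ : κ * (1 - m ^ 2) ≤ 2 * m) (hκ0 : 0 < κ)
    {z : ℂ} (hz : S κ z) : S m (sq z) := by
  have h1 := sq_sq z
  have h2 := sq_re z
  unfold S at *
  set r := sq z
  have e1 : z.re = r.re ^ 2 - r.im ^ 2 := by rw [← h1, pow_two, mul_re]; ring
  have e2 : z.im = 2 * r.re * r.im := by rw [← h1, pow_two, mul_im]; ring
  rw [e1, e2, abs_mul, abs_of_nonneg (by positivity)] at hz
  by_contra hn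
  push Not at hn
  have h3 : 0 < |r.im| := lt_of_le_of_lt (by positivity) hn
  have h4 : r.im ^ 2 = |r.im| ^ 2 := (sq_abs _).symm
  rw [h4] at hz
  set y := |r.im|
  set x := r.re
  -- 2 x y ≤ κ (x² - y²), m x < y
  rcases h2.eq_or_lt with h0 | h0
  · rw [← h0] at hz hn
    nlinarith [mul_pos hκ0 (mul_pos h3 h3)]
  · have h5 : κ * (x ^ 2 - y ^ 2) ≤ κ * (x ^ 2 * (1 - m ^ 2)) := by
      apply mul_le_mul_of_nonneg_left _ hκ0.le
      nlinarith [mul_pos hm h0]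
    have h6 : κ * (x ^ 2 * (1 - m ^ 2)) ≤ 2 * m * x ^ 2 := by
      nlinarith [mul_le_mul_of_nonneg_left hκ (sq_nonneg x)]
    have h7 : 2 * m * x ^ 2 < 2 * x * y := by nlinarith
    linarith

end Pool.Agent.W5h43.SG
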