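import Pool.Agent.W5h43.SG.Gam

set_option autoImplicit false

/-!
# Bounds of the derivative of the lifted branch
-/

namespace Pool.Agent.W5h43.SG

open Complex Set Topology

lemma S_two {z : ℂ} (h : ‖z‖ ≤ 1) : S (Real.sqrt 3 / 3) (2 + z ^ 3) ∧ 0 < (2 + z ^ 3).re := by
  have h1 : ‖z ^ 3‖ ≤ 1 := by rw [norm_pow]; exact pow_le_one₀ (norm_nonneg _) h
  have h2 : normSq (z ^ 3) ≤ 1 := by rw [normSq_eq_norm_sq]; exact pow_le_one₀ (norm_nonneg _) h1
  rw [normSq_apply] at h2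
  set Z := z ^ 3
  have hs := sqrt3_sq
  have hs0 : 0 < Real.sqrt 3 := Real.sqrt_pos.2 (by norm_num)
  have e1 : (2 + Z).re = 2 + Z.re := by simp
  have e2 : (2 + Z).im = Z.im := by simp
  have h3 : -1 ≤ Z.re := by nlinarith
  unfold S
  rw [e1, e2]
  refine ⟨?_, by linarith⟩
  have h4 : |Z.im| ^ 2 ≤ (Real.sqrt 3 / 3 * (2 + Z.re)) ^ 2 := by
    rw [sq_abs, mul_pow, div_pow, hs]
    nlinarith [sq_nonneg (2 * Z.re + 1)]
  exact le_of_sq_le_sq h4 (by have : 0 ≤ 2 + Z.re := by linarith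
                              positivity)

lemma S_eight {z : ℂ} (h : ‖z‖ ≤ 1) : S (13 / 100) (8 + z ^ 3) ∧ 0 < (8 + z ^ 3).re := by
  have h1 : ‖z ^ 3‖ ≤ 1 := by rw [norm_pow]; exact pow_le_one₀ (norm_nonneg _) h
  have h2 : normSq (z ^ 3) ≤ 1 := by rw [normSq_eq_norm_sq]; exact pow_le_one₀ (norm_nonneg _) h1
  rw [normSq_apply] at h2
  set Z := z ^ 3
  have e1 : (8 + Z).re = 8 + Z.re := by simp
  have e2 : (8 + Z).im = Z.im := by simp
  have h3 : -1 ≤ Z.re := by nlinarith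
  unfold S
  rw [e1, e2]
  refine ⟨?_, by linarith⟩
  have h4 : |Z.im| ^ 2 ≤ (13 / 100 * (8 + Z.re)) ^ 2 := by
    rw [sq_abs, mul_pow]
    nlinarith [sq_nonneg (Z.re + 1 / 8)]
  exact le_of_sq_le_sq h4 (by linarith)

/-- the square root of the square of the derivative -/
noncomputable def sD (z : ℂ) : ℂ :=
  ((sq (2 + Ga z ^ 3) * (sq (2 + z ^ 3))⁻¹) * (sq (8 + Ga z ^ 3) * (sq (8 + z ^ 3))⁻¹)) *
    sq (G (chi z))

lemma sD_sq {z : ℂ} (h : z ∈ E') :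
    sD z ^ 2 * ((2 + z ^ 3) * (8 + z ^ 3)) = G (chi z) * ((2 + Ga z ^ 3) * (8 + Ga z ^ 3)) := by
  have h1 := den_ne h.1.1
  have h2 := den8_ne h.1.1
  unfold sD
  rw [mul_pow, mul_pow, mul_pow, mul_pow, inv_pow, inv_pow, sq_sq, sq_sq, sq_sq, sq_sq, sq_sq]
  field_simp

lemma sq_ne {z : ℂ} (h : z ≠ 0) : sq z ≠ 0 := by
  intro h1
  apply h
  rw [← sq_sq z, h1]; norm_num

lemma S_sD {z : ℂ} (h : z ∈ E) : S 3 (sD z) ∧ 0 ≤ (sD z).re := by
  have hs := sqrt3_sq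
  have hs0 : 0 < Real.sqrt 3 := Real.sqrt_pos.2 (by norm_num)
  have hs1 : Real.sqrt 3 ≤ 174 / 100 := by nlinarith
  have a1 : ∀ z : ℂ, ‖z‖ ≤ 1 → S (27 / 100) (sq (2 + z ^ 3)) := fun z hz =>
    S_sq (by norm_num) (by norm_num) (by nlinarith) (by positivity) (S_two hz).1
  have a2 : ∀ z : ℂ, ‖z‖ ≤ 1 → S (7 / 100) (sq (8 + z ^ 3)) := fun z hz =>
    S_sq (by norm_num) (by norm_num) (by norm_num) (by norm_num) (S_eight hz).1
  have a3 : S (6 / 10) (sq (G (chi z))) :=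
    S_sq (by norm_num) (by norm_num) (by nlinarith) hs0 (sector h.2)
  have hGa := (Ga_mem h).1
  have re_inv : ∀ w : ℂ, 0 ≤ (sq w)⁻¹.re := fun w => by
    rw [inv_re]; exact div_nonneg (sq_re w) (normSq_nonneg _)
  obtain ⟨b1, b1'⟩ := S_mul (by norm_num) (by norm_num) (by norm_num) (a1 _ hGa)
    (S_inv (a1 _ h.1)) (sq_re _) (re_inv _)
  obtain ⟨b2, b2'⟩ := S_mul (by norm_num) (by norm_num) (by norm_num) (a2 _ hGa)
    (S_inv (a2 _ h.1)) (sq_re _) (re_inv _)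
  have r1 : 0 ≤ (sq (2 + Ga z ^ 3) * (sq (2 + z ^ 3))⁻¹).re :=
    le_trans (mul_nonneg (by norm_num) (mul_nonneg (sq_re _) (re_inv _))) b1'
  have r2 : 0 ≤ (sq (8 + Ga z ^ 3) * (sq (8 + z ^ 3))⁻¹).re :=
    le_trans (mul_nonneg (by norm_num) (mul_nonneg (sq_re _) (re_inv _))) b2'
  have c1 := S_mono (β := 6 / 10) (by norm_num) b1 r1
  have c2 := S_mono (β := 15 / 100) (by norm_num) b2 r2
  obtain ⟨b3, b3'⟩ := S_mul (by norm_num) (by norm_num) (by norm_num) c1 c2 r1 r2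
  have r3 := le_trans (mul_nonneg (by norm_num) (mul_nonneg r1 r2)) b3'
  have c3 := S_mono (β := 83 / 100) (by norm_num) b3 r3
  obtain ⟨b4, b4'⟩ := S_mul (by norm_num) (by norm_num) (by norm_num) c3 a3 r3 (sq_re _)
  have r4 := le_trans (mul_nonneg (by norm_num) (mul_nonneg r3 (sq_re _))) b4'
  exact ⟨S_mono (by norm_num) b4 r4, r4⟩

lemma sq_norm (z : ℂ) : ‖sq z‖ ^ 2 = ‖z‖ := by rw [← norm_pow, sq_sq]

lemma continuousOn_sq {s : Set ℂ} {f : ℂ → ℂ} (hf : ContinuousOn f s)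
    (h : ∀ z ∈ s, 0 < (f z).re) : ContinuousOn (fun z => sq (f z)) s := by
  unfold sq
  exact hf.cpow continuousOn_const fun z hz => Or.inl (h z hz)

lemma G_re_pos {z : ℂ} (h : z ∈ E) : 0 < (G (chi z)).re := by
  have h1 := sector h.2
  have h2 := root_norm_ge h.2 (G_eq (chi z))
  have hs0 : 0 < Real.sqrt 3 := Real.sqrt_pos.2 (by norm_num)
  have h3 : 0 ≤ (G (chi z)).re := nonneg_of_mul_nonneg_right ((abs_nonneg _).trans h1) hs0
  rcases h3.eq_or_lt with h4 | h4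
  · exfalso
    rw [← h4, mul_zero] at h1
    have h5 : (G (chi z)).im = 0 := abs_eq_zero.1 (le_antisymm h1 (abs_nonneg _))
    exact G_ne (chi z) (Complex.ext (by simpa using h4.symm) (by simpa using h5))
  · exact h4

lemma continuousOn_sD : ContinuousOn sD E := by
  have h1 : ContinuousOn chi E := continuousOn_chi.mono fun z hz => by simpa using hz.1
  have h2 : ContinuousOn (fun z => G (chi z)) E :=
    continuousOn_G.comp h1 fun z hz => by simpa using hz.2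
  have h3 : ContinuousOn (fun z => Ga z ^ 3) E := continuousOn_Ga.pow 3
  unfold sD
  refine (((continuousOn_sq (continuousOn_const.add h3) fun z hz => (S_two (Ga_mem hz).1).2).mul
    ((continuousOn_sq (by fun_prop) fun z hz => (S_two hz.1).2).inv₀ fun z hz =>
      sq_ne (den_ne hz.1))).mul
    ((continuousOn_sq (continuousOn_const.add h3) fun z hz => (S_eight (Ga_mem hz).1).2).mul
    ((continuousOn_sq (by fun_prop) fun z hz => (S_eight hz.1).2).inv₀ fun z hz =>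
      sq_ne (den8_ne hz.1)))).mul
    (continuousOn_sq h2 fun z hz => G_re_pos hz)

lemma sD_ne {z : ℂ} (h : z ∈ E) : sD z ≠ 0 := by
  unfold sD
  refine mul_ne_zero (mul_ne_zero (mul_ne_zero (sq_ne (den_ne (Ga_mem h).1))
    (inv_ne_zero (sq_ne (den_ne h.1)))) (mul_ne_zero (sq_ne (den8_ne (Ga_mem h).1))
    (inv_ne_zero (sq_ne (den8_ne h.1))))) (sq_ne (G_ne _))

lemma den_ge {z : ℂ} (h : z ∈ E) : 7 / 4 ≤ ‖2 + z ^ 3‖ := by
  have h1 := h.2
  have h0 := den_ne h.1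
  have h2 : 0 < ‖2 + z ^ 3‖ := norm_pos_iff.2 h0
  unfold chi at h1
  rw [norm_div, div_le_one h2, norm_mul] at h1
  have h3 : ‖(3 : ℂ)‖ = 3 := by simp
  rw [h3] at h1
  have h4 : 2 - ‖z‖ ^ 3 ≤ ‖2 + z ^ 3‖ := by
    have := norm_sub_norm_le (2 : ℂ) (-(z ^ 3))
    rw [norm_neg, norm_pow, sub_neg_eq_add] at this
    simpa using this
  by_contra hn
  push Not at hn
  have h5 : ‖z‖ ≤ 7 / 12 := by linarith
  have h6 : ‖z‖ ^ 3 ≤ (7 / 12) ^ 3 := pow_le_pow_left₀ (norm_nonneg _) h5 3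
  norm_num at h6
  linarith

lemma sD_norm {z : ℂ} (h : z ∈ E') : ‖sD z‖ ^ 2 * (‖2 + z ^ 3‖ * ‖8 + z ^ 3‖) =
    3 * (‖Ga z‖ * ‖8 + Ga z ^ 3‖) := by
  have h1 := sD_sq h
  have h2 : G (chi z) * (2 + Ga z ^ 3) = 3 * Ga z := by
    rw [← chi_Ga h.1]
    unfold chi
    rw [div_mul_cancel₀ _ (den_ne (Ga_mem h.1).1)]
  have h3 : sD z ^ 2 * ((2 + z ^ 3) * (8 + z ^ 3)) = 3 * (Ga z * (8 + Ga z ^ 3)) := by
    rw [h1, ← mul_assoc, h2]; ring
  have h4 := congrArg norm h3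
  rw [norm_mul, norm_mul, norm_mul, norm_mul, norm_pow] at h4
  have h5 : ‖(3 : ℂ)‖ = 3 := by simp
  rw [h5] at h4
  exact h4

lemma F_conj {w : ℂ} (h : ‖w‖ ≤ 1) : F ((starRingEnd ℂ) w) = (starRingEnd ℂ) (F w) := by
  have h1 : ‖(starRingEnd ℂ) w‖ ≤ 1 := by rwa [RCLike.norm_conj]
  refine chi_inj (F_norm h1) (by rw [RCLike.norm_conj]; exact F_norm h) ?_
  rw [chi_F h1]
  have h2 := chi_F h
  conv_lhs => rw [← h2]
  unfold chi
  simp [map_ofNat]

lemma dGa_zero : ∃ r : ℝ, 0 < r ∧ dGa 0 = r := by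
  have h0 : (0 : ℂ) ∈ E' := ⟨zero_mem_E, by norm_num⟩
  have hc : chi 0 = 0 := by simp [chi]
  have h1 := G_zero_re
  -- `G 0` is a positive real number
  have hv : vv 0 = 1 := by unfold vv; norm_num
  have hu : uu 0 = (((2 : ℝ) ^ ((1 / 3 : ℝ)) : ℝ) : ℂ) := by
    unfold uu
    rw [hv]
    have : (1 : ℂ) + 1 = ((2 : ℝ) : ℂ) := by norm_num
    rw [this, ofReal_cpow (by norm_num)]
    congr 1
    push_cast
    norm_num
  obtain ⟨a, ha, hG⟩ : ∃ a : ℝ, 0 < a ∧ G 0 = a :=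
    ⟨(2 : ℝ) ^ ((1 / 3 : ℝ)) / 2, by positivity, by
      unfold G; rw [zero_div, add_zero, hu]; push_cast; ring⟩
  have hn : ‖G 0‖ ≤ 1 := root_norm_le (by simp) (G_eq 0)
  obtain ⟨x, hx⟩ : ∃ x : ℝ, Ga 0 = x := by
    have h2 : (starRingEnd ℂ) (Ga 0) = Ga 0 := by
      unfold Ga
      rw [hc, ← F_conj hn, hG, conj_ofReal]
    exact (conj_eq_iff_real.1 h2)
  have hx1 : |x| ≤ 1 := by
    have := (Ga_mem h0.1).1
    rw [hx, norm_real] at this
    exact this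
  have hx2 : x ^ 3 < 1 := by
    have h3 : x ^ 3 ≤ 1 := by
      have := pow_le_one₀ (abs_nonneg x) hx1 (n := 3)
      rw [← abs_pow] at this
      exact (le_abs_self _).trans this
    refine lt_of_le_of_ne h3 fun h4 => Ga_nc h0 ?_
    rw [hx]; exact_mod_cast h4
  have hx3 : -1 ≤ x ^ 3 := by
    have := pow_le_one₀ (abs_nonneg x) hx1 (n := 3)
    rw [← abs_pow] at this
    exact (abs_le.1 this).1
  refine ⟨(6 * (1 - x ^ 3) / (2 + x ^ 3) ^ 2)⁻¹ * (a / (4 * a ^ 2) * (3 / 2)), ?_, ?_⟩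
  · have h4 : 0 < 1 - x ^ 3 := by linarith
    have h5 : 0 < 2 + x ^ 3 := by linarith
    positivity
  · unfold dGa dchi
    rw [hx, hc, hG]
    push_cast
    norm_num

/-- the derivative is the square root divided by `√3` -/
lemma dGa_eq {z : ℂ} (h : z ∈ E') : dGa z = sD z / (Real.sqrt 3 : ℂ) := by
  have hs := sqrt3_sq
  have hsp : 0 < Real.sqrt 3 := Real.sqrt_pos.2 (by norm_num)
  have hs0 : (Real.sqrt 3 : ℂ) ≠ 0 := by exact_mod_cast hsp.ne'
  have hs2 : (Real.sqrt 3 : ℂ) ^ 2 = 3 := by exact_mod_cast hs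
  have hq : ∀ z ∈ E', dGa z * Real.sqrt 3 / sD z = 1 ∨ dGa z * Real.sqrt 3 / sD z = -1 := by
    intro z hz
    have h1 := dGa_sq hz
    have h2 := sD_sq hz
    have h3 := den_ne hz.1.1
    have h4 := den8_ne hz.1.1
    have h5 := sD_ne hz.1
    have h6 : (dGa z * Real.sqrt 3 / sD z) ^ 2 = 1 := by
      rw [div_pow, div_eq_one_iff_eq (pow_ne_zero 2 h5), mul_pow, hs2]
      have : (dGa z ^ 2 * 3) * ((2 + z ^ 3) * (8 + z ^ 3)) =
          sD z ^ 2 * ((2 + z ^ 3) * (8 + z ^ 3)) := by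
        rw [h2, ← h1]; ring
      exact mul_right_cancel₀ (mul_ne_zero h3 h4) this
    have h7 : (dGa z * Real.sqrt 3 / sD z - 1) * (dGa z * Real.sqrt 3 / sD z + 1) = 0 := by
      linear_combination h6
    rcases mul_eq_zero.1 h7 with h | h
    · exact Or.inl (sub_eq_zero.1 h)
    · exact Or.inr (eq_neg_of_add_eq_zero_left h)
  have hc : ContinuousOn (fun z => (dGa z * Real.sqrt 3 / sD z).re) E' :=
    Complex.continuous_re.comp_continuousOn ((continuousOn_dGa.mul continuousOn_const).div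
      (continuousOn_sD.mono fun z hz => hz.1) fun z hz => sD_ne hz.1)
  have h0E : (0 : ℂ) ∈ E' := ⟨zero_mem_E, by norm_num⟩
  have hone : dGa 0 * Real.sqrt 3 / sD 0 = 1 := by
    rcases hq 0 h0E with h | h
    · exact h
    · exfalso
      obtain ⟨r, hr, hr'⟩ := dGa_zero
      rw [div_eq_iff (sD_ne h0E.1), hr'] at h
      have h1 : (sD 0).re = -(r * Real.sqrt 3) := by
        have h2 : sD 0 = ((-(r * Real.sqrt 3) : ℝ) : ℂ) := by
          push_cast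
          linear_combination h
        rw [h2, ofReal_re]
      have h3 := (S_sD h0E.1).2
      rw [h1] at h3
      have : 0 < r * Real.sqrt 3 := by positivity
      linarith
  have hz1 : dGa z * Real.sqrt 3 / sD z = 1 := by
    rcases hq z h with h1 | h1
    · exact h1
    · exfalso
      have hivt := convex_E'.isPreconnected.intermediate_value h h0E hc
      obtain ⟨y, hy, hy0⟩ := hivt (show (0 : ℝ) ∈ Icc _ _ by
        constructor
        · rw [h1]; norm_num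
        · rw [hone]; norm_num)
      rcases hq y hy with h2 | h2
      · simp only [h2] at hy0; norm_num at hy0
      · simp only [h2] at hy0; norm_num at hy0
  rw [div_eq_one_iff_eq (sD_ne h.1)] at hz1
  rw [← hz1]
  field_simp

lemma Ga_norm_ge {z : ℂ} (h : z ∈ E) : 1 / 12 ≤ ‖Ga z‖ := by
  have h1 := root_norm_ge h.2 (G_eq (chi z))
  rw [← chi_Ga h] at h1
  unfold chi at h1
  rw [norm_div, norm_mul] at h1
  have h2 := den_norm (Ga_mem h).1
  have h3 : ‖(3 : ℂ)‖ = 3 := by simp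
  rw [h3, le_div_iff₀ (by linarith)] at h1
  linarith

lemma sD_bounds {z : ℂ} (h : z ∈ E') : 1 / 16 ≤ ‖sD z‖ ^ 2 ∧ ‖sD z‖ ^ 2 ≤ 108 / 49 := by
  have h1 := sD_norm h
  have a1 := den_ge h.1
  have a2 := den_le h.1.1
  have a3 := den8_norm h.1.1
  have a4 := den8_le h.1.1
  have a5 := den8_norm (Ga_mem h.1).1
  have a6 := den8_le (Ga_mem h.1).1
  have a7 := (Ga_mem h.1).1
  have a8 := Ga_norm_ge h.1
  have b1 : ‖2 + z ^ 3‖ * ‖8 + z ^ 3‖ ≤ 27 := by nlinarith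
  have b2 : 49 / 4 ≤ ‖2 + z ^ 3‖ * ‖8 + z ^ 3‖ := by nlinarith
  have b3 : ‖Ga z‖ * ‖8 + Ga z ^ 3‖ ≤ 9 := by nlinarith
  have b4 : 7 / 12 ≤ ‖Ga z‖ * ‖8 + Ga z ^ 3‖ := by nlinarith
  have h2 : 0 ≤ ‖sD z‖ ^ 2 := by positivity
  constructor <;> nlinarith

lemma dGa_re {z : ℂ} (h : z ∈ E') : 1 / 25 ≤ (dGa z).re := by
  have hs := sqrt3_sq
  have hsp : 0 < Real.sqrt 3 := Real.sqrt_pos.2 (by norm_num)
  have hs1 : Real.sqrt 3 ≤ 174 / 100 := by nlinarith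
  have h1 := S_sD h.1
  have h2 := (sD_bounds h).1
  rw [← normSq_eq_norm_sq, normSq_apply] at h2
  obtain ⟨h3, h4⟩ := h1
  unfold S at h3
  have h5 : (sD z).im ^ 2 ≤ (3 * (sD z).re) ^ 2 := by
    rw [← sq_abs (sD z).im]
    exact pow_le_pow_left₀ (abs_nonneg _) h3 2
  have h6 : 7 / 100 ≤ (sD z).re := by
    by_contra hn
    push Not at hn
    nlinarith
  rw [dGa_eq h]
  have e : (sD z / (Real.sqrt 3 : ℂ)).re = (sD z).re / Real.sqrt 3 := by
    rw [div_ofReal_re]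
  rw [e, le_div_iff₀ hsp]
  linarith

lemma dGa_norm {z : ℂ} (h : z ∈ E') : ‖dGa z‖ ≤ 6 / 7 := by
  have hs := sqrt3_sq
  have hsp : 0 < Real.sqrt 3 := Real.sqrt_pos.2 (by norm_num)
  have h2 := (sD_bounds h).2
  rw [dGa_eq h, norm_div, norm_real, Real.norm_of_nonneg hsp.le, div_le_iff₀ hsp]
  refine le_of_sq_le_sq ?_ (by positivity)
  rw [mul_pow, hs]
  linarith

end Pool.Agent.W5h43.SG
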