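import Pool.Agent.W5h43.SG.Conv

set_option autoImplicit false

/-!
# The inverse of the chart
-/

namespace Pool.Agent.W5h43.SG

open Complex Set Topology

lemma continuousOn_chi : ContinuousOn chi (Metric.closedBall 0 1) := by
  unfold chi
  refine ContinuousOn.div (by fun_prop) (by fun_prop) fun z hz => den_ne (by simpa using hz)

lemma exists_chi_of_lt {w : ℂ} (hw : ‖w‖ < 1) : ∃ z, ‖z‖ ≤ 1 ∧ chi z = w := by
  let f : ℂ → ℂ := fun z => w * (2 + z ^ 3) / 3
  have hm : MapsTo f (Metric.closedBall 0 1) (Metric.closedBall 0 1) := by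
    intro z hz
    have hz' : ‖z‖ ≤ 1 := by simpa using hz
    have h1 := den_le hz'
    simp only [f, mem_closedBall_zero_iff, norm_div, norm_mul]
    have h3 : ‖(3 : ℂ)‖ = 3 := by simp
    rw [h3, div_le_one (by norm_num)]
    nlinarith [norm_nonneg w, norm_nonneg (2 + z ^ 3)]
  have hL : ContractingWith ‖w‖₊ (hm.restrict f _ _) := by
    refine ⟨by exact_mod_cast hw, LipschitzWith.of_dist_le_mul ?_⟩
    rintro ⟨a, ha⟩ ⟨b, hb⟩
    have ha' : ‖a‖ ≤ 1 := by simpa using ha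
    have hb' : ‖b‖ ≤ 1 := by simpa using hb
    change dist (f a) (f b) ≤ ‖w‖ * dist a b
    rw [dist_eq_norm, dist_eq_norm]
    have e : f a - f b = w * (a - b) * ((a ^ 2 + a * b + b ^ 2) / 3) := by simp only [f]; ring
    rw [e, norm_mul, norm_mul, norm_div]
    have h3 : ‖(3 : ℂ)‖ = 3 := by simp
    have h4 : ‖a ^ 2 + a * b + b ^ 2‖ ≤ 3 := by
      refine (norm_add₃_le).trans ?_
      rw [norm_pow, norm_pow, norm_mul]
      nlinarith [norm_nonneg a, norm_nonneg b]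
    have h5 : ‖a ^ 2 + a * b + b ^ 2‖ / ‖(3 : ℂ)‖ ≤ 1 := by
      rw [h3]; exact (div_le_one (by norm_num)).2 h4
    exact mul_le_of_le_one_right (by positivity) h5
  obtain ⟨z, hz, hfz, -⟩ := ContractingWith.exists_fixedPoint'
    (Metric.isClosed_closedBall.isComplete) hm hL (x := 0) (by simp) (edist_ne_top _ _)
  have hz' : ‖z‖ ≤ 1 := by simpa using hz
  refine ⟨z, hz', ?_⟩
  have h0 := den_ne hz'
  have h1 : w * (2 + z ^ 3) / 3 = z := hfz
  unfold chi
  rw [div_eq_iff h0]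
  linear_combination (-3) * h1

lemma exists_chi {w : ℂ} (hw : ‖w‖ ≤ 1) : ∃ z, ‖z‖ ≤ 1 ∧ chi z = w := by
  have hc : IsClosed (chi '' Metric.closedBall 0 1) :=
    ((isCompact_closedBall (0:ℂ) 1).image_of_continuousOn continuousOn_chi).isClosed
  have h1 : Metric.ball (0:ℂ) 1 ⊆ chi '' Metric.closedBall 0 1 := by
    intro x hx
    obtain ⟨z, hz, h⟩ := exists_chi_of_lt (w := x) (by simpa using hx)
    exact ⟨z, by simpa using hz, h⟩
  have h2 := closure_minimal h1 hc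
  rw [closure_ball (0:ℂ) one_ne_zero] at h2
  obtain ⟨z, hz, h⟩ := h2 (show w ∈ Metric.closedBall 0 1 by simpa using hw)
  exact ⟨z, by simpa using hz, h⟩

open Classical in
/-- the inverse of the chart -/
noncomputable def F (w : ℂ) : ℂ := if h : ‖w‖ ≤ 1 then (exists_chi h).choose else 0

lemma F_norm {w : ℂ} (h : ‖w‖ ≤ 1) : ‖F w‖ ≤ 1 := by
  unfold F; rw [dif_pos h]; exact (exists_chi h).choose_spec.1

lemma chi_F {w : ℂ} (h : ‖w‖ ≤ 1) : chi (F w) = w := by
  unfold F; rw [dif_pos h]; exact (exists_chi h).choose_spec.2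

lemma F_mem {w : ℂ} (h : ‖w‖ ≤ 1) : F w ∈ E := ⟨F_norm h, by rw [chi_F h]; exact h⟩

lemma F_chi {z : ℂ} (h : z ∈ E) : F (chi z) = z :=
  chi_inj (F_norm h.2) h.1 (chi_F h.2)

lemma F_dist {w w' : ℂ} (h : ‖w‖ ≤ 1) (h' : ‖w'‖ ≤ 1) : ‖F w - F w'‖ ^ 2 ≤ 36 * ‖w - w'‖ := by
  have := chi_lower (F_mem h) (F_mem h')
  rw [chi_F h, chi_F h'] at this
  nlinarith [norm_nonneg (F w - F w'), norm_nonneg (1 - F w ^ 3),
    mul_nonneg (norm_nonneg (F w - F w')) (norm_nonneg (1 - F w ^ 3))]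

lemma continuousOn_F : ContinuousOn F (Metric.closedBall 0 1) := by
  intro w hw
  have hw' : ‖w‖ ≤ 1 := by simpa using hw
  rw [Metric.continuousWithinAt_iff]
  intro ε hε
  refine ⟨ε ^ 2 / 36, by positivity, fun x hx hd => ?_⟩
  have hx' : ‖x‖ ≤ 1 := by simpa using hx
  have h1 := F_dist hx' hw'
  rw [dist_eq_norm] at hd ⊢
  rw [lt_div_iff₀ (by norm_num)] at hd
  exact lt_of_pow_lt_pow_left₀ 2 hε.le (by linarith)

lemma chi_corner {z : ℂ} (h : z ^ 3 = 1) : chi z = z := by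
  unfold chi; rw [h]; norm_num

lemma corner_norm {z : ℂ} (h : z ^ 3 = 1) : ‖z‖ = 1 := by
  have : ‖z‖ ^ 3 = 1 := by rw [← norm_pow, h, norm_one]
  exact (pow_eq_one_iff_of_nonneg (norm_nonneg _) (by norm_num)).1 this

lemma corner_mem {z : ℂ} (h : z ^ 3 = 1) : z ∈ E :=
  ⟨(corner_norm h).le, by rw [chi_corner h]; exact (corner_norm h).le⟩

lemma F_corner {z : ℂ} (h : z ^ 3 = 1) : F z = z := by
  have := F_chi (corner_mem h)
  rwa [chi_corner h] at this

/-- the corners are the only points of `E` over corners -/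
lemma chi_cube_eq_one {z : ℂ} (hz : z ∈ E) (h : chi z ^ 3 = 1) : z ^ 3 = 1 := by
  have := F_corner h
  rw [F_chi hz] at this
  rwa [← this] at h

/-- the derivative of the chart -/
noncomputable def dchi (z : ℂ) : ℂ := 6 * (1 - z ^ 3) / (2 + z ^ 3) ^ 2

lemma hasDerivAt_chi {z : ℂ} (h : ‖z‖ ≤ 1) : HasDerivAt chi (dchi z) z := by
  have h0 := den_ne h
  have h1 : HasDerivAt (fun z : ℂ => 3 * z) 3 z := by
    simpa using (hasDerivAt_id z).const_mul 3
  have h2 : HasDerivAt (fun z : ℂ => 2 + z ^ 3) (3 * z ^ 2) z := by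
    simpa using (hasDerivAt_pow 3 z).const_add 2
  have h3 := h1.div h2 h0
  have e : dchi z = (3 * (2 + z ^ 3) - 3 * z * (3 * z ^ 2)) / (2 + z ^ 3) ^ 2 := by
    unfold dchi; congr 1; ring
  rw [e]
  exact h3

lemma dchi_ne {z : ℂ} (h : ‖z‖ ≤ 1) (h1 : z ^ 3 ≠ 1) : dchi z ≠ 0 := by
  unfold dchi
  refine div_ne_zero (mul_ne_zero (by norm_num) (sub_ne_zero.2 h1.symm))
    (pow_ne_zero _ (den_ne h))

/-- `χ'² = 36 (1 - χ³) / ((2 + z³)(8 + z³))` -/
lemma dchi_sq {z : ℂ} (h : ‖z‖ ≤ 1) :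
    dchi z ^ 2 * ((2 + z ^ 3) * (8 + z ^ 3)) = 36 * (1 - chi z ^ 3) := by
  have h0 := den_ne h
  unfold dchi chi
  field_simp
  ring

lemma hasDerivAt_F {w : ℂ} (h : ‖w‖ < 1) : HasDerivAt F (dchi (F w))⁻¹ w := by
  have h1 : (F w) ^ 3 ≠ 1 := by
    intro h2
    have := chi_corner h2
    rw [chi_F h.le] at this
    rw [this, corner_norm h2] at h
    exact lt_irrefl _ h
  refine HasDerivAt.of_local_left_inverse (f := chi) ?_ (hasDerivAt_chi (F_norm h.le))
    (dchi_ne (F_norm h.le) h1) ?_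
  · exact (continuousOn_F w (by simpa using h.le)).continuousAt
      (Filter.mem_of_superset (Metric.isOpen_ball.mem_nhds (by simpa using h))
        Metric.ball_subset_closedBall)
  · filter_upwards [Metric.isOpen_ball.mem_nhds (show w ∈ Metric.ball (0:ℂ) 1 by simpa using h)]
      with y hy
    exact chi_F (by simpa using (Metric.ball_subset_closedBall hy))

end Pool.Agent.W5h43.SG
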