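import Pool.Agent.W5h43.SG.Branch

set_option autoImplicit false

/-!
# Sectors and transversality
-/

namespace Pool.Agent.W5h43.SG

open Complex Set Topology

lemma corner_cases {w : ℂ} (h : w ^ 3 = 1) : w = 1 ∨ w = om ∨ w = om ^ 2 := by
  have h1 : (w - 1) * ((w - om) * (w - om ^ 2)) = 0 := by
    have h4 : om ^ 3 = 1 := om_cube
    linear_combination h - (w - 1) * w * om_rel + (w - 1) * h4
  rcases mul_eq_zero.1 h1 with h | h
  · exact Or.inl (sub_eq_zero.1 h)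
  · rcases mul_eq_zero.1 h with h | h
    · exact Or.inr (Or.inl (sub_eq_zero.1 h))
    · exact Or.inr (Or.inr (sub_eq_zero.1 h))

lemma convex_punct {C : Set ℂ} (hC : Convex ℝ C) (hC1 : ∀ z ∈ C, ‖z‖ ≤ 1) :
    Convex ℝ {z | z ∈ C ∧ z ^ 3 ≠ 1} := by
  intro a ha b hb s t hs ht hst
  refine ⟨hC ha.1 hb.1 hs ht hst, fun h => ?_⟩
  rcases eq_or_ne a b with rfl | hab
  · rw [← add_smul, hst, one_smul] at h
    exact ha.2 h
  rcases hs.eq_or_lt with h0 | hs'
  · have ht1 : t = 1 := by linarith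
    rw [← h0, ht1, zero_smul, zero_add, one_smul] at h
    exact hb.2 h
  rcases ht.eq_or_lt with h0 | ht'
  · have hs1 : s = 1 := by linarith
    rw [← h0, hs1, zero_smul, add_zero, one_smul] at h
    exact ha.2 h
  have := norm_combo_lt_of_ne (hC1 a ha.1) (hC1 b hb.1) hab hs' ht' hst
  rw [corner_norm h] at this
  exact lt_irrefl _ this

/-- on the two rays only the critical points are over the closed unit disc -/
lemma not_on_ray {w : ℂ} (hw : ‖w‖ ≤ 1) (hw1 : w ^ 3 ≠ 1) :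
    Real.sqrt 3 * (G w).re - |(G w).im| ≠ 0 := by
  intro h
  set W := G w with hW
  have h3 := sqrt3_sq
  have hs : 0 < Real.sqrt 3 := Real.sqrt_pos.2 (by norm_num)
  have him : W.im ^ 2 = 3 * W.re ^ 2 := by
    have : |W.im| = Real.sqrt 3 * W.re := by linarith
    have h4 : |W.im| ^ 2 = (Real.sqrt 3 * W.re) ^ 2 := by rw [this]
    rw [sq_abs, mul_pow, h3] at h4
    exact h4
  have hre : 0 ≤ W.re := by
    have : |W.im| = Real.sqrt 3 * W.re := by linarith
    have h5 := abs_nonneg W.im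
    rw [this] at h5
    exact nonneg_of_mul_nonneg_right h5 hs
  have hcube : W ^ 3 = ((-8 * W.re ^ 3 : ℝ) : ℂ) := by
    apply Complex.ext
    · rw [ofReal_re]
      simp only [pow_succ, pow_zero, one_mul, mul_re, mul_im]
      nlinarith
    · rw [ofReal_im]
      simp only [pow_succ, pow_zero, one_mul, mul_re, mul_im]
      linear_combination (-W.im) * him
  have hnorm : ‖W‖ = 2 * W.re := by
    have : ‖W‖ ^ 2 = (2 * W.re) ^ 2 := by
      rw [← normSq_eq_norm_sq, normSq_apply]; nlinarith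
    exact (pow_left_inj₀ (norm_nonneg _) (by linarith) two_ne_zero).1 this
  have h6 := root_norm_eq (G_eq w)
  rw [← hW, hcube, hnorm] at h6
  have h7 : ‖4 * (((-8 * W.re ^ 3 : ℝ) : ℂ)) - 1‖ = 32 * W.re ^ 3 + 1 := by
    have : 4 * (((-8 * W.re ^ 3 : ℝ) : ℂ)) - 1 = ((-(32 * W.re ^ 3 + 1) : ℝ) : ℂ) := by
      push_cast; ring
    rw [this, norm_real, norm_neg, Real.norm_of_nonneg (by positivity)]
  rw [h7] at h6
  have h8 : 32 * W.re ^ 3 + 1 ≤ 6 * W.re := by
    rw [h6]; nlinarith [norm_nonneg w]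
  have h9 : (4 * W.re - 1) ^ 2 * (2 * W.re + 1) ≤ 0 := by nlinarith
  have h10 : (4 * W.re - 1) ^ 2 = 0 := by
    have : 0 ≤ (4 * W.re - 1) ^ 2 := sq_nonneg _
    nlinarith
  have h11 : W.re = 1 / 4 := by
    have := pow_eq_zero_iff (two_ne_zero) |>.1 h10
    linarith
  apply root_nc2 hw1 (G_eq w)
  rw [← hW, hcube, h11]
  push_cast
  norm_num

lemma G_zero_re : 0 < Real.sqrt 3 * (G 0).re - |(G 0).im| := by
  have h0 : vv 0 = 1 := by
    unfold vv; norm_num
  have h1 : uu 0 = (((2 : ℝ) ^ ((1 / 3 : ℝ)) : ℝ) : ℂ) := by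
    unfold uu
    rw [h0]
    have : (1 : ℂ) + 1 = ((2 : ℝ) : ℂ) := by norm_num
    rw [this, ofReal_cpow (by norm_num)]
    congr 1
    push_cast
    norm_num
  have h2 : G 0 = (((2 : ℝ) ^ ((1 / 3 : ℝ)) / 2 : ℝ) : ℂ) := by
    unfold G; rw [zero_div, add_zero, h1]; push_cast; ring
  rw [h2, ofReal_re, ofReal_im, abs_zero, sub_zero]
  positivity

lemma sector_open {w : ℂ} (hw : ‖w‖ ≤ 1) (hw1 : w ^ 3 ≠ 1) :
    0 < Real.sqrt 3 * (G w).re - |(G w).im| := by
  by_contra hn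
  push Not at hn
  have hconv : Convex ℝ {z : ℂ | z ∈ Metric.closedBall (0:ℂ) 1 ∧ z ^ 3 ≠ 1} :=
    convex_punct (convex_closedBall _ _) (fun z hz => by simpa using hz)
  have hcont : ContinuousOn (fun w => Real.sqrt 3 * (G w).re - |(G w).im|)
      {z : ℂ | z ∈ Metric.closedBall (0:ℂ) 1 ∧ z ^ 3 ≠ 1} := by
    have hG : ContinuousOn G {z : ℂ | z ∈ Metric.closedBall (0:ℂ) 1 ∧ z ^ 3 ≠ 1} :=
      continuousOn_G.mono fun z hz => hz.1
    exact (continuousOn_const.mul (Complex.continuous_re.comp_continuousOn hG)).sub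
      (continuous_abs.comp_continuousOn (Complex.continuous_im.comp_continuousOn hG))
  have hivt := hconv.isPreconnected.intermediate_value (a := w) (b := 0)
    ⟨by simpa using hw, hw1⟩ ⟨by simp, by norm_num⟩ hcont
  obtain ⟨z, hz, h0⟩ := hivt ⟨hn, G_zero_re.le⟩
  exact not_on_ray (by simpa using hz.1) hz.2 h0

lemma G_corner {w : ℂ} (h : w ^ 3 = 1) : G w = (1 + w) / 2 := by
  have h0 : vv w = 0 := by
    unfold vv; rw [h, sub_self, zero_cpow (by norm_num)]
  have h1 : uu w = 1 := by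
    unfold uu; rw [h0, add_zero, one_cpow]
  unfold G
  rw [h1, div_one]

lemma sector {w : ℂ} (hw : ‖w‖ ≤ 1) : |(G w).im| ≤ Real.sqrt 3 * (G w).re := by
  by_cases hw1 : w ^ 3 = 1
  · rw [G_corner hw1]
    have hs : 0 < Real.sqrt 3 := Real.sqrt_pos.2 (by norm_num)
    have h3 := sqrt3_sq
    rcases corner_cases hw1 with rfl | rfl | rfl
    · norm_num
    · have e : (1 + om) / 2 = ((1 / 4 : ℝ) : ℂ) + ((Real.sqrt 3 / 4 : ℝ) : ℂ) * I := by
        apply Complex.ext <;> simp [om] <;> ring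
      rw [e]
      simp only [add_re, add_im, ofReal_re, ofReal_im, mul_re, mul_im, I_re, I_im]
      rw [abs_of_nonneg (by simp; positivity)]
      linarith
    · have e0 : om ^ 2 = -1 - om := by linear_combination om_rel
      have e : (1 + om ^ 2) / 2 = ((1 / 4 : ℝ) : ℂ) - ((Real.sqrt 3 / 4 : ℝ) : ℂ) * I := by
        rw [e0]
        apply Complex.ext <;> simp [om] <;> ring
      rw [e]
      simp only [sub_re, sub_im, ofReal_re, ofReal_im, mul_re, mul_im, I_re, I_im]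
      rw [abs_of_nonpos (by simp; positivity)]
      linarith
  · linarith [sector_open hw hw1]

/-! ## Transversality -/

lemma trans_poly {u q : ℝ} (hu : 0 < u)
    (h : 16 * (u ^ 2 + q ^ 2) ^ 3 + 8 * (u ^ 3 - 3 * u * q ^ 2) + 1 ≤ 9 * (u ^ 2 + q ^ 2)) :
    (2 * u - 1) ^ 2 ≤ 18 * q ^ 2 := by
  have e : 16 * (u ^ 2 + q ^ 2) ^ 3 + 8 * (u ^ 3 - 3 * u * q ^ 2) + 1 - 9 * (u ^ 2 + q ^ 2) =
      (2 * u - 1) ^ 2 * (u + 1) * (4 * u ^ 3 + 3 * u + 1) -
        q ^ 2 * (9 + 24 * u - 48 * u ^ 4) + 48 * u ^ 2 * q ^ 4 + 16 * q ^ 6 := by ring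
  have h1 : (2 * u - 1) ^ 2 * 1 ≤ (2 * u - 1) ^ 2 * ((u + 1) * (4 * u ^ 3 + 3 * u + 1)) := by
    apply mul_le_mul_of_nonneg_left _ (sq_nonneg _)
    have : 0 < u ^ 3 := by positivity
    have h2 : 1 ≤ 4 * u ^ 3 + 3 * u + 1 := by linarith
    nlinarith
  have h2 : q ^ 2 * (9 + 24 * u - 48 * u ^ 4) ≤ q ^ 2 * 18 := by
    apply mul_le_mul_of_nonneg_left _ (sq_nonneg _)
    nlinarith [sq_nonneg (4 * u ^ 2 - 1), sq_nonneg (2 * u - 1)]
  have h3 : 0 ≤ 48 * u ^ 2 * q ^ 4 := by positivity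
  have h4 : 0 ≤ 16 * q ^ 6 := by positivity
  nlinarith

/-- the critical point on the upper boundary ray of the sector -/
noncomputable def cc : ℂ := ⟨1 / 4, Real.sqrt 3 / 4⟩

lemma cc_eq : cc = (1 + om) / 2 := by
  apply Complex.ext <;> simp [om, cc] <;> ring

lemma trans_one {z : ℂ} (h1 : ‖4 * z ^ 3 - 1‖ ≤ 3 * ‖z‖) (h2 : 1 / 4 ≤ ‖z‖) (h3 : ‖z‖ ≤ 1)
    (h4 : |z.im| ≤ Real.sqrt 3 * z.re) :
    ‖z - cc‖ ≤ 10 * ((Real.sqrt 3 * z.re - z.im) / 2) := by
  have hs := sqrt3_sq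
  have hs0 : 0 < Real.sqrt 3 := Real.sqrt_pos.2 (by norm_num)
  have hs1 : Real.sqrt 3 < 2 := by nlinarith
  have hs2 : 17 / 10 < Real.sqrt 3 := by nlinarith
  set s := Real.sqrt 3
  obtain ⟨h5, h6⟩ := abs_le.1 h4
  set q := (s * z.re - z.im) / 2 with hq
  set u := (z.re + s * z.im) / 2 with hu
  have hq0 : 0 ≤ q := by rw [hq]; linarith
  have e1 : u ^ 2 + q ^ 2 = normSq z := by
    rw [hu, hq, normSq_apply]; linear_combination ((z.im ^ 2 + z.re ^ 2) / 4) * hs
  have e2 : ‖z - cc‖ ^ 2 = (u - 1 / 2) ^ 2 + q ^ 2 := by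
    rw [← normSq_eq_norm_sq, normSq_apply, sub_re, sub_im, cc, hu, hq]
    simp only
    linear_combination (1 / 16 - (z.im ^ 2 + z.re ^ 2) / 4) * hs
  have key : (u - 1 / 2) ^ 2 ≤ 99 * q ^ 2 := by
    by_cases hu0 : 0 < u
    · have h7 : 16 * (u ^ 2 + q ^ 2) ^ 3 + 8 * (u ^ 3 - 3 * u * q ^ 2) + 1 ≤
          9 * (u ^ 2 + q ^ 2) := by
        have h8 : ‖4 * z ^ 3 - 1‖ ^ 2 ≤ (3 * ‖z‖) ^ 2 := pow_le_pow_left₀ (norm_nonneg _) h1 2
        rw [mul_pow, ← normSq_eq_norm_sq, ← normSq_eq_norm_sq] at h8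
        have h9 : normSq (4 * z ^ 3 - 1) = 16 * normSq z ^ 3 - 8 * (z ^ 3).re + 1 := by
          rw [normSq_sub, map_mul, map_pow]
          have e4 : normSq (4 : ℂ) = 16 := by
            rw [show (4 : ℂ) = ((4 : ℝ) : ℂ) by norm_num, normSq_ofReal]; norm_num
          have e5 : (4 * z ^ 3 * (starRingEnd ℂ) 1).re = 4 * (z ^ 3).re := by
            rw [map_one, mul_one, show (4 : ℂ) = ((4 : ℝ) : ℂ) by norm_num, re_ofReal_mul]
          rw [e4, e5, map_one]; ring
        have h10 : (z ^ 3).re = -(u ^ 3 - 3 * u * q ^ 2) := by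
          have e6 : (z ^ 3).re = z.re ^ 3 - 3 * z.re * z.im ^ 2 := by
            simp only [pow_succ, pow_zero, one_mul, mul_re, mul_im]; ring
          rw [e6, hu, hq]
          have hs3 : s ^ 3 = 3 * s := by rw [pow_succ, hs]
          have hs3' : s ^ 3 - 3 * s = 0 := by linarith
          linear_combination (-(9 / 8) * z.re * z.im ^ 2 + 3 / 8 * z.re ^ 3) * 0 * hs +
            (z.im ^ 3 / 8 - 3 * z.re ^ 2 * z.im / 8) * hs3' +
            (-(3 * z.re ^ 3) / 8 + 9 * z.re * z.im ^ 2 / 8) * (by linarith : s ^ 2 - 3 = 0)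
        rw [h9, h10, ← e1] at h8
        linarith
      have := trans_poly hu0 h7
      nlinarith
    · push Not at hu0
      have h7 : z.im ≤ 0 ∨ 0 < z.im := le_or_gt _ _
      have hre : 0 ≤ z.re := by nlinarith
      have h8 : z.im ≤ 0 := by
        rcases h7 with h | h
        · exact h
        · exfalso; rw [hu] at hu0; nlinarith
      have h9 : -u ≤ z.re := by rw [hu]; nlinarith
      have h10 : s * z.re / 2 ≤ q := by rw [hq]; linarith
      have h11 : -u ≤ 6 / 5 * q := by nlinarith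
      have h12 : 1 / 16 ≤ u ^ 2 + q ^ 2 := by
        rw [e1, normSq_eq_norm_sq]; nlinarith
      have h13 : u ^ 2 ≤ 36 / 25 * q ^ 2 := by nlinarith
      have h14 : 1 / 40 ≤ q ^ 2 := by nlinarith
      have h15 : -u ≤ 1 := by
        have : z.re ≤ 1 := (re_le_norm z).trans h3
        linarith
      nlinarith
  have : ‖z - cc‖ ^ 2 ≤ (10 * q) ^ 2 := by rw [e2]; nlinarith
  exact le_of_sq_le_sq this (by linarith)

lemma om_cc : om * (starRingEnd ℂ) cc = cc := by
  have hs := sqrt3_sq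
  apply Complex.ext
  · simp only [om, cc, mul_re, conj_re, conj_im]; nlinarith
  · simp only [om, cc, mul_im, conj_re, conj_im]; ring

/-- transversality of the two tiles at a common point -/
lemma trans_w {w w' : ℂ} (hw : ‖w‖ ≤ 1) (hw' : ‖w'‖ ≤ 1) :
    ‖G w - cc‖ + ‖om * G w' - cc‖ ≤ 10 * ‖G w - om * G w'‖ := by
  have hs := sqrt3_sq
  have a1 := trans_one (z := G w) (by rw [root_norm_eq (G_eq w)]; nlinarith [norm_nonneg w, norm_nonneg (G w)])
    (root_norm_ge hw (G_eq w)) (root_norm_le hw (G_eq w)) (sector hw)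
  have a2 := trans_one (z := (starRingEnd ℂ) (G w')) (by
      have e : 4 * (starRingEnd ℂ) (G w') ^ 3 - 1 = (starRingEnd ℂ) (4 * G w' ^ 3 - 1) := by
        simp [map_ofNat]
      rw [e, RCLike.norm_conj, RCLike.norm_conj, root_norm_eq (G_eq w')]
      nlinarith [norm_nonneg w', norm_nonneg (G w')])
    (by rw [RCLike.norm_conj]; exact root_norm_ge hw' (G_eq w'))
    (by rw [RCLike.norm_conj]; exact root_norm_le hw' (G_eq w'))
    (by rw [conj_im, conj_re, abs_neg]; exact sector hw')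
  have e2 : ‖om * G w' - cc‖ = ‖(starRingEnd ℂ) (G w') - cc‖ := by
    have : om * G w' - cc = om * (starRingEnd ℂ) ((starRingEnd ℂ) (G w') - cc) := by
      rw [map_sub, conj_conj, mul_sub, om_cc]
    rw [this, norm_mul, om_norm, one_mul, RCLike.norm_conj]
  rw [e2]
  rw [conj_re, conj_im] at a2
  -- the linear functional
  set e : ℂ := ⟨1 / 2, -(Real.sqrt 3 / 2)⟩ with he
  have hen : ‖e‖ = 1 := by
    have : ‖e‖ ^ 2 = 1 ^ 2 := by
      rw [← normSq_eq_norm_sq, normSq_apply, he]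
      simp only
      nlinarith
    exact (pow_left_inj₀ (norm_nonneg _) zero_le_one two_ne_zero).1 this
  have h5 : |((G w - om * G w') * e).im| ≤ ‖G w - om * G w'‖ := by
    refine (abs_im_le_norm _).trans ?_
    rw [norm_mul, hen, mul_one]
  have h6 : ((G w - om * G w') * e).im =
      -((Real.sqrt 3 * (G w).re - (G w).im) / 2) - (Real.sqrt 3 * (G w').re + (G w').im) / 2 := by
    rw [he]
    simp only [mul_im, sub_re, sub_im, mul_re, om]
    linear_combination (-(G w').im / 4) * hs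
  rw [h6, abs_of_nonpos (by
    obtain ⟨b1, b2⟩ := abs_le.1 (sector hw)
    obtain ⟨b3, b4⟩ := abs_le.1 (sector hw')
    linarith)] at h5
  linarith

end Pool.Agent.W5h43.SG
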